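import Pool.Agent.H63.KN.Defs
import Pool.Agent.H47.KO.BipCx

/-! # KN.BipG : the bipyramid over a good system with a handle (paper D5; compare `H47.KO.GoodBip`)

Group `G × Equiv.Perm Bool`, index type `ι × Bool`. `goodP_bip`: as `H47.KO.good_bip` without `cG`. `hd_bip`: `im (Fin.snoc (inl ∘ e i) (inr b)) = (im (e i)).disjSum {b}` (`isSx_bip`). `hfull_bip`: for `(i, b)`, `(i', b')`, `σ`: `σ` fixes the last position; take `(g, π)` with `π b = b'` (`Equiv.swap b b'`). -/

namespace H63.KN

open Finset H47.KO

variable {V G ι : Type} [Fintype V] [DecidableEq V] [Group G] {D μ : ℕ}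
  {𝓕 : Finset (Finset V)} {act : G →* Equiv.Perm V} {r : G} {κ : Fin 11 → V} {W : Finset V}
  {e : ι → Fin D → V} {aι : G →* Equiv.Perm ι}

/-- the enumerations of the facets of the handle of the bipyramid -/
def bipE {V ι : Type} {D : ℕ} (e : ι → Fin D → V) : ι × Bool → Fin (D + 1) → V ⊕ Bool := fun p =>
  Fin.snoc (α := fun _ => V ⊕ Bool) (fun j => Sum.inl (e p.1 j)) (Sum.inr p.2)

/-- the action on the index set of the handle of the bipyramid -/
def actIB {G ι : Type} [Group G] (aι : G →* Equiv.Perm ι) :
    G × Equiv.Perm Bool →* Equiv.Perm (ι × Bool) where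
  toFun p := Equiv.prodCongr (aι p.1) p.2
  map_one' := by ext ⟨i, b⟩ <;> simp
  map_mul' p q := by ext ⟨i, b⟩ <;> simp

omit [Fintype V] in
private theorem bipG_mem {B : Finset (V ⊕ Bool)} :
    B ∈ bip 𝓕 ↔ ∃ F ∈ 𝓕, ∃ b : Bool, B = F.disjSum {b} := by
  unfold bip
  rw [mem_image]
  constructor
  · rintro ⟨⟨F, b⟩, hF, rfl⟩
    exact ⟨F, (mem_product.1 hF).1, b, rfl⟩
  · rintro ⟨F, hF, b, rfl⟩
    exact ⟨(F, b), mem_product.2 ⟨hF, mem_univ _⟩, rfl⟩

private theorem bipG_inj {α β : Type} {s s' : Finset α} {t t' : Finset β}
    (h : s.disjSum t = s'.disjSum t') : s = s' ∧ t = t' := by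
  constructor
  · ext a
    have := congrArg (fun B => Sum.inl a ∈ B) h
    simpa only [inl_mem_disjSum, eq_iff_iff] using this
  · ext b
    have := congrArg (fun B => Sum.inr b ∈ B) h
    simpa only [inr_mem_disjSum, eq_iff_iff] using this

omit [Fintype V] in
private theorem bipG_image (act : G →* Equiv.Perm V) (p : G × Equiv.Perm Bool) (A : Finset V)
    (X : Finset Bool) :
    (A.disjSum X).image (actBip act p) = (A.image (act p.1)).disjSum (X.image p.2) := by
  ext (v | b)
  · rw [inl_mem_disjSum, mem_image, mem_image]
    constructor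
    · rintro ⟨a | b, ha, hab⟩
      · exact ⟨a, inl_mem_disjSum.1 ha, Sum.inl_injective hab⟩
      · exact absurd hab (by simp)
    · rintro ⟨a, ha, rfl⟩
      exact ⟨Sum.inl a, inl_mem_disjSum.2 ha, rfl⟩
  · rw [inr_mem_disjSum, mem_image, mem_image]
    constructor
    · rintro ⟨a | c, ha, hab⟩
      · exact absurd hab (by simp)
      · exact ⟨c, inr_mem_disjSum.1 ha, Sum.inr_injective hab⟩
    · rintro ⟨a, ha, rfl⟩
      exact ⟨Sum.inr a, inr_mem_disjSum.2 ha, rfl⟩

omit [Fintype V] in
private theorem bipG_core (κ : Fin 11 → V) (W : Finset V) (C : Finset (Fin 11)) :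
    C.image (fun i => (Sum.inl (κ i) : V ⊕ Bool)) ∪ W.disjSum {true}
      = (C.image κ ∪ W).disjSum {true} := by
  ext (v | b)
  · rw [inl_mem_disjSum, mem_union, mem_union, inl_mem_disjSum, mem_image, mem_image]
    simp
  · rw [inr_mem_disjSum, mem_union, inr_mem_disjSum, mem_image]
    simp

omit [Fintype V] [DecidableEq V] in
private theorem bipE_cast (e : ι → Fin D → V) (p : ι × Bool) (j : Fin D) :
    bipE e p j.castSucc = Sum.inl (e p.1 j) := by
  unfold bipE
  rw [Fin.snoc_castSucc]

omit [Fintype V] [DecidableEq V] in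
private theorem bipE_last (e : ι → Fin D → V) (p : ι × Bool) :
    bipE e p (Fin.last D) = Sum.inr p.2 := by
  unfold bipE
  rw [Fin.snoc_last]

omit [Fintype V] in
private theorem bipG_im (e : ι → Fin D → V) (p : ι × Bool) :
    im (bipE e p) = (im (e p.1)).disjSum {p.2} := by
  ext x
  unfold im
  rw [mem_image]
  constructor
  · rintro ⟨i, -, rfl⟩
    refine Fin.lastCases ?_ (fun j => ?_) i
    · rw [bipE_last]
      exact inr_mem_disjSum.2 (mem_singleton_self _)
    · rw [bipE_cast]
      exact inl_mem_disjSum.2 (mem_image_of_mem _ (mem_univ j))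
  · intro hx
    rcases x with v | b
    · obtain ⟨j, -, rfl⟩ := mem_image.1 (inl_mem_disjSum.1 hx)
      exact ⟨Fin.castSucc j, mem_univ _, bipE_cast e p j⟩
    · have h1 := mem_singleton.1 (inr_mem_disjSum.1 hx)
      subst h1
      exact ⟨Fin.last D, mem_univ _, bipE_last e p⟩

theorem goodP_bip (h : GoodP D 𝓕 act r κ W) :
    GoodP (D + 1) (bip 𝓕) (actBip act) (r, 1) (fun i => Sum.inl (κ i)) (W.disjSum {true}) := by
  have h4 := h.four
  exact
    { four := by omega
      cx := cplx_bip (by omega) h.cx
      inv := by
        intro g B hB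
        obtain ⟨F, hF, b, rfl⟩ := bipG_mem.1 hB
        rw [bipG_image]
        exact bipG_mem.2 ⟨_, h.inv g.1 F hF, g.2 b, by rw [image_singleton]⟩
      inj := by
        intro p q hpq
        refine Prod.ext ?_ ?_
        · apply h.inj
          ext v
          have := DFunLike.congr_fun hpq (Sum.inl v)
          exact Sum.inl_injective this
        · ext b
          have := DFunLike.congr_fun hpq (Sum.inr b)
          exact Sum.inr_injective this
      deg := by
        rintro (v | b)
        · rw [deg_bip_inl]
          have := h.deg v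
          omega
        · rw [deg_bip_inr]
          have := h.cF
          omega
      cF := by
        rw [card_bip]
        have := h.cF
        omega
      cW := by
        rw [card_disjSum, card_singleton]
        have := h.cW
        omega
      κinj := Sum.inl_injective.comp h.κinj
      κW := by
        intro i hi
        exact h.κW i (inl_mem_disjSum.1 hi)
      core := by
        intro C hC
        rw [bipG_core]
        exact bipG_mem.2 ⟨_, h.core C hC, true, rfl⟩
      core0 := by
        rw [bipG_core]
        exact isSx_bip h.core0 true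
      rκ := by
        intro i
        rw [actBip_inl]
        exact congrArg Sum.inl (h.rκ i)
      rW := by
        rintro (w | b) hw
        · rw [actBip_inl]
          exact congrArg Sum.inl (h.rW w (inl_mem_disjSum.1 hw))
        · rfl }

theorem hd_bip (h : Hd D μ 𝓕 act κ W e aι) (hμ : μ ≤ D) :
    Hd (D + 1) μ (bip 𝓕) (actBip act) (fun i => Sum.inl (κ i)) (W.disjSum {true})
      (bipE e) (actIB aι) := by
  exact
    { inj := by
        intro p i j hij
        revert hij
        refine Fin.lastCases ?_ (fun i' => ?_) i <;> refine Fin.lastCases ?_ (fun j' => ?_) j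
        · intro _
          rfl
        · intro hij
          rw [bipE_last, bipE_cast] at hij
          exact absurd hij (by simp)
        · intro hij
          rw [bipE_last, bipE_cast] at hij
          exact absurd hij (by simp)
        · intro hij
          rw [bipE_cast, bipE_cast] at hij
          rw [h.inj p.1 (Sum.inl_injective hij)]
      sx := by
        intro p
        rw [bipG_im]
        exact isSx_bip (h.sx p.1) p.2
      dist := by
        intro p q hpq
        rw [bipG_im, bipG_im] at hpq
        obtain ⟨h1, h2⟩ := bipG_inj hpq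
        exact Prod.ext (h.dist _ _ h1) (singleton_inj.1 h2)
      core := by
        intro p C hC hp
        rw [bipG_im, bipG_core] at hp
        exact h.core p.1 C hC (bipG_inj hp).1
      fact := by
        intro g p
        rw [bipG_im, bipG_im, bipG_image, image_singleton, h.fact g.1 p.1]
        rfl
      gact := by
        intro g p j
        refine Fin.lastCases ?_ (fun j' => ?_) j
        · intro _
          rw [bipE_last, bipE_last, actBip_inr]
          rfl
        · intro hj
          rw [bipE_cast, bipE_cast, actBip_inl, h.gact g.1 p.1 j' hj]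
          rfl }

omit [Fintype V] [DecidableEq V] in
theorem hfull_bip (h : HFull μ act e aι) (hμ : μ ≤ D) :
    HFull μ (actBip act) (bipE e) (actIB aι) := by
  rintro ⟨i, b⟩ ⟨i', b'⟩ σ hσ
  have hlast : σ (Fin.last D) = Fin.last D := hσ _ (by simpa using hμ)
  have hne : ∀ j : Fin D, σ j.castSucc ≠ Fin.last D := by
    intro j hj
    rw [← hlast] at hj
    exact (Fin.castSucc_lt_last j).ne (σ.injective hj)
  have hinj : Function.Injective (fun j : Fin D => (σ j.castSucc).castPred (hne j)) := by
    intro j j' hjj
    have h1 : σ j.castSucc = σ j'.castSucc := Fin.castPred_inj.1 hjj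
    exact Fin.castSucc_injective _ (σ.injective h1)
  set τ : Equiv.Perm (Fin D) := Equiv.ofBijective _ (Finite.injective_iff_bijective.1 hinj) with hτ
  have hτj : ∀ j : Fin D, σ j.castSucc = (τ j).castSucc := by
    intro j
    rw [hτ, Equiv.ofBijective_apply, Fin.castSucc_castPred]
  obtain ⟨g, hg1, hg2⟩ := h i i' τ (by
    intro j hj
    have h1 := hσ j.castSucc hj
    rw [hτj] at h1
    exact Fin.castSucc_injective _ h1)
  refine ⟨(g, Equiv.swap b b'), ?_, ?_⟩
  · refine Prod.ext hg1 ?_
    exact Equiv.swap_apply_left b b'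
  · intro j
    refine Fin.lastCases ?_ (fun j' => ?_) j
    · rw [hlast, bipE_last, bipE_last, actBip_inr]
      exact congrArg Sum.inr (Equiv.swap_apply_left b b')
    · rw [hτj, bipE_cast, bipE_cast, actBip_inl]
      exact congrArg Sum.inl (hg2 j')

end H63.KN
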