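import Pool.Agent.H47.KO.Acts
import Pool.Agent.H47.KO.GlueCx
import Pool.Agent.H47.KO.SimpG

/-! # KN.Defs : good systems, handles, gadgets of type `μ` (no sorry)

Paper: `/team-store/h63_koneg_paper.md`. Everything at the raw level (`glue`, `pyr`, `bip`, ...) is in `Pool/Agent/H47/KO`. -/

namespace H63.KN

open Finset H47.KO

/-- a complex with a group action and the core (`H47.KO.Good` without the order of the group) -/
structure GoodP (D : ℕ) {V G : Type} [Fintype V] [DecidableEq V] [Group G]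
    (𝓕 : Finset (Finset V)) (act : G →* Equiv.Perm V) (r : G) (κ : Fin 11 → V) (W : Finset V) :
    Prop where
  four : 4 ≤ D
  cx : Cplx D 𝓕
  inv : ∀ g, ∀ F ∈ 𝓕, F.image (act g) ∈ 𝓕
  inj : Function.Injective act
  deg : ∀ v, D ≤ deg 𝓕 v
  cF : D + 2 ≤ 𝓕.card
  cW : W.card + 4 = D
  κinj : Function.Injective κ
  κW : ∀ i, κ i ∉ W
  core : ∀ C ∈ coreF, C.image κ ∪ W ∈ 𝓕
  core0 : IsSx D 𝓕 (({0, 1, 3, 6} : Finset (Fin 11)).image κ ∪ W)
  rκ : ∀ i, act r (κ i) = κ (rho0 i)
  rW : ∀ w ∈ W, act r w = w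

/-- a handle of type `μ`: a family of simplex facets `im (e i)`, permuted by the group, whose vertices
at the positions `≥ μ` are moved equivariantly -/
structure Hd (D μ : ℕ) {V G ι : Type} [Fintype V] [DecidableEq V] [Group G]
    (𝓕 : Finset (Finset V)) (act : G →* Equiv.Perm V) (κ : Fin 11 → V) (W : Finset V)
    (e : ι → Fin D → V) (aι : G →* Equiv.Perm ι) : Prop where
  inj : ∀ i, Function.Injective (e i)
  sx : ∀ i, IsSx D 𝓕 (im (e i))
  dist : ∀ i j, im (e i) = im (e j) → i = j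
  core : ∀ i, ∀ C ∈ coreF, im (e i) ≠ C.image κ ∪ W
  fact : ∀ g i, (im (e i)).image (act g) = im (e (aι g i))
  gact : ∀ g i (j : Fin D), μ ≤ j.val → act g (e i j) = e (aι g i) j

/-- the handle is full: every permutation of the first `μ` positions between any two of its facets is
induced by the group -/
def HFull {D : ℕ} (μ : ℕ) {V G ι : Type} [Group G] (act : G →* Equiv.Perm V)
    (e : ι → Fin D → V) (aι : G →* Equiv.Perm ι) : Prop :=
  ∀ i i' (σ : Equiv.Perm (Fin D)), (∀ j : Fin D, μ ≤ j.val → σ j = j) →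
    ∃ g, aι g i = i' ∧ ∀ j, act g (e i j) = e i' (σ j)

/-- good systems of dimension `D` with `k * |G|` flags, a full handle of type `μ`, and no
super-simple vertex -/
def PreP (D μ k : ℕ) : Prop :=
  ∃ (V G ι : Type) (_ : Fintype V) (_ : DecidableEq V) (_ : Group G) (_ : Fintype G)
    (_ : Fintype ι) (_ : DecidableEq ι) (_ : Nonempty ι)
    (𝓕 : Finset (Finset V)) (act : G →* Equiv.Perm V) (r : G)
    (κ : Fin 11 → V) (W : Finset V) (e : ι → Fin D → V) (aι : G →* Equiv.Perm ι),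
    μ ≤ D ∧ GoodP D 𝓕 act r κ W ∧ Hd D μ 𝓕 act κ W e aι ∧ HFull μ act e aι ∧
      Fintype.card ι * μ.factorial = Fintype.card G ∧ (∀ v, ¬ SS D 𝓕 v) ∧
      fl (CLat 𝓕) = Fintype.card G * k

/-- the same with a second handle, of type `μ - 1` -/
def PreQ (D μ k : ℕ) : Prop :=
  ∃ (V G ι ι' : Type) (_ : Fintype V) (_ : DecidableEq V) (_ : Group G) (_ : Fintype G)
    (_ : Fintype ι) (_ : DecidableEq ι) (_ : Nonempty ι) (_ : Fintype ι') (_ : DecidableEq ι')
    (𝓕 : Finset (Finset V)) (act : G →* Equiv.Perm V) (r : G)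
    (κ : Fin 11 → V) (W : Finset V) (e : ι → Fin D → V) (aι : G →* Equiv.Perm ι)
    (e' : ι' → Fin D → V) (aι' : G →* Equiv.Perm ι'),
    1 ≤ μ ∧ μ ≤ D ∧ GoodP D 𝓕 act r κ W ∧ Hd D μ 𝓕 act κ W e aι ∧ HFull μ act e aι ∧
      Fintype.card ι * μ.factorial = Fintype.card G ∧
      Hd D (μ - 1) 𝓕 act κ W e' aι' ∧ Fintype.card ι' * (μ - 1).factorial = Fintype.card G ∧
      (∀ i i', im (e i) ≠ im (e' i')) ∧ (∀ v, ¬ SS D 𝓕 v) ∧ fl (CLat 𝓕) = Fintype.card G * k

/-- every automorphism comes from the group, `k` flag orbits -/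
def ExactP (D k : ℕ) : Prop :=
  ∃ (V G : Type) (_ : Fintype V) (_ : DecidableEq V) (_ : Group G) (_ : Fintype G)
    (𝓕 : Finset (Finset V)) (act : G →* Equiv.Perm V) (r : G) (κ : Fin 11 → V) (W : Finset V),
    GoodP D 𝓕 act r κ W ∧ Exact 𝓕 act ∧ fl (CLat 𝓕) = Fintype.card G * k

/-- the positions `< μ` except `a` -/
def low (D μ : ℕ) (a : Fin D) : Finset (Fin D) := (univ.filter fun j : Fin D => j.val < μ).erase a

/-- gadgets of type `μ` on any vertex set: `e0` enumerates the facet to be glued, `e1` the facet which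
becomes the new handle, both with the same first `μ` vertices, `low + R` are the facets of the
handle of type `μ - 1` -/
structure IsGadM (D μ f : ℕ) {U : Type} [Fintype U] [DecidableEq U] (𝓖 : Finset (Finset U))
    (e0 e1 : Fin D → U) (R : Finset U) : Prop where
  cx : Cplx D 𝓖
  i0 : Function.Injective e0
  i1 : Function.Injective e1
  s0 : IsSx D 𝓖 (im e0)
  s1 : IsSx D 𝓖 (im e1)
  ne : im e1 ≠ im e0
  low : ∀ j : Fin D, j.val < μ → e1 j = e0 j
  sym : ∀ σ : Equiv.Perm U, (∀ u, (∀ j : Fin D, j.val < μ → e0 j ≠ u) → σ u = u) →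
    ∀ A ∈ 𝓖, A.image σ ∈ 𝓖
  Rcard : R.card + μ = D + 1
  Rlow : ∀ j : Fin D, j.val < μ → e0 j ∉ R
  Rout : ∃ u ∈ R, ∀ j, e0 j ≠ u
  s2 : ∀ a : Fin D, a.val < μ → IsSx D 𝓖 ((KN.low D μ a).image e0 ∪ R)
  deg : ∀ v, D ≤ deg 𝓖 v
  cU : D + 2 ≤ Fintype.card U
  cF : D + 2 ≤ 𝓖.card
  fl : fl (CLat 𝓖) = f

/-- weak gadgets of type `μ` -/
def GadMW (D μ f : ℕ) : Prop :=
  ∃ (U : Type) (_ : Fintype U) (_ : DecidableEq U) (𝓖 : Finset (Finset U)) (e0 e1 : Fin D → U)
    (R : Finset U), IsGadM D μ f 𝓖 e0 e1 R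

/-- gadgets without super-simple vertices -/
def GadMS (D μ f : ℕ) : Prop :=
  ∃ (U : Type) (_ : Fintype U) (_ : DecidableEq U) (𝓖 : Finset (Finset U)) (e0 e1 : Fin D → U)
    (R : Finset U), IsGadM D μ f 𝓖 e0 e1 R ∧ ∀ v, ¬ SS D 𝓖 v

/-- the same in the normal form used by `glue` -/
def GadMN (D μ f : ℕ) : Prop :=
  ∃ (W : Type) (_ : Fintype W) (_ : DecidableEq W) (𝓖 : Finset (Finset (Fin D ⊕ W)))
    (e1 : Fin D → Fin D ⊕ W) (R : Finset (Fin D ⊕ W)),
    IsGadM D μ f 𝓖 (Sum.inl : Fin D → Fin D ⊕ W) e1 R ∧ ∀ v, ¬ SS D 𝓖 v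

/-- symmetry of a gadget in normal form under the permutations of the first `μ` positions -/
def SymM {D : ℕ} (μ : ℕ) {W : Type} [DecidableEq W] (𝓖 : Finset (Finset (Fin D ⊕ W))) : Prop :=
  ∀ σ : Equiv.Perm (Fin D), (∀ j : Fin D, μ ≤ j.val → σ j = j) → ∀ A ∈ 𝓖,
    A.image (Sum.map σ (id : W → W)) ∈ 𝓖

/-! ## the join with a simplex -/

section
variable {V : Type} [Fintype V] [DecidableEq V]

/-- the join with a simplex on `m` new vertices -/
def joinF (𝓕 : Finset (Finset V)) (m : ℕ) : Finset (Finset (V ⊕ Fin m)) :=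
  𝓕.image (fun F => F.disjSum univ) ∪ univ.image (fun j => univ.disjSum (univ.erase j))

/-- the bijection used to see `joinF 𝓕 (m + 1)` as a pyramid -/
def joinEquiv (V : Type) (m : ℕ) : (V ⊕ Fin m) ⊕ Unit ≃ V ⊕ Fin (m + 1) where
  toFun x := match x with
    | Sum.inl (Sum.inl v) => Sum.inl v
    | Sum.inl (Sum.inr j) => Sum.inr j.castSucc
    | Sum.inr _ => Sum.inr (Fin.last m)
  invFun x := match x with
    | Sum.inl v => Sum.inl (Sum.inl v)
    | Sum.inr j => if h : j.val < m then Sum.inl (Sum.inr ⟨j.val, h⟩) else Sum.inr ()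
  left_inv x := by rcases x with (v | j) | u <;> simp
  right_inv x := by
    rcases x with v | j
    · rfl
    · by_cases h : j.val < m
      · simp [h, Fin.ext_iff]
      · have : j = Fin.last m := Fin.ext (by have := j.isLt; simp; omega)
        subst this
        simp

/-- the action on the join: the group times the permutations of the new vertices -/
def actJoin {G : Type} [Group G] (act : G →* Equiv.Perm V) (m : ℕ) :
    G × Equiv.Perm (Fin m) →* Equiv.Perm (V ⊕ Fin m) :=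
  (Equiv.Perm.sumCongrHom V (Fin m)).comp (act.prodMap (MonoidHom.id _))

end

/-! ## the numbers -/

/-- the product of the factors of the letters of a word, starting in dimension `s`:
pyramid `s + 2`, bipyramid `2 (s + 1)` -/
def yprod : ℕ → List Bool → ℕ
  | _, [] => 1
  | s, b :: w => (if b then 2 * (s + 1) else s + 2) * yprod (s + 1) w

/-- the number of flags of the word gadget of type `μ` -/
def wfl (μ : ℕ) (w : List Bool) : ℕ := (μ + 1).factorial * (2 * (μ + 1)) * yprod (μ + 1) w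

/-- its contribution to the number of orbits (`D = μ + 1 + w.length`) -/
def con (μ : ℕ) (w : List Bool) : ℕ :=
  2 * (μ + 1) ^ 2 * yprod (μ + 1) w - 2 * (μ + 1 + w.length).factorial / μ.factorial

end H63.KN
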