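import Pool.Agent.H63.KN.SymN

/-! # KN.EqH : gluing at a handle is allowed and equivariant

`glueOK_hd`: the fields of `GlueOK` from `GoodP` (`four`, `cx`) and `Hd`. `eqGlue_hd`: `exists_sigma` with `f = act g`, `e i`, `e (aι g i)` (`fact`, `gact`); `SymM`; `(1 : G →* Equiv.Perm W) g = 1`, `Sum.map σ id`. -/

namespace H63.KN

open Finset H47.KO

variable {V G ι : Type} [Fintype V] [DecidableEq V] [Group G] [Fintype ι] [DecidableEq ι] {D μ : ℕ}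
  {𝓕 : Finset (Finset V)} {act : G →* Equiv.Perm V} {r : G} {κ : Fin 11 → V} {W₀ : Finset V}
  {e : ι → Fin D → V} {aι : G →* Equiv.Perm ι}
  {W : Type} [Fintype W] [DecidableEq W] {𝓖 : Finset (Finset (Fin D ⊕ W))}

theorem glueOK_hd (h : GoodP D 𝓕 act r κ W₀) (hh : Hd D μ 𝓕 act κ W₀ e aι) (hG : Cplx D 𝓖)
    (h0 : IsSx D 𝓖 (im (Sum.inl : Fin D → Fin D ⊕ W))) : GlueOK D 𝓕 𝓖 e :=
  ⟨by have := h.four; omega, h.cx, hG, hh.sx, hh.inj, hh.dist, h0⟩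

omit [Fintype ι] [DecidableEq ι] in
theorem eqGlue_hd (hh : Hd D μ 𝓕 act κ W₀ e aι) (hs : SymM μ 𝓖) :
    EqGlue act 𝓖 e aι (1 : G →* Equiv.Perm W) := by
  intro g i
  obtain ⟨σ, h1, h2⟩ := exists_sigma μ (e i) (e (aι g i)) (hh.inj i) (hh.inj (aι g i)) (act g)
    (hh.fact g i) (hh.gact g i)
  exact ⟨σ, h2, fun A hA => hs σ h1 A hA⟩

end H63.KN
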