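import Pool.Agent.H63.KN.Defs
import Pool.Agent.H47.KO.BipCx
import Pool.Agent.H47.KO.BipCl

/-! # KN.GadBi : the bipyramid over a gadget of type `μ`

As `GadPy` with `bip 𝓖` on `U ⊕ Bool`, `e0' = Fin.snoc (inl ∘ e0) (inr true)`, `e1'` the same with `inr true`, `R' = R.disjSum {true}`; `isSx_bip`, `cplx_bip`, `deg_bip_inl` (`2 * D ≥ D + 1`), `deg_bip_inr`, `card_bip`, `fl_bip`, `ss_bip`, `mem_bip`. -/

namespace H63.KN

open Finset H47.KO

/-- extended enumeration -/
private def GadBi_sn {D : ℕ} {U : Type} (e : Fin D → U) : Fin (D + 1) → U ⊕ Bool :=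
  Fin.snoc (α := fun _ => U ⊕ Bool) (fun j => Sum.inl (e j)) (Sum.inr true)

private theorem GadBi_last {D : ℕ} {U : Type} (e : Fin D → U) :
    GadBi_sn e (Fin.last D) = Sum.inr true := by
  unfold GadBi_sn
  rw [Fin.snoc_last]

private theorem GadBi_cast {D : ℕ} {U : Type} (e : Fin D → U) (j : Fin D) :
    GadBi_sn e j.castSucc = Sum.inl (e j) := by
  unfold GadBi_sn
  rw [Fin.snoc_castSucc]

private theorem GadBi_inj {D : ℕ} {U : Type} (e : Fin D → U)
    (he : Function.Injective e) : Function.Injective (GadBi_sn e) := by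
  intro i j
  refine Fin.lastCases ?_ (fun i => ?_) i
  · refine Fin.lastCases ?_ (fun j => ?_) j
    · intro _
      rfl
    · rw [GadBi_last, GadBi_cast]
      intro h
      exact absurd h (by simp)
  · refine Fin.lastCases ?_ (fun j => ?_) j
    · rw [GadBi_last, GadBi_cast]
      intro h
      exact absurd h (by simp)
    · rw [GadBi_cast, GadBi_cast]
      intro h
      rw [he (Sum.inl.inj h)]

private theorem GadBi_im {D : ℕ} {U : Type} [DecidableEq U] (e : Fin D → U) :
    im (GadBi_sn e) = (im e).disjSum {true} := by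
  ext y
  unfold im
  rw [mem_image]
  rcases y with u | z
  · rw [inl_mem_disjSum, mem_image]
    constructor
    · rintro ⟨i, -, hi⟩
      revert hi
      refine Fin.lastCases ?_ (fun i => ?_) i
      · rw [GadBi_last]
        intro h
        exact absurd h (by simp)
      · rw [GadBi_cast]
        intro h
        exact ⟨i, mem_univ _, Sum.inl.inj h⟩
    · rintro ⟨i, -, rfl⟩
      exact ⟨i.castSucc, mem_univ _, GadBi_cast e i⟩
  · rw [inr_mem_disjSum, mem_singleton]
    constructor
    · rintro ⟨i, -, hi⟩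
      revert hi
      refine Fin.lastCases ?_ (fun i => ?_) i
      · rw [GadBi_last]
        intro h
        exact (Sum.inr.inj h).symm
      · rw [GadBi_cast]
        intro h
        exact absurd h (by simp)
    · rintro rfl
      exact ⟨Fin.last D, mem_univ _, GadBi_last e⟩

private theorem GadBi_ne {U : Type} [DecidableEq U] {A B : Finset U}
    {C : Finset Bool} (h : A ≠ B) : A.disjSum C ≠ B.disjSum C := by
  intro hcon
  apply h
  ext u
  rw [← inl_mem_disjSum (t := C), hcon, inl_mem_disjSum]

private theorem GadBi_low {D μ : ℕ} {U : Type} [DecidableEq U] (e : Fin D → U) (hμ : μ ≤ D)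
    (a : Fin D) (R : Finset U) :
    (KN.low (D + 1) μ a.castSucc).image (GadBi_sn e) ∪ R.disjSum {true} =
      ((KN.low D μ a).image e ∪ R).disjSum {true} := by
  ext y
  rw [mem_union, mem_image]
  rcases y with u | z
  · rw [inl_mem_disjSum, inl_mem_disjSum, mem_union, mem_image]
    refine or_congr ?_ Iff.rfl
    constructor
    · rintro ⟨i, hi, h⟩
      revert hi h
      refine Fin.lastCases ?_ (fun i => ?_) i
      · rw [GadBi_last]
        intro _ h
        exact absurd h (by simp)
      · rw [GadBi_cast]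
        intro hi h
        refine ⟨i, ?_, Sum.inl.inj h⟩
        unfold KN.low at hi ⊢
        rw [mem_erase, mem_filter] at hi ⊢
        refine ⟨?_, mem_univ _, ?_⟩
        · intro hia
          exact hi.1 (by rw [hia])
        · exact hi.2.2
    · rintro ⟨i, hi, rfl⟩
      refine ⟨i.castSucc, ?_, GadBi_cast e i⟩
      unfold KN.low at hi ⊢
      rw [mem_erase, mem_filter] at hi ⊢
      refine ⟨?_, mem_univ _, ?_⟩
      · intro hia
        exact hi.1 (Fin.castSucc_injective D hia)
      · exact hi.2.2
  · rw [inr_mem_disjSum, inr_mem_disjSum, mem_singleton]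
    constructor
    · rintro (⟨i, hi, h⟩ | h)
      · revert hi h
        refine Fin.lastCases ?_ (fun i => ?_) i
        · intro hi _
          unfold KN.low at hi
          rw [mem_erase, mem_filter] at hi
          exfalso
          have h3 := hi.2.2
          rw [Fin.val_last] at h3
          omega
        · rw [GadBi_cast]
          intro _ h
          exact absurd h (by simp)
      · exact h
    · intro h
      exact Or.inr h

private theorem GadBi_sym {D μ : ℕ} {U : Type} [Fintype U] [DecidableEq U]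
    {𝓖 : Finset (Finset U)} (e : Fin D → U) (hμ : μ ≤ D)
    (hsym : ∀ σ : Equiv.Perm U, (∀ u, (∀ j : Fin D, j.val < μ → e j ≠ u) → σ u = u) →
      ∀ A ∈ 𝓖, A.image σ ∈ 𝓖) (σ : Equiv.Perm (U ⊕ Bool))
    (hσ : ∀ u, (∀ j : Fin (D + 1), j.val < μ → GadBi_sn e j ≠ u) → σ u = u) :
    ∀ A ∈ bip 𝓖, A.image σ ∈ bip 𝓖 := by
  have hr : ∀ b : Bool, σ (Sum.inr b) = Sum.inr b := by
    intro b
    apply hσ
    intro j
    refine Fin.lastCases ?_ (fun j => ?_) j
    · intro h
      rw [Fin.val_last] at h
      omega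
    · intro _
      rw [GadBi_cast]
      simp
  have hl : ∀ u : U, ∃ u', σ (Sum.inl u) = Sum.inl u' := by
    intro u
    rcases h : σ (Sum.inl u) with u' | b
    · exact ⟨u', rfl⟩
    · exfalso
      rw [← hr b] at h
      exact absurd (σ.injective h) (by simp)
  choose f hf using hl
  have hinj : Function.Injective f := by
    intro u v huv
    have h1 : σ (Sum.inl u) = σ (Sum.inl v) := by rw [hf, hf, huv]
    exact Sum.inl.inj (σ.injective h1)
  let σ1 : Equiv.Perm U := Equiv.ofBijective f (Finite.injective_iff_bijective.1 hinj)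
  have h1 : ∀ u, σ1 u = f u := fun u => rfl
  intro A hA
  obtain ⟨F, hF, b, rfl⟩ := mem_bip.1 hA
  refine mem_bip.2 ⟨F.image σ1, hsym σ1 ?_ F hF, b, ?_⟩
  · intro u hu
    have h2 : σ (Sum.inl u) = Sum.inl u := by
      apply hσ
      intro j
      refine Fin.lastCases ?_ (fun j => ?_) j
      · intro _
        rw [GadBi_last]
        simp
      · intro hj
        rw [GadBi_cast]
        intro h
        exact hu j hj (Sum.inl.inj h)
    rw [hf] at h2
    rw [h1]
    exact Sum.inl.inj h2
  · ext y
    rw [mem_image]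
    constructor
    · rintro ⟨x, hx, rfl⟩
      rcases x with u | c
      · rw [hf, inl_mem_disjSum, mem_image]
        exact ⟨u, inl_mem_disjSum.1 hx, h1 u⟩
      · rw [hr, inr_mem_disjSum]
        exact inr_mem_disjSum.1 hx
    · intro hy
      rcases y with u | c
      · rw [inl_mem_disjSum, mem_image] at hy
        obtain ⟨u', hu', rfl⟩ := hy
        exact ⟨Sum.inl u', inl_mem_disjSum.2 hu', by rw [hf, h1]⟩
      · rw [inr_mem_disjSum] at hy
        exact ⟨Sum.inr c, inr_mem_disjSum.2 hy, hr c⟩

theorem gadM_bip {D μ f : ℕ} (hD : 2 ≤ D) (h : GadMW D μ f) :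
    GadMS (D + 1) μ (2 * (D + 1) * f) := by
  obtain ⟨U, i1, i2, 𝓖, e0, e1, R, hg⟩ := h
  have hD1 : 1 ≤ D := by omega
  have hcx : Cplx (D + 1) (bip 𝓖) := cplx_bip hD1 hg.cx
  have hμ : μ ≤ D := by
    obtain ⟨u, hu, -⟩ := hg.Rout
    have h1 : 0 < R.card := card_pos.2 ⟨u, hu⟩
    have := hg.Rcard
    omega
  refine ⟨U ⊕ Bool, inferInstance, inferInstance, bip 𝓖, GadBi_sn e0, GadBi_sn e1,
    R.disjSum {true}, ?_, fun v => ss_bip hD hg.deg hg.cF v⟩
  constructor
  · exact hcx
  · exact GadBi_inj e0 hg.i0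
  · exact GadBi_inj e1 hg.i1
  · rw [GadBi_im]
    exact isSx_bip hg.s0 true
  · rw [GadBi_im]
    exact isSx_bip hg.s1 true
  · rw [GadBi_im, GadBi_im]
    exact GadBi_ne hg.ne
  · intro j
    refine Fin.lastCases ?_ (fun j => ?_) j
    · intro _
      rw [GadBi_last, GadBi_last]
    · intro hj
      rw [GadBi_cast, GadBi_cast, hg.low j hj]
  · exact fun σ hσ => GadBi_sym e0 hμ hg.sym σ hσ
  · rw [card_disjSum, card_singleton]
    have := hg.Rcard
    omega
  · intro j
    refine Fin.lastCases ?_ (fun j => ?_) j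
    · intro h
      rw [Fin.val_last] at h
      omega
    · intro hj
      rw [GadBi_cast, inl_mem_disjSum]
      exact hg.Rlow j hj
  · obtain ⟨u, hu, hu'⟩ := hg.Rout
    refine ⟨Sum.inl u, inl_mem_disjSum.2 hu, ?_⟩
    intro j
    refine Fin.lastCases ?_ (fun j => ?_) j
    · rw [GadBi_last]
      simp
    · rw [GadBi_cast]
      intro h
      exact hu' j (Sum.inl.inj h)
  · intro a
    refine Fin.lastCases ?_ (fun a => ?_) a
    · intro h
      rw [Fin.val_last] at h
      omega
    · intro ha
      rw [GadBi_low e0 hμ]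
      exact isSx_bip (hg.s2 a ha) true
  · rintro (v | b)
    · rw [deg_bip_inl]
      have := hg.deg v
      omega
    · rw [deg_bip_inr]
      have := hg.cF
      omega
  · rw [Fintype.card_sum, Fintype.card_bool]
    have := hg.cU
    omega
  · rw [card_bip]
    have := hg.cF
    omega
  · rw [fl_bip hD1 hg.cx hcx, hg.fl]

end H63.KN
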