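import Pool.Agent.H63.KN.Defs
import Pool.Agent.H47.KO.Ren

/-! # KN.GadNf : gadgets of type `μ` in normal form (as `H47.KO.gadN_of_gadS`)

`W = {u : U // ∀ j, e0 j ≠ u}`, `f : U ≃ Fin D ⊕ W` with `f (e0 j) = inl j`, `f u = inr u` otherwise. The gadget is `ren f 𝓖`, `f ∘ e0 = inl`, `f ∘ e1`, `R.image f`. Everything is transported by the lemmas of `Ren`; `im (f ∘ e) = (im e).image f`.
`sym`: for a permutation `σ` of `Fin D ⊕ W`, `f.trans (σ.trans f.symm)` is a permutation of `U` with the property of the field `sym`; `mem_ren`. -/

namespace H63.KN

open Finset H47.KO

theorem gadMN_of_gadMS {D μ f : ℕ} (h : GadMS D μ f) : GadMN D μ f := by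
  classical
  obtain ⟨U, hU1, hU2, 𝓖, e0, e1, R, hG, hSS⟩ := h
  let W : Type := ↥(Set.range e0)ᶜ
  let φ : Fin D ⊕ W ≃ U := (Equiv.sumCongr (Equiv.ofInjective e0 hG.i0) (Equiv.refl W)).trans
    (Equiv.Set.sumCompl (Set.range e0))
  have hφ : ∀ j, φ (Sum.inl j) = e0 j := fun j => rfl
  let g : U ≃ Fin D ⊕ W := φ.symm
  have hg : ∀ j, g (e0 j) = Sum.inl j := by
    intro j
    rw [← hφ j]
    exact φ.symm_apply_apply _
  have him : ∀ e : Fin D → U, im (fun j => g (e j)) = (im e).image g := by
    intro e
    unfold im
    rw [Finset.image_image]
    rfl
  have him0 : im (Sum.inl : Fin D → Fin D ⊕ W) = (im e0).image g := by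
    rw [← him e0]
    congr 1
    funext j
    exact (hg j).symm
  have hmem : ∀ (A : Finset U) (u : U), g u ∈ A.image g → u ∈ A := by
    intro A u hu
    obtain ⟨v, hv, hvu⟩ := Finset.mem_image.1 hu
    rw [← g.injective hvu]
    exact hv
  refine ⟨W, inferInstance, inferInstance, ren g 𝓖, fun j => g (e1 j), R.image g, ?_, ?_⟩
  · exact
      { cx := (cplx_ren g).2 hG.cx
        i0 := Sum.inl_injective
        i1 := g.injective.comp hG.i1
        s0 := by
          rw [him0]
          exact (isSx_ren g).2 hG.s0
        s1 := by
          rw [him e1]
          exact (isSx_ren g).2 hG.s1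
        ne := by
          rw [him0, him e1]
          exact fun h => hG.ne (Finset.image_injective g.injective h)
        low := fun j hj => by
          rw [hG.low j hj]
          exact hg j
        sym := fun σ hσ A hA => by
          have h1 := hG.sym (g.trans (σ.trans g.symm)) (by
            intro u hu
            have h2 : σ (g u) = g u := by
              apply hσ
              intro j hj hju
              apply hu j hj
              apply g.injective
              rw [hg, hju]
            change g.symm (σ (g u)) = u
            rw [h2, g.symm_apply_apply]) _ ((mem_ren g).1 hA)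
          rw [mem_ren]
          rw [Finset.image_image] at h1 ⊢
          have h3 : ((g.trans (σ.trans g.symm) : Equiv.Perm U) : U → U) ∘ g.symm =
              g.symm ∘ σ := by
            funext x
            change g.symm (σ (g (g.symm x))) = g.symm (σ x)
            rw [g.apply_symm_apply]
          rw [h3] at h1
          exact h1
        Rcard := by
          rw [Finset.card_image_of_injective _ g.injective]
          exact hG.Rcard
        Rlow := fun j hj hmj => by
          apply hG.Rlow j hj
          apply hmem
          rw [hg]
          exact hmj
        Rout := by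
          obtain ⟨u, hu, hju⟩ := hG.Rout
          refine ⟨g u, Finset.mem_image_of_mem _ hu, fun j hj => hju j ?_⟩
          apply g.injective
          rw [hg, hj]
        s2 := fun a ha => by
          have h1 := (isSx_ren g).2 (hG.s2 a ha)
          rw [Finset.image_union, Finset.image_image] at h1
          have h2 : (g : U → Fin D ⊕ W) ∘ e0 = Sum.inl := by
            funext j
            exact hg j
          rw [h2] at h1
          exact h1
        deg := fun v => by
          have h1 := hG.deg (g.symm v)
          rw [← deg_ren g, Equiv.apply_symm_apply] at h1
          exact h1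
        cU := by
          rw [← Fintype.card_congr g]
          exact hG.cU
        cF := by
          rw [card_ren]
          exact hG.cF
        fl := by
          rw [fl_ren]
          exact hG.fl }
  · intro v hv
    apply hSS (g.symm v)
    rw [← ss_ren g, Equiv.apply_symm_apply]
    exact hv

end H63.KN
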