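import Pool.Agent.H63.KN.Defs
import Pool.Agent.H47.KO.PyrCx
import Pool.Agent.H47.KO.PyrCl

/-! # KN.GadPy : the pyramid over a gadget of type `μ`

`pyr 𝓖` on `U ⊕ Unit`, `e0' = Fin.snoc (inl ∘ e0) (inr ())`, `e1'` in the same way, `R' = R.disjSum univ`. `Rcard` and `R` nonempty (`Rout`) give `μ ≤ D`; so the positions `j.val < μ` of `Fin (D + 1)` are the `castSucc` of those of `Fin D`.
`im e0' = (im e0).disjSum univ`, `(low (D+1) μ a).image e0' ∪ R' = ((low D μ a').image e0 ∪ R).disjSum univ` (`a' = a` as an element of `Fin D`); `isSx_pyr`, `cplx_pyr`, `deg_pyr_inl`, `deg_pyr_inr`, `card_pyr`, `fl_pyr`, `ss_pyr`.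
`sym`: a permutation of `U ⊕ Unit` which is the identity outside the `inl (e0 j)`, `j < μ`, fixes `inr ()` and maps `inl`'s to `inl`'s: it is `sumCongr σ1 1` with `σ1` as in the field `sym` of the gadget (define `σ1` by `Equiv.ofBijective` or as the restriction); members of `pyr 𝓖`: `mem_pyr`. -/

namespace H63.KN

open Finset H47.KO

/-- extended enumeration -/
private def gpSn {D : ℕ} {U : Type} (e : Fin D → U) : Fin (D + 1) → U ⊕ Unit :=
  Fin.snoc (α := fun _ => U ⊕ Unit) (fun j => Sum.inl (e j)) (Sum.inr ())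

private theorem gp_last {D : ℕ} {U : Type} (e : Fin D → U) :
    gpSn e (Fin.last D) = Sum.inr () := by
  unfold gpSn
  rw [Fin.snoc_last]

private theorem gp_cast {D : ℕ} {U : Type} (e : Fin D → U) (j : Fin D) :
    gpSn e j.castSucc = Sum.inl (e j) := by
  unfold gpSn
  rw [Fin.snoc_castSucc]

private theorem gp_inj {D : ℕ} {U : Type} (e : Fin D → U)
    (he : Function.Injective e) : Function.Injective (gpSn e) := by
  intro i j
  refine Fin.lastCases ?_ (fun i => ?_) i
  · refine Fin.lastCases ?_ (fun j => ?_) j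
    · intro _
      rfl
    · rw [gp_last, gp_cast]
      intro h
      exact absurd h (by simp)
  · refine Fin.lastCases ?_ (fun j => ?_) j
    · rw [gp_last, gp_cast]
      intro h
      exact absurd h (by simp)
    · rw [gp_cast, gp_cast]
      intro h
      rw [he (Sum.inl.inj h)]

private theorem gp_im {D : ℕ} {U : Type} [DecidableEq U] (e : Fin D → U) :
    im (gpSn e) = (im e).disjSum univ := by
  ext y
  unfold im
  rw [mem_image]
  rcases y with u | z
  · rw [inl_mem_disjSum, mem_image]
    constructor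
    · rintro ⟨i, -, hi⟩
      revert hi
      refine Fin.lastCases ?_ (fun i => ?_) i
      · rw [gp_last]
        intro h
        exact absurd h (by simp)
      · rw [gp_cast]
        intro h
        exact ⟨i, mem_univ _, Sum.inl.inj h⟩
    · rintro ⟨i, -, rfl⟩
      exact ⟨i.castSucc, mem_univ _, gp_cast e i⟩
  · constructor
    · intro _
      exact inr_mem_disjSum.2 (mem_univ _)
    · intro _
      exact ⟨Fin.last D, mem_univ _, gp_last e⟩

private theorem gp_ne {U : Type} [DecidableEq U] {A B : Finset U}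
    {C : Finset Unit} (h : A ≠ B) : A.disjSum C ≠ B.disjSum C := by
  intro hcon
  apply h
  ext u
  rw [← inl_mem_disjSum (t := C), hcon, inl_mem_disjSum]

private theorem gp_low {D μ : ℕ} (hμ : μ ≤ D) (a : Fin D) {U : Type} [DecidableEq U]
    (e : Fin D → U) (R : Finset U) :
    (KN.low (D + 1) μ a.castSucc).image (gpSn e) ∪ R.disjSum univ =
      ((KN.low D μ a).image e ∪ R).disjSum univ := by
  ext y
  rcases y with u | z
  · rw [mem_union, inl_mem_disjSum, inl_mem_disjSum, mem_union, mem_image, mem_image]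
    refine or_congr ?_ Iff.rfl
    constructor
    · rintro ⟨j, hj, hj2⟩
      revert hj hj2
      refine Fin.lastCases ?_ (fun j => ?_) j
      · rw [gp_last]
        intro _ h
        exact absurd h (by simp)
      · rw [gp_cast]
        intro hj h
        refine ⟨j, ?_, Sum.inl.inj h⟩
        unfold KN.low at hj ⊢
        rw [mem_erase, mem_filter] at hj ⊢
        refine ⟨fun h => hj.1 (by rw [h]), mem_univ _, ?_⟩
        simpa using hj.2.2
    · rintro ⟨j, hj, rfl⟩
      refine ⟨j.castSucc, ?_, gp_cast e j⟩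
      unfold KN.low at hj ⊢
      rw [mem_erase, mem_filter] at hj ⊢
      refine ⟨fun h => hj.1 (Fin.castSucc_injective _ h), mem_univ _, ?_⟩
      simpa using hj.2.2
  · constructor
    · intro _
      exact inr_mem_disjSum.2 (mem_univ _)
    · intro _
      exact mem_union_right _ (inr_mem_disjSum.2 (mem_univ _))

private theorem gp_image {U : Type} [DecidableEq U] (σ : Equiv.Perm (U ⊕ Unit)) (f : U → U)
    (hf : ∀ u, σ (Sum.inl u) = Sum.inl (f u)) (h0 : σ (Sum.inr ()) = Sum.inr ())
    (F : Finset U) (X : Finset Unit) :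
    (F.disjSum X).image σ = (F.image f).disjSum X := by
  ext y
  rw [mem_image]
  constructor
  · rintro ⟨x, hx, rfl⟩
    rcases x with u | z
    · rw [hf]
      exact inl_mem_disjSum.2 (mem_image_of_mem _ (inl_mem_disjSum.1 hx))
    · rw [h0]
      exact inr_mem_disjSum.2 (inr_mem_disjSum.1 hx)
  · intro hy
    rcases y with v | z
    · obtain ⟨u, hu, rfl⟩ := mem_image.1 (inl_mem_disjSum.1 hy)
      exact ⟨Sum.inl u, inl_mem_disjSum.2 hu, hf u⟩
    · exact ⟨Sum.inr z, inr_mem_disjSum.2 (inr_mem_disjSum.1 hy), h0⟩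

theorem gadM_pyr {D μ f : ℕ} (hD : 2 ≤ D) (h : GadMW D μ f) :
    GadMS (D + 1) μ ((D + 2) * f) := by
  obtain ⟨U, i1, i2, 𝓖, e0, e1, R, hg⟩ := h
  have hD1 : 1 ≤ D := by omega
  have hμ : μ ≤ D := by
    obtain ⟨u, hu, -⟩ := hg.Rout
    have h1 : 0 < R.card := card_pos.2 ⟨u, hu⟩
    have h2 := hg.Rcard
    omega
  refine ⟨U ⊕ Unit, inferInstance, inferInstance, pyr 𝓖, gpSn e0, gpSn e1, R.disjSum univ, ?_,
    fun v => ss_pyr hD1 hg.cx hg.cU hg.cF v⟩
  -- small positions come from `Fin D`
  have hpos : ∀ (P : Fin (D + 1) → Prop), (∀ j : Fin D, j.val < μ → P j.castSucc) →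
      ∀ j : Fin (D + 1), j.val < μ → P j := by
    intro P hP j
    refine Fin.lastCases ?_ (fun j => ?_) j
    · intro h
      rw [Fin.val_last] at h
      omega
    · intro h
      exact hP j (by simpa using h)
  refine
    { cx := cplx_pyr hD1 hg.cx
      i0 := gp_inj e0 hg.i0
      i1 := gp_inj e1 hg.i1
      s0 := ?_
      s1 := ?_
      ne := ?_
      low := ?_
      sym := ?_
      Rcard := ?_
      Rlow := ?_
      Rout := ?_
      s2 := ?_
      deg := ?_
      cU := ?_
      cF := ?_
      fl := ?_ }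
  · rw [gp_im]
    exact isSx_pyr hg.s0
  · rw [gp_im]
    exact isSx_pyr hg.s1
  · rw [gp_im, gp_im]
    exact gp_ne hg.ne
  · refine hpos _ fun j hj => ?_
    rw [gp_cast, gp_cast, hg.low j hj]
  · intro σ hσ
    have h0 : σ (Sum.inr ()) = Sum.inr () := by
      refine hσ _ (hpos _ fun j hj => ?_)
      rw [gp_cast]
      exact fun h => by cases h
    have h1 : ∀ u, ∃ v, σ (Sum.inl u) = Sum.inl v := by
      intro u
      rcases h2 : σ (Sum.inl u) with v | z
      · exact ⟨v, rfl⟩
      · exfalso
        have h3 : σ (Sum.inl u) = σ (Sum.inr ()) := by rw [h2, h0]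
        have h4 := σ.injective h3
        cases h4
    choose g hgσ using h1
    have hinj : Function.Injective g := by
      intro u v huv
      have h3 : σ (Sum.inl u) = σ (Sum.inl v) := by rw [hgσ, hgσ, huv]
      exact Sum.inl_injective (σ.injective h3)
    have hbij : Function.Bijective g := Finite.injective_iff_bijective.mp hinj
    have hfix : ∀ u, (∀ j : Fin D, j.val < μ → e0 j ≠ u) → Equiv.ofBijective g hbij u = u := by
      intro u hu
      rw [Equiv.ofBijective_apply]
      have h3 := hσ (Sum.inl u) (hpos _ fun j hj => by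
        rw [gp_cast]
        exact fun h => hu j hj (Sum.inl_injective h))
      rw [hgσ] at h3
      exact Sum.inl_injective h3
    intro A hA
    rcases mem_pyr.1 hA with rfl | ⟨F, hF, rfl⟩
    · rw [gp_image σ g hgσ h0]
      refine mem_pyr.2 (Or.inl ?_)
      rw [image_univ_of_surjective hbij.2]
    · rw [gp_image σ g hgσ h0]
      exact mem_pyr.2 (Or.inr ⟨_, hg.sym (Equiv.ofBijective g hbij) hfix F hF, rfl⟩)
  · rw [card_disjSum]
    have := hg.Rcard
    simp only [card_univ, Fintype.card_unit]
    omega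
  · refine hpos _ fun j hj => ?_
    rw [gp_cast, inl_mem_disjSum]
    exact hg.Rlow j hj
  · obtain ⟨u, hu, hu2⟩ := hg.Rout
    refine ⟨Sum.inl u, inl_mem_disjSum.2 hu, fun j => ?_⟩
    refine Fin.lastCases ?_ (fun j => ?_) j
    · rw [gp_last]
      exact fun h => by cases h
    · rw [gp_cast]
      exact fun h => hu2 j (Sum.inl_injective h)
  · refine hpos _ fun a ha => ?_
    rw [gp_low hμ]
    exact isSx_pyr (hg.s2 a ha)
  · rintro (v | u)
    · rw [deg_pyr_inl hD1 hg.cx]
      have := hg.deg v
      omega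
    · rw [deg_pyr_inr hD1 hg.cx]
      have := hg.cF
      omega
  · rw [Fintype.card_sum, Fintype.card_unit]
    have := hg.cU
    omega
  · rw [card_pyr hD1 hg.cx]
    have := hg.cF
    omega
  · rw [fl_pyr hD1 hg.cx, hg.fl]

end H63.KN
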