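import Pool.Agent.H63.KN.GadStart
import Pool.Agent.H63.KN.GadPy
import Pool.Agent.H63.KN.GadBi
import Pool.Agent.H63.KN.GadNf

/-! # KN.GadWord : the word gadgets (paper C; glue)

`gad_run`: induction on the word `w` (the letters are applied from the first on, the dimension is `s`): from `GadMW s μ f` (`2 ≤ s`) one gets `GadMS (s + w.length) μ (yprod s w * f)` for a nonempty word. -/

namespace H63.KN

open Finset H47.KO

theorem gad_weak {D μ f : ℕ} (h : GadMS D μ f) : GadMW D μ f := by
  obtain ⟨U, _, _, 𝓖, e0, e1, R, h, -⟩ := h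
  exact ⟨U, inferInstance, inferInstance, 𝓖, e0, e1, R, h⟩

theorem gad_run (μ : ℕ) : ∀ (w : List Bool) (s f : ℕ), 2 ≤ s → w ≠ [] → GadMW s μ f →
    GadMS (s + w.length) μ (yprod s w * f) := by
  intro w
  induction w with
  | nil => intro s f _ h; exact absurd rfl h
  | cons b w ih =>
    intro s f hs _ h
    have h1 : GadMS (s + 1) μ ((if b then 2 * (s + 1) else s + 2) * f) := by
      cases b
      · exact gadM_pyr hs h
      · exact gadM_bip hs h
    rcases eq_or_ne w [] with rfl | hw
    · have e1 : yprod s [b] * f = (if b then 2 * (s + 1) else s + 2) * f := by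
        simp [yprod]
      rw [e1]
      exact h1
    · have h2 := ih (s + 1) _ (by omega) hw (gad_weak h1)
      have e1 : s + 1 + w.length = s + (b :: w).length := by
        rw [List.length_cons]; ring
      have e2 : yprod (s + 1) w * ((if b then 2 * (s + 1) else s + 2) * f) =
          yprod s (b :: w) * f := by
        rw [show yprod s (b :: w) = (if b then 2 * (s + 1) else s + 2) * yprod (s + 1) w from rfl]
        ring
      rw [e1, e2] at h2
      exact h2

/-- the word gadgets -/
theorem gad_word (μ : ℕ) (h1 : 1 ≤ μ) (w : List Bool) (hw : w ≠ []) :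
    GadMN (μ + 1 + w.length) μ (wfl μ w) := by
  have h := gad_run μ w (μ + 1) _ (by omega) hw (gadMW_start h1)
  have e1 : yprod (μ + 1) w * ((μ + 1).factorial * (2 * (μ + 1))) = wfl μ w := by
    unfold wfl; ring
  rw [e1] at h
  exact gadMN_of_gadMS h

end H63.KN
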