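import Pool.Agent.H63.KN.NumB

/-! # KN.NumC : the contributions of the types `μ` and `μ - 1` together (paper E3)

`conSet D μ`. `conSet_closure`: `n = D - μ - 1 ≥ 2`. `con_closure μ n` (closure is monotone). `μ = 1`: `2^n * 4 = 2^(D - μ + 1)`. `μ ≥ 2`: also `con_closure (μ - 1) (n + 1)`: `2^(n+1) * μ^2`. So `2^(n+1) * (μ+1)^2` and `2^(n+1) * μ^2` are in, and `(μ+1)^2`, `μ^2` are coprime:
`IsCoprime` gives `2^(n+1)`, and `2^(D-μ+1) = 2 * 2^(n+1)`. -/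

namespace H63.KN

/-- all contributions used in dimension `D` for the type `μ` (and `μ - 1`) -/
def conSet (D μ : ℕ) : Set ℕ :=
  {c | ∃ w : List Bool, μ + 1 + w.length = D ∧ c = con μ w} ∪
    {c | 2 ≤ μ ∧ ∃ w : List Bool, μ + w.length = D ∧ c = con (μ - 1) w}

theorem conSet_closure (D μ : ℕ) (h1 : 1 ≤ μ) (hD : μ + 3 ≤ D) :
    (2 : ℤ) ^ (D - μ + 1) ∈ AddSubgroup.closure ((fun c : ℕ => (c : ℤ)) '' conSet D μ) := by
  obtain ⟨n, rfl⟩ : ∃ n, D = μ + 1 + n := ⟨D - μ - 1, by omega⟩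
  have hn : 2 ≤ n := by omega
  have hexp : μ + 1 + n - μ + 1 = n + 2 := by omega
  rw [hexp]
  set A := AddSubgroup.closure ((fun c : ℕ => (c : ℤ)) '' conSet (μ + 1 + n) μ) with hA
  have ha : (2 : ℤ) ^ n * ((μ : ℤ) + 1) ^ 2 ∈ A := by
    refine AddSubgroup.closure_mono (Set.image_mono ?_) (con_closure μ n hn)
    rintro c ⟨w, hw, rfl⟩
    exact Or.inl ⟨w, by omega, rfl⟩
  rcases Nat.lt_or_ge μ 2 with hμ | hμ
  · obtain rfl : μ = 1 := by omega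
    have h2 : (2 : ℤ) ^ (n + 2) = 2 ^ n * (((1 : ℕ) : ℤ) + 1) ^ 2 := by
      rw [pow_add]; norm_num
    rw [h2]
    exact ha
  · have hb : (2 : ℤ) ^ (n + 1) * (μ : ℤ) ^ 2 ∈ A := by
      have h3 := con_closure (μ - 1) (n + 1) (by omega)
      have h4 : (((μ - 1 : ℕ) : ℤ) + 1) = (μ : ℤ) := by
        have : μ - 1 + 1 = μ := by omega
        exact_mod_cast this
      rw [h4] at h3
      refine AddSubgroup.closure_mono (Set.image_mono ?_) h3
      rintro c ⟨w, hw, rfl⟩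
      exact Or.inr ⟨hμ, w, by omega, rfl⟩
    have hco : IsCoprime (((μ : ℤ) + 1) ^ 2) ((μ : ℤ) ^ 2) := by
      apply IsCoprime.pow
      exact ⟨1, -1, by ring⟩
    obtain ⟨a, b, hab⟩ := hco
    have h5 : (2 : ℤ) ^ (n + 2) = (4 * a) * (2 ^ n * ((μ : ℤ) + 1) ^ 2) +
        (2 * b) * (2 ^ (n + 1) * (μ : ℤ) ^ 2) := by
      calc (2 : ℤ) ^ (n + 2) = 2 ^ (n + 2) * (a * ((μ : ℤ) + 1) ^ 2 + b * (μ : ℤ) ^ 2) := by
            rw [hab, mul_one]
        _ = _ := by rw [pow_add, pow_succ]; ring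
    rw [h5]
    refine A.add_mem ?_ ?_
    · rw [← smul_eq_mul]
      exact A.zsmul_mem ha _
    · rw [← smul_eq_mul]
      exact A.zsmul_mem hb _

end H63.KN
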