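import Mathlib

/-! # KN.NumD : effective numerical semigroups (paper E4)

`g = ∑ s ∈ S, z s * s` with integers `z s` (closure of a finite set: `AddSubgroup.closure_induction` or `Submodule.mem_span_finset` over `ℤ`). If `g = 0` trivial. Otherwise `S` is nonempty; fix `t ∈ S`. For `s ∈ S.erase t` put `x s = (m * z s) % t` (`0 ≤ x s < t ≤ B`), so
`g * m - ∑ s ∈ S.erase t, x s * s` is divisible by `t` and `≥ g m - S.card * B * B ≥ 0`: `= x t * t` with `x t ≥ 0`. So `g * m = ∑ s ∈ S, x s * s` with natural numbers; induction over `S` and over the coefficients: `a + ∑ x s * s ∈ A`. -/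

namespace H63.KN

private theorem numD_mem {S : Finset ℕ} {g : ℤ}
    (hS : g ∈ AddSubgroup.closure ((fun n : ℕ => (n : ℤ)) '' (S : Set ℕ))) :
    ∃ z : ℕ → ℤ, g = ∑ s ∈ S, z s * (s : ℤ) := by
  classical
  induction hS using AddSubgroup.closure_induction with
  | mem x hx =>
    obtain ⟨n, hn, rfl⟩ := hx
    refine ⟨fun s => if s = n then 1 else 0, ?_⟩
    simp only [ite_mul, one_mul, zero_mul]
    rw [Finset.sum_ite_eq' S n]
    have : n ∈ S := hn
    simp [this]
  | zero => exact ⟨fun _ => 0, by simp⟩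
  | add x y _ _ hx hy =>
    obtain ⟨z1, h1⟩ := hx
    obtain ⟨z2, h2⟩ := hy
    refine ⟨fun s => z1 s + z2 s, ?_⟩
    rw [h1, h2, ← Finset.sum_add_distrib]
    apply Finset.sum_congr rfl
    intro s _
    ring
  | neg x _ hx =>
    obtain ⟨z1, h1⟩ := hx
    refine ⟨fun s => - z1 s, ?_⟩
    rw [h1, ← Finset.sum_neg_distrib]
    apply Finset.sum_congr rfl
    intro s _
    ring

private theorem numD_mul (A : Set ℕ) (s : ℕ) (hA : ∀ a ∈ A, a + s ∈ A) (a : ℕ) (ha : a ∈ A)
    (x : ℕ) : a + x * s ∈ A := by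
  induction x with
  | zero => simpa using ha
  | succ x ih =>
    have := hA _ ih
    have e : a + (x + 1) * s = a + x * s + s := by ring
    rw [e]
    exact this

private theorem numD_sum (A : Set ℕ) (S : Finset ℕ) (hA : ∀ a ∈ A, ∀ s ∈ S, a + s ∈ A)
    (x : ℕ → ℕ) : ∀ T : Finset ℕ, T ⊆ S → ∀ a ∈ A, a + ∑ s ∈ T, x s * s ∈ A := by
  classical
  intro T
  induction T using Finset.induction_on with
  | empty => intro _ a ha; simpa using ha
  | insert t T ht ih =>
    intro hT a ha
    rw [Finset.sum_insert ht]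
    have h1 : a + x t * t ∈ A :=
      numD_mul A t (fun b hb => hA b hb t (hT (Finset.mem_insert_self t T))) a ha (x t)
    have h2 := ih (fun s hs => hT (Finset.mem_insert_of_mem hs)) _ h1
    have e : a + (x t * t + ∑ s ∈ T, x s * s) = a + x t * t + ∑ s ∈ T, x s * s := by ring
    rw [e]
    exact h2

theorem sg_eff (A : Set ℕ) (S : Finset ℕ) (B g : ℕ)
    (hS : (g : ℤ) ∈ AddSubgroup.closure ((fun n : ℕ => (n : ℤ)) '' (S : Set ℕ)))
    (hB : ∀ s ∈ S, 1 ≤ s ∧ s ≤ B) (hA : ∀ a ∈ A, ∀ s ∈ S, a + s ∈ A) (a : ℕ) (ha : a ∈ A) (m : ℕ)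
    (hm : S.card * B * B ≤ g * m) : a + g * m ∈ A := by
  classical
  obtain ⟨z, hz⟩ := numD_mem hS
  rcases S.eq_empty_or_nonempty with hS0 | ⟨t, ht⟩
  · subst hS0
    have hg : g = 0 := by
      have : (g : ℤ) = 0 := by simpa using hz
      exact_mod_cast this
    subst hg
    simpa using ha
  have ht1 := hB t ht
  have htpos : (0 : ℤ) < t := by exact_mod_cast ht1.1
  -- the reduced coefficients
  let y : ℕ → ℤ := fun s => ((m : ℤ) * z s) % t
  have hy0 : ∀ s, 0 ≤ y s := fun s => Int.emod_nonneg _ htpos.ne'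
  have hyt : ∀ s, y s < t := fun s => Int.emod_lt_of_pos _ htpos
  have hsum : (g : ℤ) * m = (∑ s ∈ S.erase t, (m : ℤ) * z s * s) + (m : ℤ) * z t * t := by
    rw [hz, Finset.sum_mul, ← Finset.sum_erase_add S _ ht]
    congr 1
    · apply Finset.sum_congr rfl
      intro s _
      ring
    · ring
  have hdvd : (t : ℤ) ∣ (g : ℤ) * m - ∑ s ∈ S.erase t, y s * s := by
    rw [hsum]
    have e : (∑ s ∈ S.erase t, (m : ℤ) * z s * s) + (m : ℤ) * z t * t
        - ∑ s ∈ S.erase t, y s * s
        = (∑ s ∈ S.erase t, ((m : ℤ) * z s - y s) * s) + (m : ℤ) * z t * t := by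
      have : ∑ s ∈ S.erase t, ((m : ℤ) * z s - y s) * s
          = (∑ s ∈ S.erase t, (m : ℤ) * z s * s) - ∑ s ∈ S.erase t, y s * s := by
        rw [← Finset.sum_sub_distrib]
        apply Finset.sum_congr rfl
        intro s _
        ring
      rw [this]
      ring
    rw [e]
    apply dvd_add
    · apply Finset.dvd_sum
      intro s _
      apply Dvd.dvd.mul_right
      exact Int.dvd_self_sub_emod
    · exact Dvd.intro_left _ rfl
  obtain ⟨xt, hxt⟩ := hdvd
  have hbound : ∑ s ∈ S.erase t, y s * (s : ℤ) ≤ (g : ℤ) * m := by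
    have h1 : ∑ s ∈ S.erase t, y s * (s : ℤ) ≤ ∑ s ∈ S.erase t, (B : ℤ) * B := by
      apply Finset.sum_le_sum
      intro s hs
      have hsS := Finset.mem_of_mem_erase hs
      have h2 := hB s hsS
      have h3 : (s : ℤ) ≤ B := by exact_mod_cast h2.2
      have h4 : (t : ℤ) ≤ B := by exact_mod_cast ht1.2
      have h5 : y s ≤ B := le_trans (hyt s).le h4
      have h6 : (0 : ℤ) ≤ s := by positivity
      exact mul_le_mul h5 h3 h6 (by positivity)
    rw [Finset.sum_const, nsmul_eq_mul] at h1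
    have h7 : ((S.erase t).card : ℤ) ≤ S.card := by
      exact_mod_cast Finset.card_le_card (Finset.erase_subset t S)
    have h8 : ((S.erase t).card : ℤ) * ((B : ℤ) * B) ≤ S.card * ((B : ℤ) * B) :=
      mul_le_mul_of_nonneg_right h7 (by positivity)
    have h9 : (S.card : ℤ) * B * B ≤ (g : ℤ) * m := by exact_mod_cast hm
    calc _ ≤ _ := h1
      _ ≤ _ := h8
      _ = (S.card : ℤ) * B * B := by ring
      _ ≤ _ := h9
  have hxt0 : 0 ≤ xt := by
    have h1 : 0 ≤ (t : ℤ) * xt := by rw [← hxt]; linarith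
    exact nonneg_of_mul_nonneg_right h1 htpos
  -- natural number coefficients
  let x : ℕ → ℕ := fun s => if s = t then xt.toNat else (y s).toNat
  have hfin : g * m = ∑ s ∈ S, x s * s := by
    have hcast : ((g * m : ℕ) : ℤ) = ((∑ s ∈ S, x s * s : ℕ) : ℤ) := by
      rw [← Finset.sum_erase_add S _ ht]
      push_cast
      have e1 : ∑ s ∈ S.erase t, (x s : ℤ) * (s : ℤ) = ∑ s ∈ S.erase t, y s * (s : ℤ) := by
        apply Finset.sum_congr rfl
        intro s hs
        have hne := Finset.ne_of_mem_erase hs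
        have : (x s : ℤ) = y s := by
          simp only [x, if_neg hne]
          exact Int.toNat_of_nonneg (hy0 s)
        rw [this]
      have e2 : (x t : ℤ) = xt := by
        simp only [x, if_pos rfl]
        exact Int.toNat_of_nonneg hxt0
      rw [e1, e2]
      linarith
    exact_mod_cast hcast
  rw [hfin]
  exact numD_sum A S hA x S (Finset.Subset.refl S) a ha

end H63.KN
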