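import Pool.Agent.H47.KO.Base
import Pool.Agent.H47.KO.GadCl

/-! # KN.NumE : base values in dimension 4 in every residue class modulo 1024 (paper D1)

`gadN4`: `gad_tbp : GadW 3 36`, `gad_pyr : GadS 4 (5 * 36)`, `gadN_of_gadS`; `180 = 2 * 4! + 132`. `pre_glue` gives `Pre 4 (k + 132)`, so `Pre 4 (b + 132 t)` for `b = 198, 249, 264, 315` (`2, 1, 0, 3 mod 4`). `132 = 4 * 33`, `33 * 225 = 1 mod 256`: given `r` take `b = r mod 4`, then
`(r + 1024 - b) / 4` (`b < 1024`; work with `r % 1024`), `t = 225 * ((r + 1024 - b) / 4) % 256`, `b + 132 t = r mod 1024`, `b + 132 t ≤ 315 + 132 * 255 ≤ 34000`. (A `decide` over the 1024 residues is also possible: `∀ r < 1024, ∃ t < 256, (b + 132 t) % 1024 = r`.) -/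

namespace H63.KN

open H47.KO

theorem gadN4 : GadN 4 180 := by
  have h := gadN_of_gadS (gad_pyr (by norm_num : 2 ≤ 3) gad_tbp)
  norm_num at h
  exact h

/-- iterated gluing in dimension 4 -/
theorem pre4_iter {b : ℕ} (h : Pre 4 b) (t : ℕ) : Pre 4 (b + 132 * t) := by
  induction t with
  | zero => simpa using h
  | succ t ih =>
    have h2 := pre_glue ih gadN4 (c := 132) (by norm_num [Nat.factorial])
    rw [show b + 132 * (t + 1) = b + 132 * t + 132 by ring]
    exact h2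

theorem pre4_aux {b r : ℕ} (h : Pre 4 b) (hb : b ≤ 315) (hr : r < 1024) (hbr : b % 4 = r % 4) :
    ∃ k, k ≤ 34000 ∧ k % 1024 = r ∧ Pre 4 k := by
  have ht : 225 * ((r + 1024 - b) / 4) % 256 < 256 := Nat.mod_lt _ (by norm_num)
  set t := 225 * ((r + 1024 - b) / 4) % 256 with htdef
  obtain ⟨u, hu⟩ : ∃ u, r + 1024 - b = 4 * u := ⟨(r + 1024 - b) / 4, by omega⟩
  have hu2 : (r + 1024 - b) / 4 = u := by omega
  rw [hu2] at htdef
  exact ⟨b + 132 * t, by omega, by omega, pre4_iter h t⟩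

theorem pre4_res (r : ℕ) : ∃ k, k ≤ 34000 ∧ k % 1024 = r % 1024 ∧ Pre 4 k := by
  have hr : r % 1024 < 1024 := Nat.mod_lt _ (by norm_num)
  rcases (by omega : (r % 1024) % 4 = 0 ∨ (r % 1024) % 4 = 1 ∨ (r % 1024) % 4 = 2 ∨
    (r % 1024) % 4 = 3) with h | h | h | h
  · exact pre4_aux pre_264 (by norm_num) hr (by rw [h])
  · exact pre4_aux pre_249 (by norm_num) hr (by rw [h])
  · exact pre4_aux pre_198 (by norm_num) hr (by rw [h])
  · exact pre4_aux pre_315 (by norm_num) hr (by rw [h])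

end H63.KN
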