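import Pool.Agent.H63.KN.POps

/-! # KN.NumF : the odd multiplier (paper D6)

`odd_choose`: `m % 8 ∈ {0, 2}`: `(m + 5).choose m = (m + 5).choose 5` is odd: `120 * C(m+5, 5) = (m+5)(m+4)(m+3)(m+2)(m+1)`; for `m = 8 q` the product is `8 * odd` (`(8q+4) (8q+2) = 8 (2q+1)(4q+1)`), for `m = 8 q + 2`: `(8q+6)(8q+4) = 8 (4q+3)(2q+1)`; `120 = 8 * 15`. (Or Lucas: `Choose.choose_modEq_choose_mod_mul_choose_div_nat`.)
`one_step`: `D` odd: `preP_pyr`, `o = D + 2`; `D` even: `preP_bip`, `o = D + 1`. `steps`: induction on `s`. `mult`: `s = 0, 1` for `d % 8 = 4, 5`; `0, 1, 2, 3, 4, 5` for `d % 8 = 6, 7, 0, 1, 2, 3`; `m = d - 4 - s` (then `m % 8 ∈ {0, 2}`, and `m ≥ 2` because `d ≥ 6`);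
`preP_join` with `D = 4`, `(5 + m).choose m ≤ (m + 5) ^ 5 ≤ (d + 1) ^ 5` (`Nat.choose_le_pow`-type bound for `choose 5`), the steps contribute at most `(d + 1) ^ 5`. -/

namespace H63.KN

theorem odd_choose (m : ℕ) (h : m % 8 = 0 ∨ m % 8 = 2) : Odd ((4 + 1 + m).choose m) := by
  have hsym : (4 + 1 + m).choose m = (m + 5).choose 5 := by
    rw [show 4 + 1 + m = m + 5 by ring]
    exact (Nat.choose_symm_add (a := m) (b := 5))
  rw [hsym]
  have h1 : (m + 5).choose 5 * 120 = (m + 5) * (m + 4) * (m + 3) * (m + 2) * (m + 1) := by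
    have := Nat.descFactorial_eq_factorial_mul_choose (m + 5) 5
    simp only [Nat.descFactorial, Nat.factorial] at this
    have e0 : m + 5 - 0 = m + 5 := rfl
    have e1 : m + 5 - 1 = m + 4 := rfl
    have e2 : m + 5 - 2 = m + 3 := rfl
    have e3 : m + 5 - 3 = m + 2 := rfl
    have e4 : m + 5 - 4 = m + 1 := rfl
    rw [e0, e1, e2, e3, e4] at this
    nlinarith [this]
  by_contra hcon
  rw [Nat.not_odd_iff_even] at hcon
  obtain ⟨c, hc⟩ := hcon
  rw [hc] at h1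
  rcases h with h | h
  · obtain ⟨q, hq⟩ : ∃ q, m = 8 * q := ⟨m / 8, by omega⟩
    subst hq
    have h2 : (c + c) * 120 = 8 * ((8 * q + 5) * (2 * q + 1) * (8 * q + 3) * (4 * q + 1) * (8 * q + 1)) := by
      rw [h1]; ring
    have h3 : 2 * (15 * c) = (8 * q + 5) * (2 * q + 1) * (8 * q + 3) * (4 * q + 1) * (8 * q + 1) := by
      omega
    have hodd : Odd ((8 * q + 5) * (2 * q + 1) * (8 * q + 3) * (4 * q + 1) * (8 * q + 1)) := by
      refine Odd.mul (Odd.mul (Odd.mul (Odd.mul ?_ ?_) ?_) ?_) ?_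
      · exact ⟨4 * q + 2, by ring⟩
      · exact ⟨q, by ring⟩
      · exact ⟨4 * q + 1, by ring⟩
      · exact ⟨2 * q, by ring⟩
      · exact ⟨4 * q, by ring⟩
    rw [← h3] at hodd
    exact (Nat.not_odd_iff_even.mpr (even_two_mul _)) hodd
  · obtain ⟨q, hq⟩ : ∃ q, m = 8 * q + 2 := ⟨m / 8, by omega⟩
    subst hq
    have h2 : (c + c) * 120 = 8 * ((8 * q + 7) * (4 * q + 3) * (8 * q + 5) * (2 * q + 1) * (8 * q + 3)) := by
      rw [h1]; ring
    have h3 : 2 * (15 * c) = (8 * q + 7) * (4 * q + 3) * (8 * q + 5) * (2 * q + 1) * (8 * q + 3) := by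
      omega
    have hodd : Odd ((8 * q + 7) * (4 * q + 3) * (8 * q + 5) * (2 * q + 1) * (8 * q + 3)) := by
      refine Odd.mul (Odd.mul (Odd.mul (Odd.mul ?_ ?_) ?_) ?_) ?_
      · exact ⟨4 * q + 3, by ring⟩
      · exact ⟨2 * q + 1, by ring⟩
      · exact ⟨4 * q + 2, by ring⟩
      · exact ⟨q, by ring⟩
      · exact ⟨4 * q + 1, by ring⟩
    rw [← h3] at hodd
    exact (Nat.not_odd_iff_even.mpr (even_two_mul _)) hodd

theorem one_step {D μ k : ℕ} (h : PreP D μ k) :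
    ∃ o, Odd o ∧ o ≤ D + 2 ∧ PreP (D + 1) μ (o * k) := by
  rcases Nat.even_or_odd D with hD | hD
  · exact ⟨D + 1, hD.add_one, by omega, preP_bip h⟩
  · refine ⟨D + 2, ?_, le_rfl, preP_pyr h⟩
    obtain ⟨a, ha⟩ := hD
    exact ⟨a + 1, by omega⟩

/-- the odd multiplier of `one_step`, as a function of the dimension -/
theorem one_step' (D μ : ℕ) : ∃ o, Odd o ∧ o ≤ D + 2 ∧
    ∀ k, PreP D μ k → PreP (D + 1) μ (o * k) := by
  rcases Nat.even_or_odd D with hD | hD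
  · exact ⟨D + 1, hD.add_one, by omega, fun k h => preP_bip h⟩
  · refine ⟨D + 2, ?_, le_rfl, fun k h => preP_pyr h⟩
    obtain ⟨a, ha⟩ := hD
    exact ⟨a + 1, by omega⟩

theorem steps (D μ s : ℕ) : ∃ o, Odd o ∧ o ≤ (D + s + 1) ^ s ∧
    ∀ k, PreP D μ k → PreP (D + s) μ (o * k) := by
  induction s with
  | zero => exact ⟨1, odd_one, by simp, fun k h => by rwa [one_mul]⟩
  | succ s ih =>
    obtain ⟨o, ho, hle, hk⟩ := ih
    obtain ⟨p, hp, hple, hpk⟩ := one_step' (D + s) μ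
    refine ⟨p * o, hp.mul ho, ?_, fun k h => ?_⟩
    · calc p * o ≤ (D + s + 2) * (D + s + 1) ^ s := Nat.mul_le_mul hple hle
        _ ≤ (D + s + 2) * (D + s + 2) ^ s :=
          Nat.mul_le_mul le_rfl (Nat.pow_le_pow_left (by omega) _)
        _ = (D + (s + 1) + 1) ^ (s + 1) := by
          rw [show D + (s + 1) + 1 = D + s + 2 by ring]; ring
    · have := hpk _ (hk _ h)
      rw [mul_assoc]
      exact this

theorem mult (d : ℕ) (hd : 6 ≤ d) : ∃ m q : ℕ, 2 ≤ m ∧ m + 4 ≤ d ∧ d ≤ m + 9 ∧ Odd q ∧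
    q ≤ (d + 1) ^ 10 ∧ ∀ k, PreP 4 0 k → PreP d m (q * k) := by
  obtain ⟨s, hs, m, hm2, hms, hmod⟩ : ∃ s, s ≤ 5 ∧ ∃ m, 2 ≤ m ∧ 4 + m + s = d ∧
      (m % 8 = 0 ∨ m % 8 = 2) := by
    have h8 : d % 8 < 8 := Nat.mod_lt _ (by norm_num)
    rcases (by omega : d % 8 = 4 ∨ d % 8 = 5 ∨ d % 8 = 6 ∨ d % 8 = 7 ∨ d % 8 = 0 ∨ d % 8 = 1 ∨
      d % 8 = 2 ∨ d % 8 = 3) with h | h | h | h | h | h | h | h
    · exact ⟨0, by omega, d - 4, by omega, by omega, by omega⟩
    · exact ⟨1, by omega, d - 5, by omega, by omega, by omega⟩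
    · exact ⟨0, by omega, d - 4, by omega, by omega, by omega⟩
    · exact ⟨1, by omega, d - 5, by omega, by omega, by omega⟩
    · exact ⟨2, by omega, d - 6, by omega, by omega, by omega⟩
    · exact ⟨3, by omega, d - 7, by omega, by omega, by omega⟩
    · exact ⟨4, by omega, d - 8, by omega, by omega, by omega⟩
    · exact ⟨5, by omega, d - 9, by omega, by omega, by omega⟩
  obtain ⟨o, ho, hle, hk⟩ := steps (4 + m) m s
  refine ⟨m, o * (4 + 1 + m).choose m, hm2, by omega, by omega, ho.mul (odd_choose m hmod), ?_,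
    fun k h => ?_⟩
  · have h1 : o ≤ (d + 1) ^ 5 := by
      refine hle.trans ?_
      rw [hms]
      exact Nat.pow_le_pow_right (by omega) hs
    have h2 : (4 + 1 + m).choose m ≤ (d + 1) ^ 5 := by
      have hsym : (4 + 1 + m).choose m = (m + 5).choose 5 := by
        rw [show 4 + 1 + m = m + 5 by ring]
        exact (Nat.choose_symm_add (a := m) (b := 5))
      rw [hsym]
      have h3 : (m + 5).choose 5 ≤ (m + 5) ^ 5 := by
        have h5 := Nat.choose_le_pow_div 5 (m + 5) (α := ℚ)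
        have h6 : ((m + 5 : ℕ) : ℚ) ^ 5 / ((5).factorial : ℚ) ≤ ((m + 5 : ℕ) : ℚ) ^ 5 :=
          div_le_self (by positivity) (by norm_num [Nat.factorial])
        exact_mod_cast h5.trans h6
      exact h3.trans (Nat.pow_le_pow_left (by omega) _)
    calc o * (4 + 1 + m).choose m ≤ (d + 1) ^ 5 * (d + 1) ^ 5 := Nat.mul_le_mul h1 h2
      _ = (d + 1) ^ 10 := by rw [← pow_add]
  · have h1 := preP_join m hm2 h
    have h2 := hk _ h1
    rw [hms] at h2
    rw [mul_assoc]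
    exact h2

end H63.KN
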