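import Mathlib

/-! # KN.NumG : the final inequality (paper H)

For `4 ≤ d`: `(d + 1) ^ 10 ≤ (5/4)^10 d^10 ≤ 16 d^10`; `34000 ≤ 2^16`; `n ≤ 9` etc. All summands are at most `2^32 d^22 ≤ d^16 d^22`. -/

namespace H63.KN

theorem final_bound (d μ q k4 c : ℕ) (hd : 4 ≤ d) (hq : q ≤ (d + 1) ^ 10) (hk4 : k4 ≤ 34000)
    (hc : c ≤ 2 * d ^ 2 * (2 * d) ^ 9) (hμ : μ ≤ d) (hμ9 : d ≤ μ + 9) :
    q * k4 + c + (d - μ + 1) * ((d - 1) * (d.factorial / μ.factorial)) +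
      768 * (2 * d ^ 2 * (2 * d) ^ 9) * (2 * d ^ 2 * (2 * d) ^ 9) ≤ d ^ 40 := by
  have hd1 : 1 ≤ d := by omega
  have e9 : 2 * d ^ 2 * (2 * d) ^ 9 = 1024 * d ^ 11 := by ring
  -- the powers of d
  have p12 : 4 ^ 12 ≤ d ^ 12 := Nat.pow_le_pow_left hd 12
  have p15 : 4 ^ 15 ≤ d ^ 15 := Nat.pow_le_pow_left hd 15
  have h10 : d ^ 10 ≤ d ^ 22 := Nat.pow_le_pow_right hd1 (by norm_num)
  have h11 : d ^ 11 ≤ d ^ 22 := Nat.pow_le_pow_right hd1 (by norm_num)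
  have h37 : d ^ 37 ≤ d ^ 40 := Nat.pow_le_pow_right hd1 (by norm_num)
  -- first summand
  have a1 : (d + 1) ^ 10 ≤ 10 * d ^ 10 := by
    have h1 : (4 * (d + 1)) ^ 10 ≤ (5 * d) ^ 10 := Nat.pow_le_pow_left (by omega) 10
    have h2 : (4 * (d + 1)) ^ 10 = 1048576 * (d + 1) ^ 10 := by rw [mul_pow]; norm_num
    have h3 : (5 * d) ^ 10 = 9765625 * d ^ 10 := by rw [mul_pow]; norm_num
    omega
  have a2 : q * k4 ≤ (10 * d ^ 10) * 34000 := Nat.mul_le_mul (hq.trans a1) hk4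
  -- third summand
  have a3 : d.factorial / μ.factorial ≤ d ^ 9 := by
    have h1 := Nat.descFactorial_eq_div (n := d) (k := d - μ) (Nat.sub_le d μ)
    have h2 : d - (d - μ) = μ := by omega
    rw [h2] at h1
    rw [← h1]
    exact (Nat.descFactorial_le_pow d (d - μ)).trans (Nat.pow_le_pow_right hd1 (by omega))
  have a4 : (d - μ + 1) * ((d - 1) * (d.factorial / μ.factorial)) ≤ 10 * (d * d ^ 9) :=
    Nat.mul_le_mul (by omega) (Nat.mul_le_mul (by omega) a3)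
  have a5 : d * d ^ 9 = d ^ 10 := by ring
  rw [a5] at a4
  -- fourth summand
  have a6 : 768 * (1024 * d ^ 11) * (1024 * d ^ 11) = 805306368 * d ^ 22 := by ring
  rw [e9] at hc ⊢
  rw [a6]
  have a7 : d ^ 12 * d ^ 10 = d ^ 22 := by ring
  have a8 : 4 ^ 12 * d ^ 10 ≤ d ^ 22 := by
    rw [← a7]
    exact Nat.mul_le_mul_right _ p12
  have a9 : 4 ^ 15 * d ^ 22 ≤ d ^ 37 := by
    have e : d ^ 37 = d ^ 15 * d ^ 22 := by ring
    rw [e]
    exact Nat.mul_le_mul_right _ p15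
  norm_num at a8 a9
  omega

end H63.KN
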