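import Pool.Agent.H63.KN.Defs
import Pool.Agent.H47.KO.GlueSS
import Pool.Agent.H47.KO.GlueSx
import Pool.Agent.H47.KO.GlueInv

/-! # KN.GoodGl : gluing onto a good system (the same as `H47.KO.GoodGlue.good_glue`, without the order of the group)

`inv`: `glue_inv`. `core`: not glued by `hcore`, so `(C.image κ ∪ W).disjSum ∅` is a facet. `core0`: `isSx_glue_inl`. `deg`: `deg_glue_inl`, `deg_glue_inr`, all degrees in `𝓖` are `≥ D ≥ 2`. `cF`: `card_glue`, `2 ≤ 𝓖.card`.
`inj`: `actSum` is injective on the `inl` part. The proof of `good_glue` (when it is done) can be copied. -/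

namespace H63.KN

open Finset H47.KO

variable {V G : Type} [Fintype V] [DecidableEq V] [Group G] {D : ℕ}
  {𝓕 : Finset (Finset V)} {act : G →* Equiv.Perm V} {r : G} {κ : Fin 11 → V} {W₀ : Finset V}
variable {ι W : Type} [Fintype ι] [DecidableEq ι] [Fintype W] [DecidableEq W]
variable {𝓖 : Finset (Finset (Fin D ⊕ W))} {e : ι → Fin D → V}

omit [Fintype V] [Fintype ι] [Fintype W] in
private theorem gg_core (κ : Fin 11 → V) (W₀ : Finset V) (C : Finset (Fin 11)) :
    C.image (fun i => (Sum.inl (κ i) : V ⊕ (ι × W))) ∪ W₀.image Sum.inl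
      = (C.image κ ∪ W₀).image Sum.inl := by
  rw [image_union, image_image]
  rfl

private theorem gg_disj {X Y : Type} [DecidableEq X] [DecidableEq Y] (F : Finset X) :
    (F.disjSum (∅ : Finset Y)) = F.image Sum.inl := by
  ext x
  simp only [Finset.mem_disjSum, Finset.mem_image, Finset.notMem_empty, false_and, exists_false,
    or_false]

theorem goodP_glue (h : GoodP D 𝓕 act r κ W₀) (hok : GlueOK D 𝓕 𝓖 e) (hdeg : ∀ x, D ≤ deg 𝓖 x)
    (hcard : 2 ≤ 𝓖.card) (hcore : ∀ i, ∀ C ∈ coreF, im (e i) ≠ C.image κ ∪ W₀)
    (aι : G →* Equiv.Perm ι) (τ : G →* Equiv.Perm W) (heq : EqGlue act 𝓖 e aι τ) :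
    GoodP D (glue 𝓕 𝓖 e) (actSum act (actProd aι τ)) r (fun i => Sum.inl (κ i))
      (W₀.image Sum.inl) := by
  have hD := h.four
  exact
    { four := h.four
      cx := cplx_glue hok
      inv := glue_inv h.inv aι τ heq
      inj := by
        intro g g' hg
        apply h.inj
        ext v
        have := DFunLike.congr_fun hg (Sum.inl v)
        exact Sum.inl_injective this
      deg := by
        rintro (v | ⟨i, w⟩)
        · have h1 := deg_glue_inl hok v
          have h2 : ∑ p ∈ (univ : Finset (ι × Fin D)).filter (fun p => e p.1 p.2 = v), 2 ≤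
              ∑ p ∈ (univ : Finset (ι × Fin D)).filter (fun p => e p.1 p.2 = v),
                deg 𝓖 (Sum.inl p.2) := by
            apply sum_le_sum
            intro p _
            have := hdeg (Sum.inl p.2)
            omega
          have h3 := h.deg v
          omega
        · rw [deg_glue_inr hok i w]
          exact hdeg _
      cF := by
        have h1 := card_glue hok
        have h2 : Fintype.card ι * 2 ≤ Fintype.card ι * 𝓖.card := Nat.mul_le_mul_left _ hcard
        have h3 := h.cF
        omega
      cW := by
        rw [card_image_of_injective _ Sum.inl_injective]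
        exact h.cW
      κinj := Sum.inl_injective.comp h.κinj
      κW := by
        intro i hi
        obtain ⟨w, hw, hwi⟩ := mem_image.1 hi
        have := Sum.inl_injective hwi
        exact h.κW i (this ▸ hw)
      core := by
        intro C hC
        rw [gg_core]
        refine mem_glue.2 (Or.inl ⟨_, h.core C hC, fun i => hcore i C hC, ?_⟩)
        rw [gg_disj]
      core0 := by
        rw [gg_core]
        exact isSx_glue_inl hok h.core0 (fun i => hcore i _ (by simp [coreF]))
      rκ := by
        intro i
        rw [actSum_inl]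
        exact congrArg Sum.inl (h.rκ i)
      rW := by
        intro w hw
        obtain ⟨v, hv, rfl⟩ := mem_image.1 hw
        rw [actSum_inl]
        exact congrArg Sum.inl (h.rW v hv) }

end H63.KN
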