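import Pool.Agent.H63.KN.SymN
import Pool.Agent.H47.KO.GlueSx

/-! # KN.HdCont : the handle continues after gluing (paper B4)

New enumerations `fun j => phi e i (e1 j)`, `im = (im e1).image (phi e i)`. `inj`: `phi_inj`. `sx`: `isSx_glue_phi`. `im e1` contains some `inr w` (`exists_inr` or: `im e1 ≠ im inl`, same cardinality), so `im` contains `inr (i, w)` and only `inr`'s with
first component `i` (`inr_mem_phi`): `dist`, and `core` (`C.image (inl ∘ κ) ∪ W₀.image inl` has no `inr`). By injectivity of `e1` and `low`, for `μ ≤ j` : `e1 j = inl j'` with `μ ≤ j'`, or `e1 j = inr w`.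
`gact`: `act' g (phi e i (inl j')) = inl (act g (e i j')) = inl (e (aι g i) j')`; `act' g (phi e i (inr w)) = inr (aι g i, w)`. `fact`: with `exists_sigma` (`σ`), `act' g (phi e i (e1 j)) = phi e (aι g i) (e1 (σ j))` for all `j` (`j < μ` : `σ j < μ`); `σ` is surjective.
`hfull_cont`: the same computation with the given `σ`. -/

namespace H63.KN

open Finset H47.KO

variable {V G ι : Type} [Fintype V] [DecidableEq V] [Group G] [Fintype ι] [DecidableEq ι] {D μ : ℕ}
  {𝓕 : Finset (Finset V)} {act : G →* Equiv.Perm V} {κ : Fin 11 → V} {W₀ : Finset V}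
  {e : ι → Fin D → V} {aι : G →* Equiv.Perm ι}
  {W : Type} [Fintype W] [DecidableEq W] {𝓖 : Finset (Finset (Fin D ⊕ W))}

omit [Fintype V] [DecidableEq V] [Fintype ι] [DecidableEq ι] [Fintype W] [DecidableEq W] in
private theorem hc_key {e1 : Fin D → Fin D ⊕ W} (i1 : Function.Injective e1)
    (low : ∀ j : Fin D, j.val < μ → e1 j = Sum.inl j) {g : G} {i i' : ι}
    {σ : Equiv.Perm (Fin D)} (hσ : ∀ j : Fin D, μ ≤ j.val → σ j = j) (ha : aι g i = i')
    (h : ∀ j, act g (e i j) = e i' (σ j)) (j : Fin D) :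
    actSum act (actProd aι (1 : G →* Equiv.Perm W)) g (phi e i (e1 j)) = phi e i' (e1 (σ j)) := by
  by_cases hj : j.val < μ
  · have h1 : (σ j).val < μ := by
      by_contra hc
      have h2 : σ (σ j) = σ j := hσ _ (not_lt.1 hc)
      have h3 : σ j = j := σ.injective h2
      rw [h3] at hc
      exact hc hj
    rw [low j hj, low _ h1]
    change Sum.inl (act g (e i j)) = Sum.inl (e i' (σ j))
    rw [h]
  · have h1 : σ j = j := hσ j (not_lt.1 hj)
    rw [h1]
    cases h2 : e1 j with
    | inl j' =>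
      have h3 : μ ≤ j'.val := by
        by_contra hc
        have h4 := low j' (not_le.1 hc)
        have h5 : j' = j := i1 (h4.trans h2.symm)
        rw [h5] at hc
        exact hc (not_lt.1 hj)
      change Sum.inl (act g (e i j')) = Sum.inl (e i' j')
      rw [h, hσ j' h3]
    | inr w =>
      change Sum.inr (aι g i, w) = Sum.inr (i', w)
      rw [ha]

omit [Fintype V] in
private theorem hc_im {a b : Fin D → V} {f : V → V} {σ : Equiv.Perm (Fin D)}
    (h : ∀ j, f (a j) = b (σ j)) : (im a).image f = im b := by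
  ext v
  rw [mem_image, im, im]
  constructor
  · rintro ⟨u, hu, rfl⟩
    obtain ⟨j, _, rfl⟩ := mem_image.1 hu
    rw [h j]
    exact mem_image.2 ⟨σ j, mem_univ _, rfl⟩
  · intro hv
    obtain ⟨j, _, rfl⟩ := mem_image.1 hv
    refine ⟨a (σ.symm j), mem_image.2 ⟨_, mem_univ _, rfl⟩, ?_⟩
    rw [h, Equiv.apply_symm_apply]

omit [Fintype V] [Fintype ι] [Fintype W] in
private theorem hc_comp (i : ι) (e1 : Fin D → Fin D ⊕ W) :
    im (fun j => phi e i (e1 j)) = (im e1).image (phi e i) := by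
  unfold im
  rw [image_image]
  rfl

theorem hd_cont (hok : GlueOK D 𝓕 𝓖 e) (hh : Hd D μ 𝓕 act κ W₀ e aι)
    {e1 : Fin D → Fin D ⊕ W} (i1 : Function.Injective e1) (s1 : IsSx D 𝓖 (im e1))
    (low : ∀ j : Fin D, j.val < μ → e1 j = Sum.inl j) (ne : im e1 ≠ im Sum.inl) :
    Hd D μ (glue 𝓕 𝓖 e) (actSum act (actProd aι 1)) (fun i => Sum.inl (κ i))
      (W₀.image Sum.inl) (fun i j => phi e i (e1 j)) aι := by
  refine
    { inj := fun i => (phi_inj hok i).comp i1
      sx := fun i => by rw [hc_comp]; exact isSx_glue_phi hok i s1 ne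
      dist := fun i j h => ?_
      core := fun i C hC h => ?_
      fact := fun g i => ?_
      gact := fun g i j hj => ?_ }
  · rw [hc_comp, hc_comp] at h
    exact (glue_fac_inj hok s1.1 s1.1 ne ne h).1
  · obtain ⟨w, hw⟩ := exists_inr hok s1.1 ne
    have h3 : (Sum.inr (i, w) : V ⊕ (ι × W)) ∈ (im e1).image (phi e i) :=
      inr_mem_phi.2 ⟨rfl, hw⟩
    rw [← hc_comp, h] at h3
    rcases mem_union.1 h3 with h4 | h4
    · obtain ⟨x, _, hx⟩ := mem_image.1 h4
      exact absurd hx (by simp)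
    · obtain ⟨x, _, hx⟩ := mem_image.1 h4
      exact absurd hx (by simp)
  · obtain ⟨σ, h1, h2⟩ := exists_sigma μ (e i) (e (aι g i)) (hh.inj i) (hh.inj _) (act g)
      (hh.fact g i) (hh.gact g i)
    exact hc_im (σ := σ) (fun j => hc_key i1 low h1 rfl h2 j)
  · obtain ⟨σ, h1, h2⟩ := exists_sigma μ (e i) (e (aι g i)) (hh.inj i) (hh.inj _) (act g)
      (hh.fact g i) (hh.gact g i)
    have h3 := hc_key (W := W) i1 low h1 (rfl : aι g i = aι g i) h2 j
    rw [h1 j hj] at h3
    exact h3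

theorem hfull_cont (hf : HFull μ act e aι) {e1 : Fin D → Fin D ⊕ W}
    (i1 : Function.Injective e1) (low : ∀ j : Fin D, j.val < μ → e1 j = Sum.inl j) :
    HFull μ (actSum act (actProd aι (1 : G →* Equiv.Perm W))) (fun i j => phi e i (e1 j)) aι := by
  intro i i' σ hσ
  obtain ⟨g, h1, h2⟩ := hf i i' σ hσ
  exact ⟨g, h1, fun j => hc_key i1 low hσ h1 h2 j⟩

end H63.KN
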