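import Pool.Agent.H63.KN.Defs
import Pool.Agent.H47.KO.GlueSx

/-! # KN.HdKeep : another handle survives a gluing (paper B6)

`im (fun j => inl (e2 i j)) = (im (e2 i)).image inl`; `sx`: `isSx_glue_inl`; `inj`, `dist`, `core`, `fact`, `gact`: `inl` is injective, `actSum_inl`. -/

namespace H63.KN

open Finset H47.KO

variable {V G ι ι2 : Type} [Fintype V] [DecidableEq V] [Group G] [Fintype ι] [DecidableEq ι]
  {D μ : ℕ} {𝓕 : Finset (Finset V)} {act : G →* Equiv.Perm V} {κ : Fin 11 → V} {W₀ : Finset V}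
  {e : ι → Fin D → V} {e2 : ι2 → Fin D → V} {a2 : G →* Equiv.Perm ι2}
  {W : Type} [Fintype W] [DecidableEq W] {𝓖 : Finset (Finset (Fin D ⊕ W))}

private theorem im_inl (f : Fin D → V) :
    im (fun j => (Sum.inl (f j) : V ⊕ (ι × W))) = (im f).image Sum.inl := by
  rw [im, im, Finset.image_image]
  rfl

theorem hd_keep (hok : GlueOK D 𝓕 𝓖 e) (aι : G →* Equiv.Perm ι) (τ : G →* Equiv.Perm W)
    (h2 : Hd D μ 𝓕 act κ W₀ e2 a2) (hne : ∀ i i2, im (e i) ≠ im (e2 i2)) :
    Hd D μ (glue 𝓕 𝓖 e) (actSum act (actProd aι τ)) (fun i => Sum.inl (κ i))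
      (W₀.image Sum.inl) (fun i j => Sum.inl (e2 i j)) a2 where
  inj i := Sum.inl_injective.comp (h2.inj i)
  sx i := by
    rw [im_inl]
    exact isSx_glue_inl hok (h2.sx i) (fun i' => hne i' i)
  dist i j h := by
    rw [im_inl, im_inl] at h
    exact h2.dist i j (Finset.image_injective Sum.inl_injective h)
  core i C hC h := by
    rw [im_inl] at h
    refine h2.core i C hC (Finset.image_injective
      (Sum.inl_injective : Function.Injective (Sum.inl : V → V ⊕ (ι × W))) ?_)
    rw [h, Finset.image_union, Finset.image_image]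
    rfl
  fact g i := by
    rw [im_inl, im_inl, ← h2.fact g i, Finset.image_image, Finset.image_image]
    rfl
  gact g i j hj := by
    rw [actSum_inl, h2.gact g i j hj]

omit [Fintype V] [DecidableEq V] [Fintype ι] [DecidableEq ι] [Fintype W] [DecidableEq W] in
theorem hfull_keep (aι : G →* Equiv.Perm ι) (τ : G →* Equiv.Perm W) (hf : HFull μ act e2 a2) :
    HFull μ (actSum act (actProd aι τ)) (fun i j => (Sum.inl (e2 i j) : V ⊕ (ι × W))) a2 := by
  intro i i' σ hσ
  obtain ⟨g, h1, h2⟩ := hf i i' σ hσ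
  exact ⟨g, h1, fun j => by rw [actSum_inl, h2 j]⟩

end H63.KN
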