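import Pool.Agent.H63.KN.SymN
import Pool.Agent.H47.KO.GlueSx

/-! # KN.HdLow : the handle of type `μ - 1` which appears after gluing (paper B5)

Index type `ι' = {p : ι × V // ∃ j : Fin D, j.val < μ ∧ e p.1 j = p.2}`; for `p = (i, v)` let `a p` be the (unique, `inj`) position with `e i (a p) = v`. Action `(i, v) ↦ (aι g i, act g v)` : it preserves the condition, because by `exists_sigma` `act g (e i j) = e (aι g i) (σ j)` with
`σ j < μ` for `j < μ` (`σ` fixes all `j ≥ μ`); so `a (g p) = σ (a p)`. As a homomorphism: `{ toFun g := { toFun, invFun with g⁻¹ }, map_one', map_mul' }` or `Equiv.Perm.subtypePerm`.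
`card ι' = card ι * μ`: `ι' ≃ ι × {j : Fin D // j.val < μ}` (`Fintype.card_congr`; `μ ≤ D`).
`F p = ((low D μ (a p)).image inl ∪ R).image (phi e p.1)`, `IsSx` by `isSx_glue_phi` and `s2` (it is `≠ im inl` by `Rout`), so it has `D` elements. `R` has `D + 1 - μ = D - (μ - 1)` elements: fix an enumeration `n : {j : Fin D // μ - 1 ≤ j.val} → R` (bijection), and for every `p` any bijection of
`{j : Fin D // j.val < μ - 1}` with `low D μ (a p)` (`μ - 1` elements); `e' p j = phi e p.1 (..)`. So `im (e' p) = F p`, `e' p` injective (`phi_inj`; or: the image of `Fin D` has `D` elements), and for `μ - 1 ≤ j` : `e' p j = phi e p.1 (n j)`.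
`dist`: `Rout`: `inr (i, w) ∈ F p` determines `i = p.1`; then `phi_inj` gives `low (a p) ∪ R = low (a p') ∪ R`, and `inl (a p)` is in the second set if `a p ≠ a p'`, not in the first (`Rlow`).
`core`: contains an `inr`. `gact`: `n j` is in `R`, so it is `inr w` or `inl j'` with `μ ≤ j'` (`Rlow`): `act' g (phi e i (n j)) = phi e (aι g i) (n j)` (`gact` of `hh`). `fact`: `act' g` maps `phi e i (inl j)`, `j ∈ low (a p)`, to `phi e (aι g i) (inl (σ j))`, and `σ` maps `low (a p)` onto `low (σ (a p))`. -/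

namespace H63.KN

open Finset H47.KO

variable {V G ι : Type} [Fintype V] [DecidableEq V] [Group G] [Fintype ι] [DecidableEq ι] {D μ : ℕ}
  {𝓕 : Finset (Finset V)} {act : G →* Equiv.Perm V} {κ : Fin 11 → V} {W₀ : Finset V}
  {e : ι → Fin D → V} {aι : G →* Equiv.Perm ι}
  {W : Type} [Fintype W] [DecidableEq W] {𝓖 : Finset (Finset (Fin D ⊕ W))}

omit [Fintype V] [DecidableEq V] [Group G] [Fintype ι] [DecidableEq ι] [Fintype W] [DecidableEq W] in
private theorem hl_card_low {D μ : ℕ} (hμ : μ ≤ D) (a : Fin D) (ha : a.val < μ) :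
    (low D μ a).card = μ - 1 := by
  unfold low
  rw [card_erase_of_mem (by simpa using ha)]
  have h : (univ.filter fun j : Fin D => j.val < μ).card = μ := by
    have h2 : (univ.filter fun j : Fin D => j.val < μ) =
        (univ : Finset (Fin μ)).map (Fin.castLEEmb hμ) := by
      ext j
      simp only [mem_filter, mem_univ, true_and, mem_map]
      constructor
      · intro hj
        exact ⟨⟨j.val, hj⟩, rfl⟩
      · rintro ⟨b, rfl⟩
        exact b.isLt
    rw [h2, card_map, card_univ, Fintype.card_fin]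
  rw [h]

omit [Fintype V] [DecidableEq V] [Group G] [Fintype ι] [DecidableEq ι] in
/-- enumerations of the facets `low a + R` with the same values at the positions `≥ μ - 1` -/
private theorem hl_enum {D μ : ℕ} (h1 : 1 ≤ μ) (hμ : μ ≤ D) {R : Finset (Fin D ⊕ W)}
    (Rcard : R.card + μ = D + 1)
    (Rlow : ∀ j : Fin D, j.val < μ → (Sum.inl j : Fin D ⊕ W) ∉ R) :
    ∃ (n : Fin D → Fin D ⊕ W) (E : Fin D → Fin D → Fin D ⊕ W),
      (∀ j : Fin D, μ - 1 ≤ j.val → n j ∈ R) ∧
      ∀ a : Fin D, a.val < μ → Function.Injective (E a) ∧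
        im (E a) = (low D μ a).image Sum.inl ∪ R ∧ ∀ j : Fin D, μ - 1 ≤ j.val → E a j = n j := by
  classical
  -- the two halves of the positions
  have hcA : Fintype.card {j : Fin D // j.val < μ - 1} = μ - 1 := by
    rw [Fintype.card_subtype]
    have h2 : (univ.filter fun j : Fin D => j.val < μ - 1) =
        (univ : Finset (Fin (μ - 1))).map (Fin.castLEEmb (by omega)) := by
      ext j
      simp only [mem_filter, mem_univ, true_and, mem_map]
      constructor
      · intro hj
        exact ⟨⟨j.val, hj⟩, rfl⟩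
      · rintro ⟨b, rfl⟩
        exact b.isLt
    rw [h2, card_map, card_univ, Fintype.card_fin]
  have hcB : Fintype.card {j : Fin D // ¬ j.val < μ - 1} = D - (μ - 1) := by
    rw [Fintype.card_subtype_compl, hcA, Fintype.card_fin]
  have hR : Fintype.card R = D - (μ - 1) := by
    rw [Fintype.card_coe]; omega
  obtain ⟨nR⟩ : Nonempty ({j : Fin D // ¬ j.val < μ - 1} ≃ R) :=
    ⟨Fintype.equivOfCardEq (by rw [hcB, hR])⟩
  have hL : ∀ a : Fin D, a.val < μ → Nonempty ({j : Fin D // j.val < μ - 1} ≃ low D μ a) := by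
    intro a ha
    refine ⟨Fintype.equivOfCardEq ?_⟩
    rw [hcA, Fintype.card_coe, hl_card_low hμ a ha]
  let nL : ∀ a : Fin D, a.val < μ → ({j : Fin D // j.val < μ - 1} ≃ low D μ a) :=
    fun a ha => (hL a ha).some
  let n : Fin D → Fin D ⊕ W := fun j =>
    if h : j.val < μ - 1 then Sum.inl j else (nR ⟨j, h⟩ : Fin D ⊕ W)
  let E : Fin D → Fin D → Fin D ⊕ W := fun a j =>
    if ha : a.val < μ then
      (if h : j.val < μ - 1 then Sum.inl (nL a ha ⟨j, h⟩ : Fin D) else (nR ⟨j, h⟩ : Fin D ⊕ W))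
    else Sum.inl j
  refine ⟨n, E, ?_, ?_⟩
  · intro j hj
    have h : ¬ j.val < μ - 1 := by omega
    have : n j = (nR ⟨j, h⟩ : Fin D ⊕ W) := by simp only [n]; rw [dif_neg h]
    rw [this]
    exact (nR ⟨j, h⟩).2
  · intro a ha
    have hE1 : ∀ (j : Fin D) (h : j.val < μ - 1), E a j = Sum.inl (nL a ha ⟨j, h⟩ : Fin D) := by
      intro j h
      simp only [E]
      rw [dif_pos ha, dif_pos h]
    have hE2 : ∀ (j : Fin D) (h : ¬ j.val < μ - 1), E a j = (nR ⟨j, h⟩ : Fin D ⊕ W) := by
      intro j h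
      simp only [E]
      rw [dif_pos ha, dif_neg h]
    have hlow : ∀ b : Fin D, b ∈ low D μ a → b.val < μ := by
      intro b hb
      unfold low at hb
      simpa using (mem_erase.1 hb).2
    have hinj : Function.Injective (E a) := by
      intro j j' hjj
      by_cases h : j.val < μ - 1
      · by_cases h' : j'.val < μ - 1
        · rw [hE1 j h, hE1 j' h'] at hjj
          have h3 := Sum.inl_injective hjj
          have h4 := (nL a ha).injective (Subtype.ext h3)
          exact congrArg Subtype.val h4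
        · rw [hE1 j h, hE2 j' h'] at hjj
          exact absurd (hjj ▸ (nR ⟨j', h'⟩).2) (Rlow _ (hlow _ (nL a ha ⟨j, h⟩).2))
      · by_cases h' : j'.val < μ - 1
        · rw [hE2 j h, hE1 j' h'] at hjj
          exact absurd (hjj ▸ (nR ⟨j, h⟩).2) (Rlow _ (hlow _ (nL a ha ⟨j', h'⟩).2))
        · rw [hE2 j h, hE2 j' h'] at hjj
          have h4 := nR.injective (Subtype.ext hjj)
          exact congrArg Subtype.val h4
    refine ⟨hinj, ?_, ?_⟩
    · ext x
      rw [mem_im, mem_union, mem_image]
      constructor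
      · rintro ⟨j, rfl⟩
        by_cases h : j.val < μ - 1
        · left
          rw [hE1 j h]
          exact ⟨_, (nL a ha ⟨j, h⟩).2, rfl⟩
        · right
          rw [hE2 j h]
          exact (nR ⟨j, h⟩).2
      · rintro (⟨b, hb, rfl⟩ | hx)
        · obtain ⟨⟨j, h⟩, hj⟩ := (nL a ha).surjective ⟨b, hb⟩
          refine ⟨j, ?_⟩
          rw [hE1 j h, hj]
        · obtain ⟨⟨j, h⟩, hj⟩ := nR.surjective ⟨x, hx⟩
          refine ⟨j, ?_⟩
          rw [hE2 j h, hj]
    · intro j hj
      have h : ¬ j.val < μ - 1 := by omega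
      rw [hE2 j h]
      simp only [n]
      rw [dif_neg h]

theorem hd_low (hok : GlueOK D 𝓕 𝓖 e) (hh : Hd D μ 𝓕 act κ W₀ e aι) (h1 : 1 ≤ μ) (hμ : μ ≤ D)
    {R : Finset (Fin D ⊕ W)} (Rcard : R.card + μ = D + 1)
    (Rlow : ∀ j : Fin D, j.val < μ → (Sum.inl j : Fin D ⊕ W) ∉ R)
    (Rout : ∃ w, (Sum.inr w : Fin D ⊕ W) ∈ R)
    (s2 : ∀ a : Fin D, a.val < μ → IsSx D 𝓖 ((low D μ a).image Sum.inl ∪ R)) :
    ∃ (ι' : Type) (_ : Fintype ι') (_ : DecidableEq ι') (e' : ι' → Fin D → V ⊕ (ι × W))
      (a' : G →* Equiv.Perm ι'),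
      Fintype.card ι' = Fintype.card ι * μ ∧
      Hd D (μ - 1) (glue 𝓕 𝓖 e) (actSum act (actProd aι 1)) (fun i => Sum.inl (κ i))
        (W₀.image Sum.inl) e' a' ∧
      ∀ p, ∃ (i : ι) (a : Fin D), a.val < μ ∧
        im (e' p) = ((low D μ a).image Sum.inl ∪ R).image (phi e i) := by
  classical
  have key : ∀ g i, ∃ σ : Equiv.Perm (Fin D), (∀ j : Fin D, μ ≤ j.val → σ j = j) ∧
      ∀ j, act g (e i j) = e (aι g i) (σ j) := fun g i =>
    exists_sigma μ (e i) (e (aι g i)) (hh.inj i) (hh.inj _) (act g) (hh.fact g i) (hh.gact g i)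
  choose sg hsg1 hsg2 using key
  have sg_lt : ∀ g i (j : Fin D), j.val < μ → (sg g i j).val < μ := by
    intro g i j hj
    by_contra hcon
    have h2 := hsg1 g i (sg g i j) (by omega)
    have h3 := (sg g i).injective h2
    rw [h3] at hcon
    exact hcon hj
  obtain ⟨n, E, hn, hE⟩ := hl_enum (W := W) h1 hμ Rcard Rlow
  -- the index type
  let ι' := {p : ι × V // ∃ j : Fin D, j.val < μ ∧ e p.1 j = p.2}
  have hcl : ∀ (g : G) (p : ι × V), (∃ j : Fin D, j.val < μ ∧ e p.1 j = p.2) →
      ∃ j : Fin D, j.val < μ ∧ e (aι g p.1) j = act g p.2 := by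
    rintro g p ⟨j, hj, hjp⟩
    exact ⟨sg g p.1 j, sg_lt g _ j hj, by rw [← hsg2, hjp]⟩
  let pos : ι' → Fin D := fun p => p.2.choose
  have pos_lt : ∀ p : ι', (pos p).val < μ := fun p => p.2.choose_spec.1
  have pos_eq : ∀ p : ι', e p.1.1 (pos p) = p.1.2 := fun p => p.2.choose_spec.2
  have pos_uniq : ∀ (p : ι') (j : Fin D), e p.1.1 j = p.1.2 → pos p = j := by
    intro p j hj
    apply hh.inj p.1.1
    rw [pos_eq, hj]
  -- the action
  let a' : G →* Equiv.Perm ι' :=
    { toFun := fun g =>
        { toFun := fun p => ⟨(aι g p.1.1, act g p.1.2), hcl g p.1 p.2⟩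
          invFun := fun p => ⟨(aι g⁻¹ p.1.1, act g⁻¹ p.1.2), hcl g⁻¹ p.1 p.2⟩
          left_inv := by
            rintro ⟨⟨i, v⟩, hp⟩
            apply Subtype.ext
            simp
          right_inv := by
            rintro ⟨⟨i, v⟩, hp⟩
            apply Subtype.ext
            simp }
      map_one' := by
        ext ⟨⟨i, v⟩, hp⟩ <;> simp
      map_mul' := by
        intro g g'
        ext ⟨⟨i, v⟩, hp⟩ <;> simp }
  have ha1 : ∀ g (p : ι'), (a' g p).1 = (aι g p.1.1, act g p.1.2) := fun g p => rfl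
  have pos_act : ∀ g (p : ι'), pos (a' g p) = sg g p.1.1 (pos p) := by
    intro g p
    apply pos_uniq
    rw [ha1]
    show e (aι g p.1.1) (sg g p.1.1 (pos p)) = act g p.1.2
    rw [← hsg2, pos_eq]
  let e' : ι' → Fin D → V ⊕ (ι × W) := fun p j => phi e p.1.1 (E (pos p) j)
  have him : ∀ p : ι', im (e' p) =
      ((low D μ (pos p)).image Sum.inl ∪ R).image (phi e p.1.1) := by
    intro p
    rw [← (hE (pos p) (pos_lt p)).2.1]
    show univ.image _ = (univ.image _).image _
    rw [image_image]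
    rfl
  -- the action on the copies
  have hact : ∀ g i (u : Fin D ⊕ W), actSum act (actProd aι (1 : G →* Equiv.Perm W)) g
      (phi e i u) = phi e (aι g i) (Sum.map (sg g i) id u) := by
    intro g i u
    rcases u with j | w
    · show Sum.inl (act g (e i j)) = Sum.inl (e (aι g i) (sg g i j))
      rw [hsg2]
    · rfl
  have hRfix : ∀ g i (u : Fin D ⊕ W), u ∈ R → Sum.map (sg g i) (id : W → W) u = u := by
    intro g i u hu
    rcases u with j | w
    · have hj : μ ≤ j.val := by
        by_contra hcon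
        exact Rlow j (by omega) hu
      show Sum.inl (sg g i j) = Sum.inl j
      rw [hsg1 g i j hj]
    · rfl
  have hX : ∀ g i (a : Fin D), a.val < μ →
      ((low D μ a).image Sum.inl ∪ R).image (Sum.map (sg g i) (id : W → W)) =
        (low D μ (sg g i a)).image Sum.inl ∪ R := by
    intro g i a ha
    rw [image_union]
    congr 1
    · ext x
      simp only [mem_image, low, mem_erase, mem_filter, mem_univ, true_and]
      constructor
      · rintro ⟨y, ⟨b, ⟨hb1, hb2⟩, rfl⟩, rfl⟩
        exact ⟨sg g i b, ⟨fun h => hb1 ((sg g i).injective h), sg_lt g i b hb2⟩, rfl⟩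
      · rintro ⟨b, ⟨hb1, hb2⟩, rfl⟩
        obtain ⟨c, rfl⟩ := (sg g i).surjective b
        refine ⟨Sum.inl c, ⟨c, ⟨fun h => hb1 (by rw [h]), ?_⟩, rfl⟩, rfl⟩
        by_contra hcon
        rw [hsg1 g i c (by omega)] at hb2
        exact hcon hb2
    · ext x
      rw [mem_image]
      constructor
      · rintro ⟨y, hy, rfl⟩
        rw [hRfix g i y hy]
        exact hy
      · intro hx
        exact ⟨x, hx, hRfix g i x hx⟩
  obtain ⟨w0, hw0⟩ := Rout
  have hinr : ∀ p : ι', (Sum.inr (p.1.1, w0) : V ⊕ (ι × W)) ∈ im (e' p) := by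
    intro p
    rw [him, inr_mem_phi]
    exact ⟨rfl, mem_union_right _ hw0⟩
  have hsx : ∀ p : ι', IsSx D (glue 𝓕 𝓖 e) (im (e' p)) := by
    intro p
    rw [him]
    refine isSx_glue_phi hok _ (s2 _ (pos_lt p)) ?_
    intro h
    have h2 : (Sum.inr w0 : Fin D ⊕ W) ∈ (low D μ (pos p)).image Sum.inl ∪ R :=
      mem_union_right _ hw0
    rw [h, mem_im] at h2
    obtain ⟨j, hj⟩ := h2
    exact absurd hj (by simp)
  refine ⟨ι', inferInstance, inferInstance, e', a', ?_, ⟨?_, hsx, ?_, ?_, ?_, ?_⟩, ?_⟩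
  · -- cardinality
    have hequiv : ι' ≃ ι × Fin μ :=
      { toFun := fun p => (p.1.1, ⟨(pos p).val, pos_lt p⟩)
        invFun := fun q => ⟨(q.1, e q.1 ⟨q.2.val, by have := q.2.isLt; omega⟩), _, q.2.isLt, rfl⟩
        left_inv := by
          intro p
          apply Subtype.ext
          apply Prod.ext
          · rfl
          · exact pos_eq p
        right_inv := by
          intro q
          apply Prod.ext
          · rfl
          · apply Fin.ext
            show (pos _).val = q.2.val
            rw [pos_uniq _ ⟨q.2.val, by have := q.2.isLt; omega⟩ rfl] }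
    rw [Fintype.card_congr hequiv, Fintype.card_prod, Fintype.card_fin]
  · -- injective
    intro p j j' h
    exact (hE (pos p) (pos_lt p)).1 (phi_inj hok p.1.1 h)
  · -- dist
    intro p p' h
    have h2 : p.1.1 = p'.1.1 := by
      have h3 := hinr p
      rw [h, him, inr_mem_phi] at h3
      exact h3.1
    rw [him, him, h2] at h
    have h3 := image_injective (phi_inj hok p'.1.1) h
    have h4 : pos p = pos p' := by
      by_contra hne
      have h5 : (Sum.inl (pos p) : Fin D ⊕ W) ∈ (low D μ (pos p')).image Sum.inl ∪ R := by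
        apply mem_union_left
        apply mem_image_of_mem
        unfold low
        exact mem_erase.2 ⟨hne, by simpa using pos_lt p⟩
      rw [← h3, mem_union] at h5
      rcases h5 with h5 | h5
      · obtain ⟨b, hb, hb2⟩ := mem_image.1 h5
        rw [Sum.inl_injective hb2] at hb
        unfold low at hb
        exact (mem_erase.1 hb).1 rfl
      · exact Rlow _ (pos_lt p) h5
    apply Subtype.ext
    apply Prod.ext h2
    rw [← pos_eq p, ← pos_eq p', h2, h4]
  · -- core
    intro p C _ h
    have h2 := hinr p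
    rw [h, mem_union] at h2
    rcases h2 with h2 | h2
    · obtain ⟨c, _, hc⟩ := mem_image.1 h2
      exact absurd hc (by simp)
    · obtain ⟨c, _, hc⟩ := mem_image.1 h2
      exact absurd hc (by simp)
  · -- fact
    intro g p
    rw [him, him, image_image, pos_act]
    have h2 : (fun u => actSum act (actProd aι (1 : G →* Equiv.Perm W)) g (phi e p.1.1 u)) =
        (fun u => phi e (aι g p.1.1) (Sum.map (sg g p.1.1) id u)) := funext (hact g p.1.1)
    show (((low D μ (pos p)).image Sum.inl ∪ R).image fun u =>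
      actSum act (actProd aι (1 : G →* Equiv.Perm W)) g (phi e p.1.1 u)) = _
    rw [h2]
    have h3 := hX g p.1.1 (pos p) (pos_lt p)
    rw [← h3, image_image]
    rfl
  · -- gact
    intro g p j hj
    show actSum act (actProd aι (1 : G →* Equiv.Perm W)) g (phi e p.1.1 (E (pos p) j)) =
      phi e (aι g p.1.1) (E (pos (a' g p)) j)
    rw [hact, (hE _ (pos_lt p)).2.2 j hj, (hE _ (pos_lt (a' g p))).2.2 j hj,
      hRfix g p.1.1 _ (hn j hj)]
  · intro p
    exact ⟨p.1.1, pos p, pos_lt p, him p⟩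

end H63.KN
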