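import Pool.Agent.H63.KN.EqH
import Pool.Agent.H63.KN.GoodGl
import Pool.Agent.H63.KN.HdCont
import Pool.Agent.H63.KN.HdKeep
import Pool.Agent.H63.KN.HdLow

/-! # KN.QStep : gluing gadgets at the handles of `PreP`, `PreQ` (paper E1, E2; glue of the modules, see `H47.KO.pre_glue` for the pattern)

Common part: `glueOK_hd`, `eqGlue_hd`, `goodP_glue`; super-simple vertices: `ss_glue_inl`, `ss_glue_inr`; flags: `fl_glue'` : `fl' + |ι| * (2 * D!) = |G| * k + |ι| * (2 * D! + μ! * c)` and `|ι| * μ! = |G|`, so `fl' = |G| * (k + c)`.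
`preQ_start`: first handle `hd_cont`, `hfull_cont`; second `hd_low`, `card ι' * (μ - 1)! = card ι * μ * (μ - 1)! = |G|`. They are different: `im = (im e1).image (phi e i)` and `((low a).image inl ∪ R).image (phi e i')`: both contain `inr`'s, so `i = i'` (`inr_mem_phi`), `phi_inj` gives
`im e1 = (low a).image inl ∪ R`, but `inl a = e1 a` is in the left side only (`low`, `Rlow`).
`preQ_glue1`: glue at the first handle (`hd_cont`, `hfull_cont`), keep the second (`hd_keep`); the new first contains an `inr`, the second does not. `preQ_glue2`: glue at the second handle (type `μ - 1`), keep the first (`hd_keep`, `hfull_keep`). -/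

namespace H63.KN

open Finset H47.KO

section

variable {V : Type} [Fintype V] [DecidableEq V] {D : ℕ} {𝓕 : Finset (Finset V)}
variable {ι W : Type} [Fintype ι] [DecidableEq ι] [Fintype W] [DecidableEq W]
variable {𝓖 : Finset (Finset (Fin D ⊕ W))} {e : ι → Fin D → V}

private theorem q_ss (hok : GlueOK D 𝓕 𝓖 e) (hD : 3 ≤ D) (hdeg : ∀ x, D ≤ deg 𝓖 x)
    (hs : ∀ v, ¬ SS D 𝓕 v) (hns : ∀ v, ¬ SS D 𝓖 v) (v : V ⊕ (ι × W)) :
    ¬ SS D (glue 𝓕 𝓖 e) v := by
  rcases v with v | ⟨i, w⟩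
  · rw [ss_glue_inl hok hD hdeg]
    exact fun h => hs v h.1
  · rw [ss_glue_inr hok]
    exact hns _

private theorem q_fl (hok : GlueOK D 𝓕 𝓖 e) {g k μ f c : ℕ} (h1 : fl (CLat 𝓕) = g * k)
    (h2 : fl (CLat 𝓖) = f) (hc : f = 2 * D.factorial + μ.factorial * c)
    (h3 : Fintype.card ι * μ.factorial = g) : fl (CLat (glue 𝓕 𝓖 e)) = g * (k + c) := by
  have h4 := fl_glue' hok
  rw [h1, h2, hc] at h4
  have h5 : Fintype.card ι * (2 * D.factorial + μ.factorial * c) =
      g * c + Fintype.card ι * (2 * D.factorial) := by rw [← h3]; ring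
  rw [h5] at h4
  rw [mul_add]
  omega

omit [Fintype V] [Fintype ι] [Fintype W] in
private theorem q_im (i : ι) (e1 : Fin D → Fin D ⊕ W) :
    im (fun j => phi e i (e1 j)) = (im e1).image (phi e i) := by
  unfold im
  rw [Finset.image_image]
  rfl

private theorem q_ne (hok : GlueOK D 𝓕 𝓖 e) (i : ι) {e1 : Fin D → Fin D ⊕ W}
    (s1 : IsSx D 𝓖 (im e1)) (ne : im e1 ≠ im Sum.inl) (g : Fin D → V) :
    im (fun j => phi e i (e1 j)) ≠ im (fun j => (Sum.inl (g j) : V ⊕ (ι × W))) := by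
  intro h
  obtain ⟨w, hw⟩ := exists_inr hok s1.1 ne
  have h1 : (Sum.inr (i, w) : V ⊕ (ι × W)) ∈ im (fun j => phi e i (e1 j)) := by
    rw [q_im]; exact inr_mem_phi.2 ⟨rfl, hw⟩
  rw [h, mem_im] at h1
  obtain ⟨j, hj⟩ := h1
  exact absurd hj (by simp)

end

theorem preQ_start {D μ k f c : ℕ} (h1 : 1 ≤ μ) (h : PreP D μ k) (hg : GadMN D μ f)
    (hc : f = 2 * D.factorial + μ.factorial * c) : PreQ D μ (k + c) := by
  obtain ⟨V, G, ι, _, _, _, _, _, _, _, 𝓕, act, r, κ, W₀, e, aι, hμ, hgood, hh, hf, hcard, hs,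
    hfl⟩ := h
  obtain ⟨W, _, _, 𝓖, e1, R, hgad, hns⟩ := hg
  have h4 := hgood.four
  have hok := glueOK_hd hgood hh hgad.cx hgad.s0
  have Rout : ∃ w, (Sum.inr w : Fin D ⊕ W) ∈ R := by
    obtain ⟨u, hu, hu2⟩ := hgad.Rout
    rcases u with j | w
    · exact absurd rfl (hu2 j)
    · exact ⟨w, hu⟩
  obtain ⟨ι', _, _, e', a', hcard', hh', hform⟩ := hd_low hok hh h1 hμ hgad.Rcard hgad.Rlow Rout
    hgad.s2
  refine ⟨V ⊕ (ι × W), G, ι, ι', inferInstance, inferInstance, inferInstance, inferInstance,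
    inferInstance, inferInstance, inferInstance, inferInstance, inferInstance,
    glue 𝓕 𝓖 e, actSum act (actProd aι 1), r, _, _, _, aι, e', a', h1, hμ,
    goodP_glue hgood hok hgad.deg (by have := hgad.cF; omega) hh.core aι 1
      (eqGlue_hd hh (symM_of hgad)),
    hd_cont hok hh hgad.i1 hgad.s1 hgad.low hgad.ne, hfull_cont hf hgad.i1 hgad.low, hcard, hh',
    ?_, ?_, q_ss hok (by omega) hgad.deg hs hns, q_fl hok hfl hgad.fl hc hcard⟩
  · rw [hcard', mul_assoc, Nat.mul_factorial_pred (by omega), hcard]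
  · intro i i' heq
    obtain ⟨i2, a, ha, hform⟩ := hform i'
    rw [hform, q_im] at heq
    obtain ⟨w, hw⟩ := Rout
    have h5 : (Sum.inr (i2, w) : V ⊕ (ι × W)) ∈
        ((low D μ a).image Sum.inl ∪ R).image (phi e i2) :=
      inr_mem_phi.2 ⟨rfl, Finset.mem_union_right _ hw⟩
    rw [← heq] at h5
    have h6 : i2 = i := (inr_mem_phi.1 h5).1
    subst h6
    have h7 : im e1 = (low D μ a).image Sum.inl ∪ R :=
      Finset.image_injective (phi_inj hok i2) heq
    have h8 : (Sum.inl a : Fin D ⊕ W) ∈ im e1 := (mem_im _ _).2 ⟨a, hgad.low a ha⟩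
    rw [h7, Finset.mem_union] at h8
    rcases h8 with h8 | h8
    · obtain ⟨b, hb, hb2⟩ := Finset.mem_image.1 h8
      have h9 : b = a := Sum.inl.inj hb2
      rw [h9, low] at hb
      exact (Finset.mem_erase.1 hb).1 rfl
    · exact hgad.Rlow a ha h8

theorem preQ_glue1 {D μ k f c : ℕ} (h : PreQ D μ k) (hg : GadMN D μ f)
    (hc : f = 2 * D.factorial + μ.factorial * c) : PreQ D μ (k + c) := by
  obtain ⟨V, G, ι, ι', _, _, _, _, _, _, _, _, _, 𝓕, act, r, κ, W₀, e, aι, e', aι', h1, hμ, hgood,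
    hh, hf, hcard, hh', hcard', hne, hs, hfl⟩ := h
  obtain ⟨W, _, _, 𝓖, e1, R, hgad, hns⟩ := hg
  have h4 := hgood.four
  have hok := glueOK_hd hgood hh hgad.cx hgad.s0
  exact ⟨V ⊕ (ι × W), G, ι, ι', inferInstance, inferInstance, inferInstance, inferInstance,
    inferInstance, inferInstance, inferInstance, inferInstance, inferInstance,
    glue 𝓕 𝓖 e, actSum act (actProd aι 1), r, _, _, _, aι, _, aι', h1, hμ,
    goodP_glue hgood hok hgad.deg (by have := hgad.cF; omega) hh.core aι 1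
      (eqGlue_hd hh (symM_of hgad)),
    hd_cont hok hh hgad.i1 hgad.s1 hgad.low hgad.ne, hfull_cont hf hgad.i1 hgad.low, hcard,
    hd_keep hok aι 1 hh' hne, hcard', fun i i' => q_ne hok i hgad.s1 hgad.ne (e' i'),
    q_ss hok (by omega) hgad.deg hs hns, q_fl hok hfl hgad.fl hc hcard⟩

theorem preQ_glue2 {D μ k f c : ℕ} (h : PreQ D μ k) (hg : GadMN D (μ - 1) f)
    (hc : f = 2 * D.factorial + (μ - 1).factorial * c) : PreQ D μ (k + c) := by
  obtain ⟨V, G, ι, ι', _, _, _, _, _, _, _, _, _, 𝓕, act, r, κ, W₀, e, aι, e', aι', h1, hμ, hgood,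
    hh, hf, hcard, hh', hcard', hne, hs, hfl⟩ := h
  obtain ⟨W, _, _, 𝓖, e1, R, hgad, hns⟩ := hg
  have h4 := hgood.four
  have hok := glueOK_hd hgood hh' hgad.cx hgad.s0
  exact ⟨V ⊕ (ι' × W), G, ι, ι', inferInstance, inferInstance, inferInstance, inferInstance,
    inferInstance, inferInstance, inferInstance, inferInstance, inferInstance,
    glue 𝓕 𝓖 e', actSum act (actProd aι' 1), r, _, _, _, aι, _, aι', h1, hμ,
    goodP_glue hgood hok hgad.deg (by have := hgad.cF; omega) hh'.core aι' 1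
      (eqGlue_hd hh' (symM_of hgad)),
    hd_keep hok aι' 1 hh (fun i i2 => (hne i2 i).symm), hfull_keep aι' 1 hf, hcard,
    hd_cont hok hh' hgad.i1 hgad.s1 hgad.low hgad.ne, hcard',
    fun i i' => (q_ne hok i' hgad.s1 hgad.ne (e i)).symm,
    q_ss hok (by omega) hgad.deg hs hns, q_fl hok hfl hgad.fl hc hcard'⟩

theorem preP_of_preQ {D μ k : ℕ} (h : PreQ D μ k) : PreP D μ k := by
  obtain ⟨V, G, ι, ι', _, _, _, _, _, _, _, _, _, 𝓕, act, r, κ, W, e, aι, e', aι', h1, h2, h3, h4,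
    h5, h6, -, -, -, h7, h8⟩ := h
  exact ⟨V, G, ι, inferInstance, inferInstance, inferInstance, inferInstance, inferInstance,
    inferInstance, inferInstance, 𝓕, act, r, κ, W, e, aι, h2, h3, h4, h5, h6, h7, h8⟩

end H63.KN
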