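import Pool.Agent.H63.KN.NotRP
import Pool.Agent.H63.KN.QStep
import Pool.Agent.H63.KN.GadWord
import Pool.Agent.H63.KN.NumC
import Pool.Agent.H63.KN.NumD
import Pool.Agent.H63.KN.NumE
import Pool.Agent.H63.KN.NumF
import Pool.Agent.H63.KN.NumG

/-! # KN.Fin : property (R) fails for all `k ≥ d ^ 40`, `d ≥ 4` (glue, no sorry) -/

namespace H63.KN

open Finset H47.KO KOrbit

theorem preQ_add {D μ : ℕ} (hD : μ + 3 ≤ D) (h1 : 1 ≤ μ) (k : ℕ) (h : PreQ D μ k) (c : ℕ)
    (hc : c ∈ conSet D μ) : PreQ D μ (k + c) := by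
  rcases hc with ⟨w, hw, rfl⟩ | ⟨h2, w, hw, rfl⟩
  · subst hw
    have hne : w ≠ [] := by
      rintro rfl
      simp at hD
    exact preQ_glue1 h (gad_word μ h1 w hne) (wfl_eq μ w)
  · have hne : w ≠ [] := by
      rintro rfl
      simp at hw
      omega
    have hD' : D = μ - 1 + 1 + w.length := by omega
    have h3 := gad_word (μ - 1) (by omega) w hne
    rw [← hD'] at h3
    have h4 := wfl_eq (μ - 1) w
    rw [← hD'] at h4
    exact preQ_glue2 h h3 h4

/-- the words of length `n` -/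
def words (n : ℕ) : Finset (List Bool) := (univ : Finset (Fin n → Bool)).image List.ofFn

theorem mem_words {n : ℕ} {w : List Bool} : w ∈ words n ↔ w.length = n := by
  unfold words
  rw [mem_image]
  constructor
  · rintro ⟨f, -, rfl⟩
    simp
  · rintro rfl
    exact ⟨w.get, mem_univ _, List.ofFn_get w⟩

theorem card_words (n : ℕ) : (words n).card ≤ 2 ^ n := by
  unfold words
  refine card_image_le.trans ?_
  simp

/-- a finite set with the elements of `conSet` -/
theorem conSet_fin (D μ : ℕ) (h1 : 1 ≤ μ) (hD : μ + 3 ≤ D) (hD9 : D ≤ μ + 9) :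
    ∃ S : Finset ℕ, (S : Set ℕ) = conSet D μ ∧ S.card ≤ 768 ∧
      ∀ s ∈ S, 1 ≤ s ∧ s ≤ 2 * D ^ 2 * (2 * D) ^ 9 := by
  classical
  have hA : ∀ c, c ∈ (words (D - μ - 1)).image (con μ) →
      ∃ w : List Bool, μ + 1 + w.length = D ∧ c = con μ w := by
    intro c hc
    obtain ⟨w, hw, rfl⟩ := mem_image.1 hc
    rw [mem_words] at hw
    exact ⟨w, by omega, rfl⟩
  have hB : ∀ c, c ∈ (words (D - μ)).image (con (μ - 1)) →
      ∃ w : List Bool, μ + w.length = D ∧ c = con (μ - 1) w := by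
    intro c hc
    obtain ⟨w, hw, rfl⟩ := mem_image.1 hc
    rw [mem_words] at hw
    exact ⟨w, by omega, rfl⟩
  have hcard1 : ((words (D - μ - 1)).image (con μ)).card ≤ 256 := by
    refine card_image_le.trans ((card_words _).trans ?_)
    calc 2 ^ (D - μ - 1) ≤ 2 ^ 8 := Nat.pow_le_pow_right (by norm_num) (by omega)
      _ = 256 := by norm_num
  have hcard2 : ((words (D - μ)).image (con (μ - 1))).card ≤ 512 := by
    refine card_image_le.trans ((card_words _).trans ?_)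
    calc 2 ^ (D - μ) ≤ 2 ^ 9 := Nat.pow_le_pow_right (by norm_num) (by omega)
      _ = 512 := by norm_num
  have hbA : ∀ w : List Bool, μ + 1 + w.length = D →
      1 ≤ con μ w ∧ con μ w ≤ 2 * D ^ 2 * (2 * D) ^ 9 :=
    fun w hw => ⟨con_pos μ h1 w, con_le μ w D hw (by omega)⟩
  have hbB : 2 ≤ μ → ∀ w : List Bool, μ + w.length = D →
      1 ≤ con (μ - 1) w ∧ con (μ - 1) w ≤ 2 * D ^ 2 * (2 * D) ^ 9 :=
    fun h2 w hw => ⟨con_pos (μ - 1) (by omega) w, con_le (μ - 1) w D (by omega) (by omega)⟩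
  by_cases h2 : 2 ≤ μ
  · refine ⟨(words (D - μ - 1)).image (con μ) ∪ (words (D - μ)).image (con (μ - 1)), ?_, ?_, ?_⟩
    · ext c
      rw [mem_coe, mem_union]
      constructor
      · rintro (h | h)
        · exact Or.inl (hA c h)
        · exact Or.inr ⟨h2, hB c h⟩
      · rintro (⟨w, hw, rfl⟩ | ⟨-, w, hw, rfl⟩)
        · exact Or.inl (mem_image_of_mem _ (mem_words.2 (by omega)))
        · exact Or.inr (mem_image_of_mem _ (mem_words.2 (by omega)))
    · refine (card_union_le _ _).trans ?_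
      omega
    · intro s hs
      rcases mem_union.1 hs with h | h
      · obtain ⟨w, hw, rfl⟩ := hA s h
        exact hbA w hw
      · obtain ⟨w, hw, rfl⟩ := hB s h
        exact hbB h2 w hw
  · refine ⟨(words (D - μ - 1)).image (con μ), ?_, by omega, ?_⟩
    · ext c
      rw [mem_coe]
      constructor
      · intro h
        exact Or.inl (hA c h)
      · rintro (⟨w, hw, rfl⟩ | ⟨h3, -⟩)
        · exact mem_image_of_mem _ (mem_words.2 (by omega))
        · exact absurd h3 h2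
    · intro s hs
      obtain ⟨w, hw, rfl⟩ := hA s hs
      exact hbA w hw

theorem dims (d : ℕ) (hd : 4 ≤ d) : ∃ μ q : ℕ, 1 ≤ μ ∧ μ + 3 ≤ d ∧ d ≤ μ + 9 ∧ Odd q ∧
    q ≤ (d + 1) ^ 10 ∧ ∀ k, PreP 4 0 k → PreP d μ (q * k) := by
  rcases Nat.lt_or_ge d 6 with h | h
  · have h45 : d = 4 ∨ d = 5 := by omega
    rcases h45 with rfl | rfl
    · exact ⟨1, 1, le_rfl, by norm_num, by norm_num, odd_one, by norm_num, fun k hk => by
        rw [one_mul]; exact preP_zero_one (by norm_num) hk⟩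
    · exact ⟨1, 5, le_rfl, by norm_num, by norm_num, by decide, by norm_num, fun k hk =>
        preP_bip (preP_zero_one (by norm_num) hk)⟩
  · obtain ⟨m, q, h1, h2, h3, h4, h5, h6⟩ := mult d h
    exact ⟨m, q, by omega, by omega, h3, h4, h5, h6⟩

/-- property (R) fails for all `k ≥ d ^ 40`, in every dimension `d ≥ 4` -/
theorem negR (d k : ℕ) (hd : 4 ≤ d) (hk : d ^ 40 ≤ k) : ¬ PropertyR k d := by
  obtain ⟨μ, q, h1, h3, h9, hodd, hq, hpre⟩ := dims d hd
  obtain ⟨S, hS, hcard, hSb⟩ := conSet_fin d μ h1 h3 h9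
  -- the first gadget
  let w0 : List Bool := List.replicate (d - μ - 1) true
  have hw0 : μ + 1 + w0.length = d := by
    simp only [w0, List.length_replicate]; omega
  have hw0ne : w0 ≠ [] := by
    intro h
    rw [h] at hw0
    simp at hw0
    omega
  have hc0 : con μ w0 ≤ 2 * d ^ 2 * (2 * d) ^ 9 := con_le μ w0 d hw0 (by omega)
  have hb : ∀ k4, k4 ≤ 34000 →
      q * k4 + con μ w0 + (d - μ + 1) * ((d - 1) * (d.factorial / μ.factorial)) +
      768 * (2 * d ^ 2 * (2 * d) ^ 9) * (2 * d ^ 2 * (2 * d) ^ 9) ≤ d ^ 40 := fun k4 hk4 =>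
    final_bound d μ q k4 (con μ w0) hd hq hk4 hc0 (by omega) h9
  generalize hsn : (d - μ + 1) * ((d - 1) * (d.factorial / μ.factorial)) = sn at hb
  -- the residue
  have hb0 := hb 0 (by norm_num)
  obtain ⟨T, hT⟩ : ∃ T, k = con μ w0 + sn + T := ⟨k - (con μ w0 + sn), by omega⟩
  have hcop : Nat.Coprime q 1024 := by
    have : Nat.Coprime q (2 ^ 10) := Nat.Coprime.pow_right 10 (Nat.coprime_two_right.2 hodd)
    exact this
  obtain ⟨q', hq'⟩ := Nat.exists_mul_mod_eq_one_of_coprime hcop (by norm_num)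
  obtain ⟨k4, hk4, hk4r, hpre4⟩ := pre4_res (q' * T)
  have hres : (q * k4) % 1024 = T % 1024 := by
    have e1 : (q * k4) ≡ q * (q' * T) [MOD 1024] := Nat.ModEq.mul_left q hk4r
    have e2 : q * (q' * T) ≡ 1 * T [MOD 1024] := by
      rw [← mul_assoc]
      exact Nat.ModEq.mul_right T hq'.2
    have e3 := e1.trans e2
    rw [one_mul] at e3
    exact e3
  have hbk := hb k4 hk4
  have hTge : q * k4 + 768 * (2 * d ^ 2 * (2 * d) ^ 9) * (2 * d ^ 2 * (2 * d) ^ 9) ≤ T := by omega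
  obtain ⟨m, hm⟩ : ∃ m, T = q * k4 + 1024 * m := by
    have h5 : q * k4 ≤ T := le_trans (Nat.le_add_right _ _) hTge
    refine ⟨(T - q * k4) / 1024, ?_⟩
    have h6 : 1024 ∣ T - q * k4 := (Nat.modEq_iff_dvd' h5).1 hres
    omega
  -- the system
  have hP : PreP d μ (q * k4) := hpre k4 (preP_of_pre hpre4)
  have hQ : PreQ d μ (q * k4 + con μ w0) := by
    have hg := gad_word μ h1 w0 hw0ne
    have hf := wfl_eq μ w0
    rw [hw0] at hg hf
    exact preQ_start h1 hP hg hf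
  have hcl : ((1024 : ℕ) : ℤ) ∈ AddSubgroup.closure ((fun n : ℕ => (n : ℤ)) '' (S : Set ℕ)) := by
    rw [hS]
    have h5 := conSet_closure d μ h1 h3
    obtain ⟨t, ht⟩ : ∃ t, d - μ + 1 + t = 10 := ⟨10 - (d - μ + 1), by omega⟩
    have h6 : ((1024 : ℕ) : ℤ) = (2 ^ t : ℤ) • (2 : ℤ) ^ (d - μ + 1) := by
      rw [smul_eq_mul, ← pow_add, add_comm t, ht]
      norm_num
    rw [h6]
    exact AddSubgroup.zsmul_mem _ h5 _
  have hfin := sg_eff {k | PreQ d μ k} S (2 * d ^ 2 * (2 * d) ^ 9) 1024 hcl hSb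
    (fun a ha s hs => preQ_add h3 h1 a ha s (by rw [← hS]; exact hs)) _ hQ m (by
      have h7 : S.card * (2 * d ^ 2 * (2 * d) ^ 9) * (2 * d ^ 2 * (2 * d) ^ 9) ≤
          768 * (2 * d ^ 2 * (2 * d) ^ 9) * (2 * d ^ 2 * (2 * d) ^ 9) :=
        Nat.mul_le_mul_right _ (Nat.mul_le_mul_right _ hcard)
      omega)
  have hR := not_R_of_preP (by omega) (preP_of_preQ hfin)
  rw [hsn] at hR
  have hkk : q * k4 + con μ w0 + 1024 * m + sn = k := by omega
  rwa [hkk] at hR

end H63.KN
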