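import Pool.Agent.H63.KN.Defs
import Pool.Agent.H47.KO.BipCx
import Pool.Agent.H47.KO.BipCl

/-! # KN.GadStart : the first gadget of type `μ`, dimension `μ + 1`: the bipyramid over the simplex (paper C)

`U = (Fin μ ⊕ Unit) ⊕ Bool`, `𝓖 = bip (simp μ)`; `e0 j = inl (inl j)` for `j.val < μ`, `e0 μ = inr true`; `e1` the same with `inr false`; `R = {inl (inr ()), inr true}`.
`simp_cplx`, `simp_sx`, `simp_F0`, `simp_deg`, `simp_card`, `simp_fl`; `cplx_bip`, `isSx_bip`, `deg_bip_inl`, `deg_bip_inr`, `card_bip`, `fl_bip` (`2 * (μ + 1) * (μ + 1)!`). `im e0 = (im inl).disjSum {true}`, `im e1 = (im inl).disjSum {false}`,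
`(low (μ+1) μ a).image e0 ∪ R = (univ.erase (inl a)).disjSum {true}`: with `A = univ.erase (inl a) : Finset (Fin μ ⊕ Unit)` of card `μ`, so `A ∈ simp μ`. `sym`: a permutation of `U` which is the identity outside the `inl (inl j)` is of the form `sumCongr σ1 1` with `σ1` a permutation of `Fin μ ⊕ Unit`
and maps `F.disjSum {b}` to `(F.image σ1).disjSum {b}` of the same card (`simp` is invariant under all permutations; `B ∈ bip (simp μ)` iff `B = F.disjSum {b}` with `F.card = μ`). -/

namespace H63.KN

open Finset H47.KO

/-- the enumeration -/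
private def GadStart_e (μ : ℕ) (b : Bool) : Fin (μ + 1) → (Fin μ ⊕ Unit) ⊕ Bool :=
  Fin.snoc (α := fun _ => (Fin μ ⊕ Unit) ⊕ Bool) (fun j => Sum.inl (Sum.inl j)) (Sum.inr b)

private theorem GadStart_last (μ : ℕ) (b : Bool) : GadStart_e μ b (Fin.last μ) = Sum.inr b := by
  unfold GadStart_e
  rw [Fin.snoc_last]

private theorem GadStart_cast (μ : ℕ) (b : Bool) (j : Fin μ) :
    GadStart_e μ b j.castSucc = Sum.inl (Sum.inl j) := by
  unfold GadStart_e
  rw [Fin.snoc_castSucc]

private theorem GadStart_inj (μ : ℕ) (b : Bool) : Function.Injective (GadStart_e μ b) := by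
  intro i j
  refine Fin.lastCases ?_ (fun i => ?_) i
  · refine Fin.lastCases ?_ (fun j => ?_) j
    · intro _
      rfl
    · rw [GadStart_last, GadStart_cast]
      intro h
      exact absurd h (by simp)
  · refine Fin.lastCases ?_ (fun j => ?_) j
    · rw [GadStart_last, GadStart_cast]
      intro h
      exact absurd h (by simp)
    · rw [GadStart_cast, GadStart_cast]
      intro h
      rw [Sum.inl.inj (Sum.inl.inj h)]

private theorem GadStart_im (μ : ℕ) (b : Bool) :
    im (GadStart_e μ b) = (im (Sum.inl : Fin μ → Fin μ ⊕ Unit)).disjSum {b} := by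
  ext y
  unfold im
  rw [mem_image]
  rcases y with u | z
  · rw [inl_mem_disjSum, mem_image]
    constructor
    · rintro ⟨i, -, hi⟩
      revert hi
      refine Fin.lastCases ?_ (fun i => ?_) i
      · rw [GadStart_last]
        intro h
        exact absurd h (by simp)
      · rw [GadStart_cast]
        intro h
        exact ⟨i, mem_univ _, Sum.inl.inj h⟩
    · rintro ⟨i, -, rfl⟩
      exact ⟨i.castSucc, mem_univ _, GadStart_cast μ b i⟩
  · rw [inr_mem_disjSum, mem_singleton]
    constructor
    · rintro ⟨i, -, hi⟩
      revert hi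
      refine Fin.lastCases ?_ (fun i => ?_) i
      · rw [GadStart_last]
        intro h
        exact (Sum.inr.inj h).symm
      · rw [GadStart_cast]
        intro h
        exact absurd h (by simp)
    · rintro rfl
      exact ⟨Fin.last μ, mem_univ _, GadStart_last μ z⟩

private theorem GadStart_low (μ : ℕ) (a : Fin μ) :
    (KN.low (μ + 1) μ a.castSucc).image (GadStart_e μ true) ∪
        {Sum.inl (Sum.inr ()), Sum.inr true} =
      ((univ : Finset (Fin μ ⊕ Unit)).erase (Sum.inl a)).disjSum {true} := by
  ext y
  rw [mem_union, mem_image]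
  rcases y with u | z
  · rw [inl_mem_disjSum, mem_erase]
    constructor
    · rintro (⟨i, hi, h⟩ | h)
      · revert hi h
        refine Fin.lastCases ?_ (fun i => ?_) i
        · rw [GadStart_last]
          intro _ h
          exact absurd h (by simp)
        · rw [GadStart_cast]
          intro hi h
          refine ⟨?_, mem_univ _⟩
          unfold KN.low at hi
          rw [mem_erase] at hi
          rw [← Sum.inl.inj h]
          intro hia
          exact hi.1 (by rw [Sum.inl.inj hia])
      · rw [mem_insert, mem_singleton] at h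
        rcases h with h | h
        · refine ⟨?_, mem_univ _⟩
          rw [Sum.inl.inj h]
          simp
        · exact absurd h (by simp)
    · rintro ⟨h, -⟩
      rcases u with j | t
      · left
        refine ⟨j.castSucc, ?_, GadStart_cast μ true j⟩
        unfold KN.low
        rw [mem_erase, mem_filter]
        refine ⟨?_, mem_univ _, ?_⟩
        · intro hja
          exact h (by rw [Fin.castSucc_injective μ hja])
        · exact j.isLt
      · right
        rw [mem_insert]
        exact Or.inl rfl
  · rw [inr_mem_disjSum, mem_singleton]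
    constructor
    · rintro (⟨i, hi, h⟩ | h)
      · revert hi h
        refine Fin.lastCases ?_ (fun i => ?_) i
        · intro hi _
          unfold KN.low at hi
          rw [mem_erase, mem_filter] at hi
          exfalso
          have h3 := hi.2.2
          rw [Fin.val_last] at h3
          omega
        · rw [GadStart_cast]
          intro _ h
          exact absurd h (by simp)
      · rw [mem_insert, mem_singleton] at h
        rcases h with h | h
        · exact absurd h (by simp)
        · exact Sum.inr.inj h
    · rintro rfl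
      right
      rw [mem_insert, mem_singleton]
      exact Or.inr rfl

private theorem GadStart_sym (μ : ℕ) (σ : Equiv.Perm ((Fin μ ⊕ Unit) ⊕ Bool))
    (hσ : ∀ u, (∀ j : Fin (μ + 1), j.val < μ → GadStart_e μ true j ≠ u) → σ u = u) :
    ∀ A ∈ bip (simp μ), A.image σ ∈ bip (simp μ) := by
  have hr : ∀ b : Bool, σ (Sum.inr b) = Sum.inr b := by
    intro b
    apply hσ
    intro j
    refine Fin.lastCases ?_ (fun j => ?_) j
    · intro h
      rw [Fin.val_last] at h
      omega
    · intro _
      rw [GadStart_cast]
      simp
  have hl : ∀ u : Fin μ ⊕ Unit, ∃ u', σ (Sum.inl u) = Sum.inl u' := by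
    intro u
    rcases h : σ (Sum.inl u) with u' | b
    · exact ⟨u', rfl⟩
    · exfalso
      rw [← hr b] at h
      exact absurd (σ.injective h) (by simp)
  choose f hf using hl
  have hinj : Function.Injective f := by
    intro u v huv
    have h1 : σ (Sum.inl u) = σ (Sum.inl v) := by rw [hf, hf, huv]
    exact Sum.inl.inj (σ.injective h1)
  intro A hA
  obtain ⟨F, hF, b, rfl⟩ := mem_bip.1 hA
  refine mem_bip.2 ⟨F.image f, ?_, b, ?_⟩
  · unfold simp at hF ⊢
    rw [mem_filter] at hF ⊢
    refine ⟨mem_univ _, ?_⟩
    rw [card_image_of_injective _ hinj]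
    exact hF.2
  · ext y
    rw [mem_image]
    constructor
    · rintro ⟨x, hx, rfl⟩
      rcases x with u | c
      · rw [hf, inl_mem_disjSum, mem_image]
        exact ⟨u, inl_mem_disjSum.1 hx, rfl⟩
      · rw [hr, inr_mem_disjSum]
        exact inr_mem_disjSum.1 hx
    · intro hy
      rcases y with u | c
      · rw [inl_mem_disjSum, mem_image] at hy
        obtain ⟨u', hu', rfl⟩ := hy
        exact ⟨Sum.inl u', inl_mem_disjSum.2 hu', hf u'⟩
      · rw [inr_mem_disjSum] at hy
        exact ⟨Sum.inr c, inr_mem_disjSum.2 hy, hr c⟩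

theorem gadMW_start {μ : ℕ} (h1 : 1 ≤ μ) :
    GadMW (μ + 1) μ ((μ + 1).factorial * (2 * (μ + 1))) := by
  have hcs : Cplx μ (simp μ) := simp_cplx μ h1
  have hcx : Cplx (μ + 1) (bip (simp μ)) := cplx_bip h1 hcs
  refine ⟨(Fin μ ⊕ Unit) ⊕ Bool, inferInstance, inferInstance, bip (simp μ),
    GadStart_e μ true, GadStart_e μ false, {Sum.inl (Sum.inr ()), Sum.inr true}, ?_⟩
  constructor
  · exact hcx
  · exact GadStart_inj μ true
  · exact GadStart_inj μ false
  · rw [GadStart_im]
    exact isSx_bip (simp_F0 μ) true
  · rw [GadStart_im]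
    exact isSx_bip (simp_F0 μ) false
  · rw [GadStart_im, GadStart_im]
    intro h
    have h2 : Sum.inr true ∈ (im (Sum.inl : Fin μ → Fin μ ⊕ Unit)).disjSum {true} :=
      inr_mem_disjSum.2 (mem_singleton_self _)
    rw [← h, inr_mem_disjSum, mem_singleton] at h2
    exact absurd h2 (by decide)
  · intro j
    refine Fin.lastCases ?_ (fun j => ?_) j
    · intro h
      rw [Fin.val_last] at h
      omega
    · intro _
      rw [GadStart_cast, GadStart_cast]
  · exact fun σ hσ => GadStart_sym μ σ hσ
  · rw [card_pair (by simp)]
    omega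
  · intro j
    refine Fin.lastCases ?_ (fun j => ?_) j
    · intro h
      rw [Fin.val_last] at h
      omega
    · intro _
      rw [GadStart_cast, mem_insert, mem_singleton]
      rintro (h | h)
      · exact absurd h (by simp)
      · exact absurd h (by simp)
  · refine ⟨Sum.inl (Sum.inr ()), by rw [mem_insert]; exact Or.inl rfl, ?_⟩
    intro j
    refine Fin.lastCases ?_ (fun j => ?_) j
    · rw [GadStart_last]
      simp
    · rw [GadStart_cast]
      simp
  · intro a
    refine Fin.lastCases ?_ (fun a => ?_) a
    · intro h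
      rw [Fin.val_last] at h
      omega
    · intro _
      rw [GadStart_low]
      refine isSx_bip (simp_sx μ _ ?_) true
      unfold simp
      rw [mem_filter]
      refine ⟨mem_univ _, ?_⟩
      rw [card_erase_of_mem (mem_univ _), card_univ, Fintype.card_sum, Fintype.card_fin]
      simp
  · rintro (v | b)
    · rw [deg_bip_inl, simp_deg]
      omega
    · rw [deg_bip_inr, simp_card]
  · rw [Fintype.card_sum, Fintype.card_sum, Fintype.card_bool, Fintype.card_fin]
    simp
  · rw [card_bip, simp_card]
    omega
  · rw [fl_bip h1 hcs hcx, simp_fl μ h1]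
    ring

end H63.KN
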