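import Pool.Agent.H63.KN.Defs
import Pool.Agent.H47.KO.Ren
import Pool.Agent.H47.KO.PyrCx

/-! # KN.JoinA : the join with a simplex as an iterated pyramid; complex, flags, simplex facets

`mem_joinF`: unfold. `joinF_succ`: the facets of `pyr (joinF 𝓕 m)` are `univ.disjSum ∅` (renamed: `univ.disjSum (univ.erase (Fin.last m))`) and `B.disjSum univ` for `B = F.disjSum univ` (renamed: `F.disjSum univ`) or `B = univ.disjSum (univ.erase j)` (renamed: `univ.disjSum (univ.erase j.castSucc)`);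
every `j : Fin (m + 1)` is `Fin.last m` or a `castSucc` (`Fin.lastCases`). `joinF_zero`: `univ : Finset (Fin 0)` is empty, `(Equiv.sumEmpty V (Fin 0)).symm v = inl v`.
Then by induction on `m`: `cplx_join` (`cplx_pyr`, `cplx_ren`), `fl_join` (`fl_pyr`, `fl_ren`: `fl (m + 1) = (D + m + 2) * fl m`, `(D + 1 + (m + 1))! = (D + m + 2) * (D + 1 + m)!`), `isSx_join` (`isSx_pyr`, `isSx_ren`; `(F.disjSum univ).disjSum univ` renamed is `F.disjSum univ`). -/

namespace H63.KN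

open Finset H47.KO

variable {V : Type} [Fintype V] [DecidableEq V] {D : ℕ} {𝓕 : Finset (Finset V)}

private theorem joinA_img {α β : Type} [DecidableEq β] (e : α ≃ β)
    (S : Finset α) (T : Finset β) (h : ∀ a, a ∈ S ↔ e a ∈ T) : S.image e = T := by
  ext b
  rw [mem_image]
  constructor
  · rintro ⟨a, ha, rfl⟩
    exact (h a).1 ha
  · intro hb
    refine ⟨e.symm b, (h _).2 ?_, e.apply_symm_apply b⟩
    rw [e.apply_symm_apply]
    exact hb

theorem mem_joinF {m : ℕ} {B : Finset (V ⊕ Fin m)} : B ∈ joinF 𝓕 m ↔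
    (∃ F ∈ 𝓕, B = F.disjSum univ) ∨ ∃ j : Fin m, B = univ.disjSum (univ.erase j) := by
  unfold joinF
  rw [mem_union, mem_image, mem_image]
  constructor
  · rintro (⟨F, hF, rfl⟩ | ⟨j, -, rfl⟩)
    · exact Or.inl ⟨F, hF, rfl⟩
    · exact Or.inr ⟨j, rfl⟩
  · rintro (⟨F, hF, rfl⟩ | ⟨j, rfl⟩)
    · exact Or.inl ⟨F, hF, rfl⟩
    · exact Or.inr ⟨j, mem_univ _, rfl⟩

private theorem joinA_e1 (m : ℕ) (F : Finset V) :
    ((F.disjSum (univ : Finset (Fin m))).disjSum (univ : Finset Unit)).image (joinEquiv V m)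
      = F.disjSum univ := by
  refine joinA_img _ _ _ ?_
  rintro ((v | j) | u)
  · show _ ↔ (Sum.inl v : V ⊕ Fin (m + 1)) ∈ _
    simp
  · show _ ↔ (Sum.inr j.castSucc : V ⊕ Fin (m + 1)) ∈ _
    simp
  · show _ ↔ (Sum.inr (Fin.last m) : V ⊕ Fin (m + 1)) ∈ _
    simp

private theorem joinA_e2 (m : ℕ) (j : Fin m) :
    (((univ : Finset V).disjSum ((univ : Finset (Fin m)).erase j)).disjSum
      (univ : Finset Unit)).image (joinEquiv V m)
      = univ.disjSum (univ.erase j.castSucc) := by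
  refine joinA_img _ _ _ ?_
  rintro ((v | i) | u)
  · show _ ↔ (Sum.inl v : V ⊕ Fin (m + 1)) ∈ _
    simp
  · show _ ↔ (Sum.inr i.castSucc : V ⊕ Fin (m + 1)) ∈ _
    simp
  · show _ ↔ (Sum.inr (Fin.last m) : V ⊕ Fin (m + 1)) ∈ _
    have : Fin.last m ≠ j.castSucc := (Fin.castSucc_lt_last j).ne'
    simp [this]

private theorem joinA_e3 (m : ℕ) :
    ((univ : Finset (V ⊕ Fin m)).disjSum (∅ : Finset Unit)).image (joinEquiv V m)
      = univ.disjSum (univ.erase (Fin.last m)) := by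
  refine joinA_img _ _ _ ?_
  rintro ((v | i) | u)
  · show _ ↔ (Sum.inl v : V ⊕ Fin (m + 1)) ∈ _
    simp
  · show _ ↔ (Sum.inr i.castSucc : V ⊕ Fin (m + 1)) ∈ _
    have : i.castSucc ≠ Fin.last m := (Fin.castSucc_lt_last i).ne
    simp [this]
  · show _ ↔ (Sum.inr (Fin.last m) : V ⊕ Fin (m + 1)) ∈ _
    simp

theorem joinF_succ (m : ℕ) : joinF 𝓕 (m + 1) = ren (joinEquiv V m) (pyr (joinF 𝓕 m)) := by
  ext B
  rw [mem_joinF]
  unfold ren
  rw [mem_image]
  constructor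
  · rintro (⟨F, hF, rfl⟩ | ⟨j, rfl⟩)
    · exact ⟨(F.disjSum univ).disjSum univ, mem_pyr.2 (Or.inr ⟨_, mem_joinF.2 (Or.inl ⟨F, hF, rfl⟩),
        rfl⟩), joinA_e1 m F⟩
    · induction j using Fin.lastCases with
      | last => exact ⟨univ.disjSum ∅, mem_pyr.2 (Or.inl rfl), joinA_e3 m⟩
      | cast j =>
        exact ⟨(univ.disjSum (univ.erase j)).disjSum univ,
          mem_pyr.2 (Or.inr ⟨_, mem_joinF.2 (Or.inr ⟨j, rfl⟩), rfl⟩), joinA_e2 m j⟩
  · rintro ⟨C, hC, rfl⟩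
    rcases mem_pyr.1 hC with rfl | ⟨F', hF', rfl⟩
    · exact Or.inr ⟨Fin.last m, joinA_e3 m⟩
    · rcases mem_joinF.1 hF' with ⟨F, hF, rfl⟩ | ⟨j, rfl⟩
      · exact Or.inl ⟨F, hF, joinA_e1 m F⟩
      · exact Or.inr ⟨j.castSucc, joinA_e2 m j⟩

private theorem joinA_e0 (F : Finset V) :
    F.image (Equiv.sumEmpty V (Fin 0)).symm = F.disjSum (univ : Finset (Fin 0)) := by
  refine joinA_img _ _ _ ?_
  intro v
  show _ ↔ (Sum.inl v : V ⊕ Fin 0) ∈ _
  simp

theorem joinF_zero : joinF 𝓕 0 = ren (Equiv.sumEmpty V (Fin 0)).symm 𝓕 := by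
  ext B
  rw [mem_joinF]
  unfold ren
  rw [mem_image]
  constructor
  · rintro (⟨F, hF, rfl⟩ | ⟨j, rfl⟩)
    · exact ⟨F, hF, joinA_e0 F⟩
    · exact j.elim0
  · rintro ⟨F, hF, rfl⟩
    exact Or.inl ⟨F, hF, joinA_e0 F⟩

theorem cplx_join (hD : 1 ≤ D) (h : Cplx D 𝓕) (m : ℕ) : Cplx (D + m) (joinF 𝓕 m) := by
  induction m with
  | zero => rw [joinF_zero]; exact (cplx_ren _).2 h
  | succ m ih =>
    rw [joinF_succ]
    exact (cplx_ren _).2 (cplx_pyr (D := D + m) (by omega) ih)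

theorem fl_join (hD : 1 ≤ D) (h : Cplx D 𝓕) (m : ℕ) :
    fl (CLat (joinF 𝓕 m)) * (D + 1).factorial = (D + 1 + m).factorial * fl (CLat 𝓕) := by
  induction m with
  | zero => rw [joinF_zero, fl_ren, Nat.add_zero, mul_comm]
  | succ m ih =>
    rw [joinF_succ, fl_ren, fl_pyr (D := D + m) (by omega) (cplx_join hD h m), mul_assoc, ih]
    have e : D + 1 + (m + 1) = (D + 1 + m) + 1 := by omega
    rw [e, Nat.factorial_succ]
    have e2 : D + 1 + m + 1 = D + m + 2 := by omega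
    rw [e2]
    ring

theorem isSx_join {F : Finset V} (hF : IsSx D 𝓕 F) (m : ℕ) :
    IsSx (D + m) (joinF 𝓕 m) (F.disjSum univ) := by
  induction m with
  | zero =>
    rw [joinF_zero, ← joinA_e0]
    exact (isSx_ren _).2 hF
  | succ m ih =>
    rw [joinF_succ, ← joinA_e1]
    exact (isSx_ren _).2 (isSx_pyr ih)

end H63.KN
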