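import Pool.Agent.H63.KN.JoinA

/-! # KN.JoinB : degrees in the join with a simplex

`mem_joinF`; the two kinds of facets are different (`F ≠ univ` for `F ∈ 𝓕`, `univ_nmem`, or by the `inr` part: `univ ≠ univ.erase j`) and injectively parametrised. `inl v` is in all the `univ.disjSum (univ.erase j)` (`m` of them) and in the `F.disjSum univ` with `v ∈ F`.
`inr i` is in all `F.disjSum univ` and in `univ.disjSum (univ.erase j)` for `j ≠ i`. Alternatively by induction with `joinF_succ`. `ss_join`: every vertex lies in a facet `univ.disjSum (univ.erase j)` (for `inr i` choose `j ≠ i`, `2 ≤ m`) with `card V + m - 1 > D + m` elements. -/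

namespace H63.KN

open Finset H47.KO

variable {V : Type} [Fintype V] [DecidableEq V] {D : ℕ} {𝓕 : Finset (Finset V)}

private theorem joinB_inj (m : ℕ) :
    Function.Injective (fun F : Finset V => F.disjSum (univ : Finset (Fin m))) := by
  intro F F' h
  ext v
  have h1 : (Sum.inl v : V ⊕ Fin m) ∈ F.disjSum (univ : Finset (Fin m)) ↔
      (Sum.inl v : V ⊕ Fin m) ∈ F'.disjSum (univ : Finset (Fin m)) := by
    have h2 : F.disjSum (univ : Finset (Fin m)) = F'.disjSum univ := h
    rw [h2]
  rwa [inl_mem_disjSum, inl_mem_disjSum] at h1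

private theorem joinB_inj2 (m : ℕ) :
    Function.Injective (fun j : Fin m => (univ : Finset V).disjSum ((univ : Finset (Fin m)).erase j)) := by
  intro j j' h
  by_contra hne
  have h1 : (Sum.inr j : V ⊕ Fin m) ∈ (univ : Finset V).disjSum ((univ : Finset (Fin m)).erase j) ↔
      (Sum.inr j : V ⊕ Fin m) ∈ (univ : Finset V).disjSum ((univ : Finset (Fin m)).erase j') := by
    have h2 : (univ : Finset V).disjSum ((univ : Finset (Fin m)).erase j) =
      (univ : Finset V).disjSum ((univ : Finset (Fin m)).erase j') := h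
    rw [h2]
  rw [inr_mem_disjSum, inr_mem_disjSum, mem_erase, mem_erase] at h1
  exact (h1.2 ⟨hne, mem_univ _⟩).1 rfl

private theorem joinB_disj (m : ℕ) (F : Finset V) (j : Fin m) :
    F.disjSum (univ : Finset (Fin m)) ≠ univ.disjSum (univ.erase j) := by
  intro h
  have h1 : (Sum.inr j : V ⊕ Fin m) ∈ F.disjSum (univ : Finset (Fin m)) :=
    inr_mem_disjSum.2 (mem_univ _)
  rw [h, inr_mem_disjSum, mem_erase] at h1
  exact h1.1 rfl

theorem card_join (m : ℕ) : (joinF 𝓕 m).card = 𝓕.card + m := by
  unfold joinF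
  rw [card_union_of_disjoint, card_image_of_injective _ (joinB_inj m),
    card_image_of_injective _ (joinB_inj2 m), card_univ, Fintype.card_fin]
  rw [disjoint_left]
  intro B hB hB'
  obtain ⟨F, -, rfl⟩ := mem_image.1 hB
  obtain ⟨j, -, h⟩ := mem_image.1 hB'
  exact joinB_disj m F j h.symm

private theorem joinB_deg (m : ℕ) (x : V ⊕ Fin m) :
    deg (joinF 𝓕 m) x = (𝓕.filter fun F => x ∈ F.disjSum (univ : Finset (Fin m))).card +
      ((univ : Finset (Fin m)).filter fun j => x ∈ (univ : Finset V).disjSum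
        ((univ : Finset (Fin m)).erase j)).card := by
  unfold deg joinF
  rw [filter_union, card_union_of_disjoint, filter_image, filter_image,
    card_image_of_injective _ (joinB_inj m), card_image_of_injective _ (joinB_inj2 m)]
  rw [disjoint_left]
  intro B hB hB'
  obtain ⟨F, -, rfl⟩ := mem_image.1 (mem_filter.1 hB).1
  obtain ⟨j, -, h⟩ := mem_image.1 (mem_filter.1 hB').1
  exact joinB_disj m F j h.symm

theorem deg_join_inl (m : ℕ) (v : V) :
    deg (joinF 𝓕 m) (Sum.inl v) = deg 𝓕 v + m := by
  rw [joinB_deg]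
  congr 1
  · unfold deg
    congr 1
    apply filter_congr
    intro F _
    exact inl_mem_disjSum
  · rw [filter_true_of_mem, card_univ, Fintype.card_fin]
    intro j _
    exact inl_mem_disjSum.2 (mem_univ _)

theorem deg_join_inr (m : ℕ) (i : Fin m) :
    deg (joinF 𝓕 m) (Sum.inr i) + 1 = 𝓕.card + m := by
  rw [joinB_deg, filter_true_of_mem (fun F _ => inr_mem_disjSum.2 (mem_univ _))]
  have h1 : ((univ : Finset (Fin m)).filter fun j => (Sum.inr i : V ⊕ Fin m) ∈
      (univ : Finset V).disjSum ((univ : Finset (Fin m)).erase j)) = univ.erase i := by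
    ext j
    rw [mem_filter, inr_mem_disjSum, mem_erase, mem_erase]
    constructor
    · rintro ⟨-, h, -⟩
      exact ⟨fun e => h e.symm, mem_univ _⟩
    · rintro ⟨h, -⟩
      exact ⟨mem_univ _, fun e => h e.symm, mem_univ _⟩
  rw [h1, card_erase_of_mem (mem_univ _), card_univ, Fintype.card_fin]
  have := i.pos
  omega

theorem ss_join {m : ℕ} (hm : 2 ≤ m) (hV : D + 2 ≤ Fintype.card V) (x : V ⊕ Fin m) :
    ¬ SS (D + m) (joinF 𝓕 m) x := by
  rintro ⟨-, h⟩
  have key : ∃ j : Fin m, x ∈ (univ : Finset V).disjSum ((univ : Finset (Fin m)).erase j) := by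
    rcases x with v | i
    · exact ⟨⟨0, by omega⟩, inl_mem_disjSum.2 (mem_univ _)⟩
    · by_cases hi : i.val = 0
      · refine ⟨⟨1, by omega⟩, inr_mem_disjSum.2 (mem_erase.2 ⟨?_, mem_univ _⟩)⟩
        intro e
        rw [e] at hi
        exact absurd hi (by norm_num)
      · refine ⟨⟨0, by omega⟩, inr_mem_disjSum.2 (mem_erase.2 ⟨?_, mem_univ _⟩)⟩
        intro e
        exact hi (by rw [e])
  obtain ⟨j, hj⟩ := key
  have h1 := h _ (mem_joinF.2 (Or.inr ⟨j, rfl⟩)) hj
  rw [card_disjSum, card_erase_of_mem (mem_univ _), card_univ, card_univ, Fintype.card_fin] at h1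
  omega

end H63.KN
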