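import Pool.Agent.H63.KN.JoinB

/-! # KN.JoinG : the join of a good system with a simplex, and its handle of type `m` (paper D2)

`goodP_join`: `cx`: `cplx_join`; `inv`: `(F.disjSum univ).image = (F.image (act g)).disjSum univ`, `(univ.disjSum (univ.erase j)).image = univ.disjSum (univ.erase (π j))`; `inj`: `V` is nonempty?? not needed: `act` is injective and the second factor acts faithfully on `Fin m`; `deg`: `deg_join_inl`, `deg_join_inr`;
`cF`: `card_join`; `cW`: `W.card + m + 4 = D + m`; `core`: `C.image (inl ∘ κ) ∪ W.disjSum univ = (C.image κ ∪ W).disjSum univ`; `core0`: `isSx_join`; `rκ`, `rW`: `actJoin act m (r, 1)`.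
`joinE e i : Fin (D + m) → V ⊕ Fin m`: the first `m` positions are the new vertices, the others the old enumeration; `im = (im (e i)).disjSum univ`. `hd_join`: from a handle of type `0`. `fact`: from `fact` and `univ.image π = univ`. `gact`: position `m ≤ j`: `gact` of the old handle (`0 ≤ _`).
`hfull_join`: `σ` fixes all `j ≥ m`, so restricts to a permutation `π` of the first `m` positions; the old `HFull 0` with `1` gives `g` with `aι g i = i'`, `act g (e i j) = e i' j`; take `(g, π)`. -/

namespace H63.KN

open Finset H47.KO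

variable {V G ι : Type} [Fintype V] [DecidableEq V] [Group G] {D : ℕ}
  {𝓕 : Finset (Finset V)} {act : G →* Equiv.Perm V} {r : G} {κ : Fin 11 → V} {W : Finset V}
  {e : ι → Fin D → V} {aι : G →* Equiv.Perm ι}

/-- the enumeration of the joined facet: first the new vertices -/
def joinE {V : Type} {D : ℕ} (m : ℕ) (e : Fin D → V) : Fin (D + m) → V ⊕ Fin m := fun j =>
  if h : j.val < m then Sum.inr ⟨j.val, h⟩ else Sum.inl (e ⟨j.val - m, by omega⟩)

omit [Fintype V] [DecidableEq V] in
private theorem joinG_actl {m : ℕ} (g : G × Equiv.Perm (Fin m)) (v : V) :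
    actJoin act m g (Sum.inl v) = Sum.inl (act g.1 v) := rfl

omit [Fintype V] [DecidableEq V] in
private theorem joinG_actr {m : ℕ} (g : G × Equiv.Perm (Fin m)) (x : Fin m) :
    actJoin act m g (Sum.inr x : V ⊕ Fin m) = Sum.inr (g.2 x) := rfl

omit [Fintype V] in
private theorem joinG_image {m : ℕ} (g : G × Equiv.Perm (Fin m)) (F : Finset V)
    (T : Finset (Fin m)) :
    (F.disjSum T).image (actJoin act m g) = (F.image (act g.1)).disjSum (T.image g.2) := by
  ext x
  rcases x with v | x
  · simp only [mem_image, Finset.inl_mem_disjSum]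
    constructor
    · rintro ⟨y, hy, h⟩
      rcases y with w | w
      · rw [joinG_actl] at h
        exact ⟨w, Finset.inl_mem_disjSum.1 hy, Sum.inl_injective h⟩
      · rw [joinG_actr] at h
        exact absurd h (by simp)
    · rintro ⟨w, hw, h⟩
      exact ⟨Sum.inl w, Finset.inl_mem_disjSum.2 hw, by rw [joinG_actl, h]⟩
  · simp only [mem_image, Finset.inr_mem_disjSum]
    constructor
    · rintro ⟨y, hy, h⟩
      rcases y with w | w
      · rw [joinG_actl] at h
        exact absurd h (by simp)
      · rw [joinG_actr] at h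
        exact ⟨w, Finset.inr_mem_disjSum.1 hy, Sum.inr_injective h⟩
    · rintro ⟨w, hw, h⟩
      exact ⟨Sum.inr w, Finset.inr_mem_disjSum.2 hw, by rw [joinG_actr, h]⟩

omit [Fintype V] in
private theorem joinG_core {m : ℕ} (C : Finset (Fin 11)) :
    C.image (fun i => (Sum.inl (κ i) : V ⊕ Fin m)) ∪ W.disjSum univ =
      (C.image κ ∪ W).disjSum univ := by
  ext x
  rcases x with v | x
  · simp
  · simp

omit [Fintype V] [DecidableEq V] in
private theorem joinG_inj {m : ℕ} {A B : Finset V}
    (h : A.disjSum (univ : Finset (Fin m)) = B.disjSum univ) : A = B := by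
  ext v
  have := Finset.ext_iff.1 h (Sum.inl v)
  simpa using this

private theorem joinG_perm_univ {X : Type} [Fintype X] [DecidableEq X] (σ : Equiv.Perm X) :
    (univ : Finset X).image σ = univ := by
  ext x
  simp only [mem_image, mem_univ, true_and, iff_true]
  exact σ.surjective x

private theorem joinG_perm_erase {X : Type} [Fintype X] [DecidableEq X] (σ : Equiv.Perm X)
    (j : X) : ((univ : Finset X).erase j).image σ = univ.erase (σ j) := by
  rw [Finset.image_erase σ.injective, joinG_perm_univ]

theorem goodP_join (h : GoodP D 𝓕 act r κ W) (m : ℕ) :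
    GoodP (D + m) (joinF 𝓕 m) (actJoin act m) (r, 1) (fun i => Sum.inl (κ i))
      (W.disjSum univ) := by
  refine
    { four := by have := h.four; omega
      cx := cplx_join (by have := h.four; omega) h.cx m
      inv := ?_
      inj := ?_
      deg := ?_
      cF := ?_
      cW := ?_
      κinj := fun i j hij => h.κinj (Sum.inl_injective hij)
      κW := fun i hi => h.κW i (Finset.inl_mem_disjSum.1 hi)
      core := ?_
      core0 := ?_
      rκ := fun i => by rw [joinG_actl, h.rκ i]
      rW := ?_ }
  · intro g F hF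
    rcases mem_joinF.1 hF with ⟨F', hF', rfl⟩ | ⟨j, rfl⟩
    · rw [joinG_image, joinG_perm_univ]
      exact mem_joinF.2 (Or.inl ⟨_, h.inv g.1 F' hF', rfl⟩)
    · rw [joinG_image, joinG_perm_univ, joinG_perm_erase]
      exact mem_joinF.2 (Or.inr ⟨g.2 j, rfl⟩)
  · intro g g' hg
    have h1 : act g.1 = act g'.1 := by
      refine Equiv.ext fun v => ?_
      have := congrArg (fun s : Equiv.Perm (V ⊕ Fin m) => s (Sum.inl v)) hg
      exact Sum.inl_injective this
    have h2 : g.2 = g'.2 := by
      refine Equiv.ext fun v => ?_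
      have := congrArg (fun s : Equiv.Perm (V ⊕ Fin m) => s (Sum.inr v)) hg
      exact Sum.inr_injective this
    exact Prod.ext (h.inj h1) h2
  · intro v
    rcases v with v | i
    · rw [deg_join_inl]
      have := h.deg v
      omega
    · have h1 := deg_join_inr (𝓕 := 𝓕) m i
      have h2 := h.cF
      omega
  · rw [card_join]
    have := h.cF
    omega
  · rw [Finset.card_disjSum, Finset.card_univ, Fintype.card_fin]
    have := h.cW
    omega
  · intro C hC
    rw [joinG_core]
    exact mem_joinF.2 (Or.inl ⟨_, h.core C hC, rfl⟩)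
  · rw [joinG_core]
    exact isSx_join h.core0 m
  · intro w hw
    rcases w with w | w
    · rw [joinG_actl, h.rW w (Finset.inl_mem_disjSum.1 hw)]
    · rw [joinG_actr]
      rfl

omit [Fintype V] [DecidableEq V] in
private theorem joinE_low {m : ℕ} (f : Fin D → V) (j : Fin (D + m)) (hj : j.val < m) :
    joinE m f j = Sum.inr ⟨j.val, hj⟩ := by
  unfold joinE
  rw [dif_pos hj]

omit [Fintype V] [DecidableEq V] in
private theorem joinE_high {m : ℕ} (f : Fin D → V) (j : Fin (D + m)) (hj : m ≤ j.val) :
    joinE m f j = Sum.inl (f ⟨j.val - m, by omega⟩) := by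
  unfold joinE
  rw [dif_neg (by omega)]

omit [Fintype V] in
private theorem joinG_im (m : ℕ) (f : Fin D → V) :
    im (joinE m f) = (im f).disjSum univ := by
  unfold im
  ext x
  rcases x with v | x
  · simp only [mem_image, mem_univ, true_and, Finset.inl_mem_disjSum]
    constructor
    · rintro ⟨j, hj⟩
      by_cases h : j.val < m
      · rw [joinE_low f j h] at hj
        exact absurd hj (by simp)
      · rw [joinE_high f j (by omega)] at hj
        exact ⟨_, Sum.inl_injective hj⟩
    · rintro ⟨j, hj⟩
      refine ⟨⟨j.val + m, by omega⟩, ?_⟩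
      rw [joinE_high f _ (by simp)]
      rw [← hj]
      congr 2
      exact Fin.ext (by simp)
  · simp only [mem_image, mem_univ, true_and, Finset.inr_mem_disjSum, iff_true]
    refine ⟨⟨x.val, by omega⟩, ?_⟩
    rw [joinE_low f _ x.isLt]

theorem hd_join (h : Hd D 0 𝓕 act κ W e aι) (m : ℕ) :
    Hd (D + m) m (joinF 𝓕 m) (actJoin act m) (fun i => Sum.inl (κ i)) (W.disjSum univ)
      (fun i => joinE m (e i)) (aι.comp (MonoidHom.fst G (Equiv.Perm (Fin m)))) := by
  refine
    { inj := ?_
      sx := fun i => by rw [joinG_im]; exact isSx_join (h.sx i) m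
      dist := ?_
      core := ?_
      fact := ?_
      gact := ?_ }
  · intro i j j' hj
    by_cases h1 : j.val < m <;> by_cases h2 : j'.val < m
    · rw [joinE_low _ j h1, joinE_low _ j' h2] at hj
      have := Fin.mk.inj (Sum.inr_injective hj)
      exact Fin.ext this
    · rw [joinE_low _ j h1, joinE_high _ j' (by omega)] at hj
      exact absurd hj (by simp)
    · rw [joinE_low _ j' h2, joinE_high _ j (by omega)] at hj
      exact absurd hj (by simp)
    · rw [joinE_high _ j' (by omega), joinE_high _ j (by omega)] at hj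
      have := Fin.mk.inj (h.inj i (Sum.inl_injective hj))
      exact Fin.ext (by omega)
  · intro i j hij
    rw [joinG_im, joinG_im] at hij
    exact h.dist i j (joinG_inj hij)
  · intro i C hC hij
    rw [joinG_im, joinG_core] at hij
    exact h.core i C hC (joinG_inj hij)
  · intro g i
    rw [joinG_im, joinG_image, joinG_perm_univ, h.fact g.1 i, joinG_im]
    rfl
  · intro g i j hj
    rw [joinE_high _ j hj, joinE_high _ j hj, joinG_actl, h.gact g.1 i _ (Nat.zero_le _)]
    rfl

omit [Fintype V] [DecidableEq V] in
theorem hfull_join (h : HFull 0 act e aι) (m : ℕ) :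
    HFull m (actJoin act m) (fun i => joinE m (e i))
      (aι.comp (MonoidHom.fst G (Equiv.Perm (Fin m)))) := by
  intro i i' σ hσ
  have hlow : ∀ (τ : Equiv.Perm (Fin (D + m))), (∀ j : Fin (D + m), m ≤ j.val → τ j = j) →
      ∀ j : Fin (D + m), j.val < m → (τ j).val < m := by
    intro τ hτ j hj
    by_contra hc
    have h1 := hτ (τ j) (by omega)
    have h2 := τ.injective h1
    rw [h2] at hc
    exact hc hj
  have hσ' : ∀ j : Fin (D + m), m ≤ j.val → σ.symm j = j := by
    intro j hj
    rw [Equiv.symm_apply_eq, hσ j hj]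
  let π : Equiv.Perm (Fin m) :=
    { toFun := fun x => ⟨(σ ⟨x.val, by omega⟩).val, hlow σ hσ _ x.isLt⟩
      invFun := fun x => ⟨(σ.symm ⟨x.val, by omega⟩).val, hlow σ.symm hσ' _ x.isLt⟩
      left_inv := fun x => by simp
      right_inv := fun x => by simp }
  obtain ⟨g, hg1, hg2⟩ := h i i' 1 (fun _ _ => rfl)
  refine ⟨(g, π), hg1, fun j => ?_⟩
  by_cases hj : j.val < m
  · have hj' := hlow σ hσ j hj
    simp only
    rw [joinE_low _ j hj, joinG_actr, joinE_low _ (σ j) hj']
    rfl
  · simp only
    rw [joinE_high _ j (by omega), joinG_actl, hσ j (by omega), joinE_high _ j (by omega)]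
    exact congrArg Sum.inl (hg2 _)

end H63.KN
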