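import Pool.Agent.H63.KN.SnEnd
import Pool.Agent.H47.KO.NonR

/-! # KN.NotRP : `PreP D μ k` gives a pair without property (R) (glue; compare `H47.KO.FinR`, `H47.KO.NonR`) -/

namespace H63.KN

open Finset H47.KO KOrbit

theorem not_R_P {D k : ℕ} (h : ExactP D k) : ¬ PropertyR k D := by
  obtain ⟨V, G, _, _, _, _, 𝓕, act, r, κ, W, hg, hex, hk⟩ := h
  intro hR
  have hD : 1 ≤ D := by have := hg.four; omega
  obtain ⟨Q, hQ, ⟨e⟩⟩ := exists_polytope hD hg.cx
  have horb := orb_mul hD hg.cx act hg.inv hg.inj hex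
  have hpow : 0 < Fintype.card G := Fintype.card_pos
  have hL : Nat.card (MulAction.orbitRel.Quotient (CLat 𝓕 ≃o CLat 𝓕) (Flag (CLat 𝓕))) = k := by
    rw [hk] at horb
    exact Nat.eq_of_mul_eq_mul_left hpow horb
  have hcomb : ∀ (Q : Set (Euc D)), Nonempty (CLat 𝓕 ≃o Face Q) → combOrbits Q = k := by
    rintro Q ⟨e⟩
    rw [← hL]
    exact (orb_congr e).symm
  obtain ⟨Q', hQ', ⟨e'⟩, hk'⟩ := hR Q hQ (hcomb Q ⟨e⟩)
  let ψ : CLat 𝓕 ≃o Face Q' := e.trans e'
  obtain ⟨θ, hθ⟩ := exists_autOf (act r) (hg.inv r)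
  let θ' : Face Q' ≃o Face Q' := ψ.symm.trans (θ.trans ψ)
  obtain ⟨g, -, hg2⟩ := isometry_of_auto Q' hQ' (by rw [hk', hcomb Q' ⟨ψ⟩]) θ'
  obtain ⟨s, a, A, h0, h1, hA⟩ := lin_data hD hg.cx Q' hQ' ψ (act r) θ hθ g (by
    intro A
    have := hg2 (ψ A)
    rw [← this]
    show _ = ((ψ (θ (ψ.symm (ψ A))) : Face Q') : Set (Euc D))
    rw [OrderIso.symm_apply_apply])
  refine core_lin (D := D) (𝓕 := 𝓕) ?_ s a h0 h1 A (act r) hA κ W hg.cW hg.κinj hg.κW hg.core
    hg.core0 hg.rκ hg.rW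
  rw [Module.finrank_prod, finrank_euclideanSpace, Fintype.card_fin, Module.finrank_self]

/-- `t` stackings -/
theorem sn_run {D μ k : ℕ} (hμ : μ < D) (h : PreP D μ k) (t : ℕ) :
    ∃ (V G ι : Type) (_ : Fintype V) (_ : DecidableEq V) (_ : Group G) (_ : Fintype G)
      (_ : Fintype ι) (_ : DecidableEq ι) (_ : Nonempty ι)
      (𝓕 : Finset (Finset V)) (act : G →* Equiv.Perm V) (r : G)
      (κ : Fin 11 → V) (W : Finset V) (e : ι → Fin D → V) (aι : G →* Equiv.Perm ι),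
      SnkP D μ t 𝓕 act r κ W e aι ∧ Fintype.card ι * μ.factorial = Fintype.card G ∧
      fl (CLat 𝓕) = Fintype.card G * (k + t * ((D - 1) * (D.factorial / μ.factorial))) := by
  induction t with
  | zero =>
    obtain ⟨V, G, ι, _, _, _, _, _, _, _, 𝓕, act, r, κ, W, e, aι, -, hg, hh, hf, hc, hs, hfl⟩ := h
    refine ⟨V, G, ι, inferInstance, inferInstance, inferInstance, inferInstance, inferInstance,
      inferInstance, inferInstance, 𝓕, act, r, κ, W, e, aι,
      ⟨hμ, hg, hh, hf, fun v hv => absurd hv (hs v), fun i j h1 h2 => absurd h2 (by omega),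
        fun i i' j h1 h2 => absurd h2 (by omega), fun i j _ => ?_⟩, hc, by simpa using hfl⟩
    have := hg.deg (e i j)
    omega
  | succ t ih =>
    obtain ⟨V, G, ι, _, _, _, _, _, _, _, 𝓕, act, r, κ, W, e, aι, hS, hc, hfl⟩ := ih
    refine ⟨V ⊕ (ι × Unit), G, ι, inferInstance, inferInstance, inferInstance, inferInstance,
      inferInstance, inferInstance, inferInstance, _, _, r, _, _, _, aι, sn_step hS, hc, ?_⟩
    obtain ⟨q, hq⟩ := Nat.factorial_dvd_factorial hμ.le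
    have hpos : 0 < μ.factorial := Nat.factorial_pos _
    rw [sn_fl hS, hfl, hq, Nat.mul_div_cancel_left _ hpos, ← hc]
    ring

theorem exactP_of_preP {D μ k : ℕ} (hμ : μ < D) (h : PreP D μ k) :
    ExactP D (k + (D - μ + 1) * ((D - 1) * (D.factorial / μ.factorial))) := by
  obtain ⟨V, G, ι, _, _, _, _, _, _, _, 𝓕, act, r, κ, W, e, aι, hS, hc, hfl⟩ := sn_run hμ h (D - μ)
  refine ⟨V ⊕ (ι × Unit), G, inferInstance, inferInstance, inferInstance, inferInstance, _, _, r,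
    _, _, sn_good hS, sn_exact hS, ?_⟩
  obtain ⟨q, hq⟩ := Nat.factorial_dvd_factorial hμ.le
  have hpos : 0 < μ.factorial := Nat.factorial_pos _
  rw [sn_fl hS, hfl, hq, Nat.mul_div_cancel_left _ hpos, ← hc]
  ring

theorem not_R_of_preP {D μ k : ℕ} (hμ : μ < D) (h : PreP D μ k) :
    ¬ PropertyR (k + (D - μ + 1) * ((D - 1) * (D.factorial / μ.factorial))) D :=
  not_R_P (exactP_of_preP hμ h)

end H63.KN
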