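import Pool.Agent.H63.KN.Defs

/-! # KN.NumA : the contributions

`wfl μ w = μ! * (2 * (μ+1)^2 * yprod)`; `D = μ + 1 + w.length`; `μ! ∣ D!`. `yprod_ge`: every factor is `≥ j + 2`, so `(s + w.length + 1)! ≤ (s + 1)! * yprod s w` (induction on `w`: `(s + 2) * (s+1)! = (s+2)!`). With `s = μ + 1`: `(μ + n + 2)! ≤ (μ + 2)! * y`, so
`D! * (μ + n + 2) ≤ (μ + 2) * (μ + 1) * μ! * y` (`D = μ + n + 1`), and `(μ + 2) ≤ (μ + 1) * (μ + n + 2)`, strict for `1 ≤ μ`: gives `D! < (μ+1)^2 μ! y` resp. `≤`. `con_cast`: the integer form.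
`yprod_le`: all factors are `≤ 2 (s + w.length)`. -/

namespace H63.KN

theorem yprod_ge : ∀ (w : List Bool) (s : ℕ),
    (s + w.length + 1).factorial ≤ (s + 1).factorial * yprod s w := by
  intro w
  induction w with
  | nil => intro s; simp [yprod]
  | cons b w ih =>
    intro s
    have h1 := ih (s + 1)
    have e : s + (b :: w).length + 1 = s + 1 + w.length + 1 := by
      rw [List.length_cons]; omega
    have h2 : s + 2 ≤ (if b then 2 * (s + 1) else s + 2) := by
      split_ifs <;> omega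
    rw [e]
    refine h1.trans ?_
    have h3 : (s + 1 + 1).factorial = (s + 2) * (s + 1).factorial := Nat.factorial_succ _
    rw [h3, yprod]
    calc (s + 2) * (s + 1).factorial * yprod (s + 1) w
        ≤ (if b then 2 * (s + 1) else s + 2) * (s + 1).factorial * yprod (s + 1) w :=
          Nat.mul_le_mul_right _ (Nat.mul_le_mul_right _ h2)
      _ = (s + 1).factorial * ((if b then 2 * (s + 1) else s + 2) * yprod (s + 1) w) := by ring

theorem yprod_le : ∀ (w : List Bool) (s : ℕ), yprod s w ≤ (2 * (s + w.length)) ^ w.length := by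
  intro w
  induction w with
  | nil => intro s; simp [yprod]
  | cons b w ih =>
    intro s
    have h2 : (if b then 2 * (s + 1) else s + 2) ≤ 2 * (s + (b :: w).length) := by
      rw [List.length_cons]
      split_ifs <;> omega
    have e : s + 1 + w.length = s + (b :: w).length := by
      rw [List.length_cons]; omega
    have h1 := ih (s + 1)
    rw [e] at h1
    rw [yprod, List.length_cons, pow_succ, mul_comm]
    rw [List.length_cons] at h1 h2
    exact Nat.mul_le_mul h1 h2

private theorem NumA_pos (w : List Bool) (s : ℕ) : 0 < yprod s w := by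
  have h := yprod_ge w s
  by_contra hc
  have h0 : yprod s w = 0 := by omega
  rw [h0, mul_zero] at h
  exact absurd h (not_le.2 (Nat.factorial_pos _))

private theorem NumA_aux (μ : ℕ) (w : List Bool) :
    (μ + 1 + w.length).factorial * (μ + w.length + 2) ≤
      (μ + 2) * ((μ + 1) * μ.factorial * yprod (μ + 1) w) := by
  have h := yprod_ge w (μ + 1)
  have e1 : (μ + 1 + w.length + 1).factorial =
      (μ + w.length + 2) * (μ + 1 + w.length).factorial := by
    rw [Nat.factorial_succ]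
    congr 1
    omega
  have e2 : (μ + 1 + 1).factorial = (μ + 2) * ((μ + 1) * μ.factorial) := by
    rw [Nat.factorial_succ, Nat.factorial_succ]
  rw [e1, e2] at h
  calc (μ + 1 + w.length).factorial * (μ + w.length + 2)
      = (μ + w.length + 2) * (μ + 1 + w.length).factorial := mul_comm _ _
    _ ≤ _ := h
    _ = _ := by ring

private theorem NumA_le (μ : ℕ) (w : List Bool) :
    (μ + 1 + w.length).factorial ≤ μ.factorial * ((μ + 1) ^ 2 * yprod (μ + 1) w) := by
  have h := NumA_aux μ w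
  have h2 : μ + 2 ≤ (μ + 1) * (μ + w.length + 2) := by
    have : μ + 2 ≤ μ + w.length + 2 := by omega
    calc μ + 2 ≤ μ + w.length + 2 := this
      _ = 1 * (μ + w.length + 2) := (one_mul _).symm
      _ ≤ (μ + 1) * (μ + w.length + 2) := Nat.mul_le_mul_right _ (by omega)
  have h3 : (μ + 1 + w.length).factorial * (μ + w.length + 2) ≤
      μ.factorial * ((μ + 1) ^ 2 * yprod (μ + 1) w) * (μ + w.length + 2) := by
    refine h.trans ((Nat.mul_le_mul_right _ h2).trans (le_of_eq ?_))
    ring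
  exact Nat.le_of_mul_le_mul_right h3 (by omega)

private theorem NumA_lt (μ : ℕ) (h1 : 1 ≤ μ) (w : List Bool) :
    (μ + 1 + w.length).factorial < μ.factorial * ((μ + 1) ^ 2 * yprod (μ + 1) w) := by
  have h := NumA_aux μ w
  have h2 : μ + 2 < (μ + 1) * (μ + w.length + 2) := by
    have h4 : 2 * (μ + w.length + 2) ≤ (μ + 1) * (μ + w.length + 2) :=
      Nat.mul_le_mul_right _ (by omega)
    omega
  have hY := NumA_pos w (μ + 1)
  have hf := Nat.factorial_pos μ
  have h3 : (μ + 1 + w.length).factorial * (μ + w.length + 2) <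
      μ.factorial * ((μ + 1) ^ 2 * yprod (μ + 1) w) * (μ + w.length + 2) := by
    refine lt_of_le_of_lt h (lt_of_lt_of_eq (Nat.mul_lt_mul_of_pos_right h2 (by positivity)) ?_)
    ring
  exact lt_of_mul_lt_mul_right h3 (Nat.zero_le _)

private theorem NumA_div (μ : ℕ) (n : ℕ) : ∃ q, (μ + 1 + n).factorial = μ.factorial * q ∧
    2 * (μ + 1 + n).factorial / μ.factorial = 2 * q := by
  obtain ⟨q, hq⟩ := Nat.factorial_dvd_factorial (show μ ≤ μ + 1 + n by omega)
  refine ⟨q, hq, ?_⟩
  rw [hq]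
  have : 2 * (μ.factorial * q) = μ.factorial * (2 * q) := by ring
  rw [this]
  exact Nat.mul_div_cancel_left _ (Nat.factorial_pos μ)

private theorem NumA_con (μ : ℕ) (w : List Bool) : ∃ q,
    (μ + 1 + w.length).factorial = μ.factorial * q ∧ q ≤ (μ + 1) ^ 2 * yprod (μ + 1) w ∧
      con μ w = 2 * (μ + 1) ^ 2 * yprod (μ + 1) w - 2 * q := by
  obtain ⟨q, hq, hq2⟩ := NumA_div μ w.length
  refine ⟨q, hq, ?_, ?_⟩
  · have h := NumA_le μ w
    rw [hq] at h
    exact Nat.le_of_mul_le_mul_left h (Nat.factorial_pos μ)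
  · rw [con, hq2]

theorem wfl_eq (μ : ℕ) (w : List Bool) :
    wfl μ w = 2 * (μ + 1 + w.length).factorial + μ.factorial * con μ w := by
  obtain ⟨q, hq, hle, hc⟩ := NumA_con μ w
  obtain ⟨r, hr⟩ := Nat.exists_eq_add_of_le hle
  have h1 : con μ w = 2 * r := by
    rw [hc, mul_assoc, hr]
    omega
  rw [wfl, Nat.factorial_succ, h1, hq]
  calc (μ + 1) * μ.factorial * (2 * (μ + 1)) * yprod (μ + 1) w
      = 2 * μ.factorial * ((μ + 1) ^ 2 * yprod (μ + 1) w) := by ring
    _ = 2 * μ.factorial * (q + r) := by rw [hr]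
    _ = 2 * (μ.factorial * q) + μ.factorial * (2 * r) := by ring

theorem con_pos (μ : ℕ) (h1 : 1 ≤ μ) (w : List Bool) : 1 ≤ con μ w := by
  obtain ⟨q, hq, hle, hc⟩ := NumA_con μ w
  have h := NumA_lt μ h1 w
  rw [hq] at h
  have h2 : q < (μ + 1) ^ 2 * yprod (μ + 1) w := lt_of_mul_lt_mul_left h (Nat.zero_le _)
  rw [hc, mul_assoc]
  omega

/-- for words of the same length the contributions differ as the products -/
theorem con_sub (μ : ℕ) (w w' : List Bool) (h : w.length = w'.length) :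
    (con μ w : ℤ) - con μ w' = 2 * ((μ : ℤ) + 1) ^ 2 * (yprod (μ + 1) w - yprod (μ + 1) w') := by
  obtain ⟨q, hq, hle, hc⟩ := NumA_con μ w
  obtain ⟨q', hq', hle', hc'⟩ := NumA_con μ w'
  have e : q = q' := by
    rw [h] at hq
    rw [hq] at hq'
    exact Nat.eq_of_mul_eq_mul_left (Nat.factorial_pos μ) hq'
  subst e
  rw [hc, hc', mul_assoc 2 ((μ + 1) ^ 2), mul_assoc 2 ((μ + 1) ^ 2),
    Nat.cast_sub (Nat.mul_le_mul_left 2 hle), Nat.cast_sub (Nat.mul_le_mul_left 2 hle')]
  push_cast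
  ring

theorem con_le (μ : ℕ) (w : List Bool) (D : ℕ) (hD : μ + 1 + w.length = D)
    (hw : w.length ≤ 9) : con μ w ≤ 2 * D ^ 2 * (2 * D) ^ 9 := by
  have h1 : con μ w ≤ 2 * (μ + 1) ^ 2 * yprod (μ + 1) w := Nat.sub_le _ _
  have h2 := yprod_le w (μ + 1)
  rw [hD] at h2
  have h3 : (2 * D) ^ w.length ≤ (2 * D) ^ 9 := Nat.pow_le_pow_right (by omega) hw
  have h4 : (μ + 1) ^ 2 ≤ D ^ 2 := Nat.pow_le_pow_left (by omega) 2
  exact h1.trans (Nat.mul_le_mul (Nat.mul_le_mul_left 2 h4) (h2.trans h3))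

end H63.KN
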