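import Pool.Agent.H63.KN.NumA

/-! # KN.NumB : the subgroup generated by the contributions of one type (paper E3)

`gcd_run`: if `c * yprod s w ∈ A` for all words `w` of length `l` then `c * 2 ^ l ∈ A`: induction on `l`: for a fixed tail `w` of length `l`: `c * (s + 2) * Y ∈ A` and `c * (2 * (s + 1)) * Y ∈ A`, so `2 * c * Y = 2 * (..) - (..) ∈ A` (`2 (s+2) - 2 (s+1) = 2`); apply the induction hypothesis with `2 * c`
and `s + 1`.
`con_closure`: `A` the closure, `s = μ + 1`, `c = 2 (μ+1)^2`. By `con_sub` all `c * (yprod s w - yprod s w') ∈ A`. First letter: `true` minus `false` with the same tail: `c * s * yprod (s + 1) v ∈ A` (`2 (s+1) - (s+2) = s`) for all `v` of length `n - 1`, so `c * s * 2^(n-1) ∈ A`.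
Second letter, first letter `b`: `c * y_b * (s + 1) * yprod (s + 2) v ∈ A` for all `v` of length `n - 2`, both `b`: as in `gcd_run` `2 * c * (s + 1) * yprod (s + 2) v ∈ A`, so `c * (s + 1) * 2 ^ (n - 1) ∈ A`. The difference is `c * 2^(n-1) = 2^n (μ+1)^2`. -/

namespace H63.KN

theorem gcd_run (A : AddSubgroup ℤ) : ∀ (l s : ℕ) (c : ℤ),
    (∀ w : List Bool, w.length = l → c * (yprod s w : ℤ) ∈ A) → c * 2 ^ l ∈ A := by
  intro l
  induction l with
  | zero =>
    intro s c h
    have := h [] rfl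
    simpa [yprod] using this
  | succ l ih =>
    intro s c h
    have h1 : ∀ w : List Bool, w.length = l → (c * 2) * (yprod (s + 1) w : ℤ) ∈ A := by
      intro w hw
      have ht := h (true :: w) (by rw [List.length_cons, hw])
      have hf := h (false :: w) (by rw [List.length_cons, hw])
      have h2 := A.sub_mem (A.add_mem hf hf) ht
      have e : c * (yprod s (false :: w) : ℤ) + c * (yprod s (false :: w) : ℤ) -
          c * (yprod s (true :: w) : ℤ) = (c * 2) * (yprod (s + 1) w : ℤ) := by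
        simp only [yprod, if_true, Bool.false_eq_true, if_false]
        push_cast
        ring
      rwa [e] at h2
    have h3 := ih (s + 1) (c * 2) h1
    have e : c * 2 * 2 ^ l = c * 2 ^ (l + 1) := by ring
    rwa [e] at h3

theorem con_closure (μ n : ℕ) (hn : 2 ≤ n) : (2 : ℤ) ^ n * ((μ : ℤ) + 1) ^ 2 ∈
    AddSubgroup.closure ((fun c : ℕ => (c : ℤ)) ''
      {c | ∃ w : List Bool, w.length = n ∧ c = con μ w}) := by
  set A := AddSubgroup.closure ((fun c : ℕ => (c : ℤ)) ''
      {c | ∃ w : List Bool, w.length = n ∧ c = con μ w}) with hA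
  obtain ⟨m, rfl⟩ : ∃ m, n = m + 2 := ⟨n - 2, by omega⟩
  have hmem : ∀ w : List Bool, w.length = m + 2 → (con μ w : ℤ) ∈ A := by
    intro w hw
    exact AddSubgroup.subset_closure ⟨con μ w, ⟨w, hw, rfl⟩, rfl⟩
  set c : ℤ := 2 * ((μ : ℤ) + 1) ^ 2 with hc
  have hdiff : ∀ w w' : List Bool, w.length = m + 2 → w'.length = m + 2 →
      c * ((yprod (μ + 1) w : ℤ) - yprod (μ + 1) w') ∈ A := by
    intro w w' hw hw'
    rw [hc, ← con_sub μ w w' (by rw [hw, hw'])]
    exact A.sub_mem (hmem w hw) (hmem w' hw')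
  -- the first letter
  have h1 : c * ((μ : ℤ) + 1) * 2 ^ (m + 1) ∈ A := by
    apply gcd_run A (m + 1) (μ + 1 + 1)
    intro v hv
    have h := hdiff (true :: v) (false :: v) (by rw [List.length_cons, hv])
      (by rw [List.length_cons, hv])
    have e : c * ((yprod (μ + 1) (true :: v) : ℤ) - yprod (μ + 1) (false :: v)) =
        c * ((μ : ℤ) + 1) * (yprod (μ + 1 + 1) v : ℤ) := by
      simp only [yprod, if_true, Bool.false_eq_true, if_false]
      push_cast
      ring
    rwa [e] at h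
  -- the second letter
  have h2 : ∀ v : List Bool, v.length = m →
      (2 * c * ((μ : ℤ) + 2)) * (yprod (μ + 1 + 1 + 1) v : ℤ) ∈ A := by
    intro v hv
    have hb : ∀ b : Bool, c * (if b then 2 * ((μ : ℤ) + 1 + 1) else (μ : ℤ) + 1 + 2) *
        ((μ : ℤ) + 2) * (yprod (μ + 1 + 1 + 1) v : ℤ) ∈ A := by
      intro b
      have h := hdiff (b :: true :: v) (b :: false :: v) (by simp [hv]) (by simp [hv])
      have e : c * ((yprod (μ + 1) (b :: true :: v) : ℤ) - yprod (μ + 1) (b :: false :: v)) =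
          c * (if b then 2 * ((μ : ℤ) + 1 + 1) else (μ : ℤ) + 1 + 2) *
            ((μ : ℤ) + 2) * (yprod (μ + 1 + 1 + 1) v : ℤ) := by
        cases b
        · simp only [yprod, if_true, Bool.false_eq_true, if_false]
          push_cast
          ring
        · simp only [yprod, if_true, Bool.false_eq_true, if_false]
          push_cast
          ring
      rwa [e] at h
    have ht := hb true
    have hf := hb false
    simp only [if_true, Bool.false_eq_true, if_false] at ht hf
    have h3 := A.sub_mem (A.add_mem hf hf) ht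
    have e : c * ((μ : ℤ) + 1 + 2) * ((μ : ℤ) + 2) * (yprod (μ + 1 + 1 + 1) v : ℤ) +
        c * ((μ : ℤ) + 1 + 2) * ((μ : ℤ) + 2) * (yprod (μ + 1 + 1 + 1) v : ℤ) -
        c * (2 * ((μ : ℤ) + 1 + 1)) * ((μ : ℤ) + 2) * (yprod (μ + 1 + 1 + 1) v : ℤ) =
        (2 * c * ((μ : ℤ) + 2)) * (yprod (μ + 1 + 1 + 1) v : ℤ) := by
      ring
    rwa [e] at h3
  have h3 := gcd_run A m (μ + 1 + 1 + 1) (2 * c * ((μ : ℤ) + 2)) h2
  have h4 := A.sub_mem h3 h1
  have e : 2 * c * ((μ : ℤ) + 2) * 2 ^ m - c * ((μ : ℤ) + 1) * 2 ^ (m + 1) =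
      (2 : ℤ) ^ (m + 2) * ((μ : ℤ) + 1) ^ 2 := by
    rw [hc]
    ring
  rwa [e] at h4

end H63.KN
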