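import Pool.Agent.H63.KN.Defs
import Pool.Agent.H47.KO.PyrCx
import Pool.Agent.H47.KO.GoodPyr

/-! # KN.PyrG : the pyramid over a good system with a handle (paper D4; compare `H47.KO.GoodPyr`)

`goodP_pyr`: as `H47.KO.good_pyr` without `cG`. `hd_pyr`: `im (Fin.snoc (inl ∘ e i) (inr ())) = (im (e i)).disjSum univ` (`isSx_pyr`); the positions `j.val < μ ≤ D` are the same; the last position is fixed by the group. `hfull_pyr`: a permutation `σ` of `Fin (D + 1)` which fixes all `j ≥ μ` fixes the last
position, so it restricts to `Fin D`. -/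

namespace H63.KN

open Finset H47.KO

variable {V G ι : Type} [Fintype V] [DecidableEq V] [Group G] {D μ : ℕ}
  {𝓕 : Finset (Finset V)} {act : G →* Equiv.Perm V} {r : G} {κ : Fin 11 → V} {W : Finset V}
  {e : ι → Fin D → V} {aι : G →* Equiv.Perm ι}

theorem goodP_cardV (h : GoodP D 𝓕 act r κ W) : D + 7 ≤ Fintype.card V := by
  have h1 : Disjoint (univ.image κ) W := by
    rw [Finset.disjoint_left]
    intro v hv
    rw [mem_image] at hv
    obtain ⟨i, _, rfl⟩ := hv
    exact h.κW i
  have h2 := card_union_of_disjoint h1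
  rw [card_image_of_injective _ h.κinj, card_univ, Fintype.card_fin] at h2
  have h3 := card_le_univ (univ.image κ ∪ W)
  have h4 := h.cW
  omega

theorem goodP_pyr (h : GoodP D 𝓕 act r κ W) :
    GoodP (D + 1) (pyr 𝓕) (actSum act 1) r (fun i => Sum.inl (κ i)) (W.disjSum univ) := by
  have h1 : 1 ≤ D := by have := h.four; omega
  refine
    { four := by have := h.four; omega
      cx := cplx_pyr h1 h.cx
      inv := ?_
      inj := ?_
      deg := ?_
      cF := ?_
      cW := ?_
      κinj := Sum.inl_injective.comp h.κinj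
      κW := fun i hi => h.κW i (inl_mem_disjSum.1 hi)
      core := ?_
      core0 := ?_
      rκ := ?_
      rW := ?_ }
  · intro g F hF
    rcases mem_pyr.1 hF with rfl | ⟨F', hF', rfl⟩
    · rw [image_actSum]
      refine mem_pyr.2 (Or.inl ?_)
      rw [image_univ_equiv]
    · rw [image_actSum]
      exact mem_pyr.2 (Or.inr ⟨_, h.inv g F' hF', rfl⟩)
  · intro g g' hg
    refine h.inj (Equiv.ext fun v => ?_)
    have h2 := congrArg (fun σ : Equiv.Perm (V ⊕ Unit) => σ (Sum.inl v)) hg
    exact Sum.inl_injective h2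
  · rintro (v | u)
    · rw [deg_pyr_inl h1 h.cx]
      have := h.deg v
      omega
    · rw [deg_pyr_inr h1 h.cx]
      have := h.cF
      omega
  · rw [card_pyr h1 h.cx]
    have := h.cF
    omega
  · rw [card_disjSum]
    have := h.cW
    simp only [card_univ, Fintype.card_unit]
    omega
  · intro C hC
    rw [image_inl_union]
    exact mem_pyr.2 (Or.inr ⟨_, h.core C hC, rfl⟩)
  · rw [image_inl_union]
    exact isSx_pyr h.core0
  · intro i
    rw [actSum_inl, h.rκ]
  · rintro (v | u) hw
    · rw [actSum_inl, h.rW v (inl_mem_disjSum.1 hw)]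
    · rfl

omit [Fintype V] in
private theorem pyrG_im (e : Fin D → V) :
    im (Fin.snoc (α := fun _ => V ⊕ Unit) (fun j => Sum.inl (e j)) (Sum.inr ())) =
      (im e).disjSum univ := by
  unfold im
  ext x
  rw [mem_image]
  constructor
  · rintro ⟨j, _, rfl⟩
    refine Fin.lastCases ?_ (fun j => ?_) j
    · rw [Fin.snoc_last]
      exact inr_mem_disjSum.2 (mem_univ _)
    · rw [Fin.snoc_castSucc]
      exact inl_mem_disjSum.2 (mem_image_of_mem _ (mem_univ j))
  · intro hx
    rcases x with v | u
    · obtain ⟨j, _, hj⟩ := mem_image.1 (inl_mem_disjSum.1 hx)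
      exact ⟨Fin.castSucc j, mem_univ _, by rw [Fin.snoc_castSucc, hj]⟩
    · exact ⟨Fin.last D, mem_univ _, by rw [Fin.snoc_last]⟩

theorem hd_pyr (h : Hd D μ 𝓕 act κ W e aι) (hμ : μ ≤ D) :
    Hd (D + 1) μ (pyr 𝓕) (actSum act 1) (fun i => Sum.inl (κ i)) (W.disjSum univ)
      (fun i => Fin.snoc (α := fun _ => V ⊕ Unit) (fun j => Sum.inl (e i j)) (Sum.inr ())) aι := by
  refine
    { inj := ?_
      sx := ?_
      dist := ?_
      core := ?_
      fact := ?_
      gact := ?_ }
  · intro i
    rw [Fin.snoc_injective_iff]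
    refine ⟨Sum.inl_injective.comp (h.inj i), ?_⟩
    rintro ⟨j, hj⟩
    cases hj
  · intro i
    rw [pyrG_im]
    exact isSx_pyr (h.sx i)
  · intro i j hij
    rw [pyrG_im, pyrG_im] at hij
    exact h.dist i j (disjSum_univ_inj hij)
  · intro i C hC hg
    rw [pyrG_im, image_inl_union] at hg
    exact h.core i C hC (disjSum_univ_inj hg)
  · intro g i
    rw [pyrG_im, pyrG_im, image_actSum, h.fact]
  · intro g i j
    refine Fin.lastCases ?_ (fun j => ?_) j
    · intro _
      rw [Fin.snoc_last, Fin.snoc_last]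
      rfl
    · intro hj
      rw [Fin.snoc_castSucc, Fin.snoc_castSucc, actSum_inl, h.gact g i j hj]

omit [Fintype V] [DecidableEq V] in
theorem hfull_pyr (h : HFull μ act e aι) (hμ : μ ≤ D) :
    HFull μ (actSum act (1 : G →* Equiv.Perm Unit))
      (fun i => Fin.snoc (α := fun _ => V ⊕ Unit) (fun j => Sum.inl (e i j)) (Sum.inr ())) aι := by
  intro i i' σ hσ
  have hlast : σ (Fin.last D) = Fin.last D := hσ _ (by simpa using hμ)
  have hne : ∀ j : Fin D, σ (Fin.castSucc j) ≠ Fin.last D := by
    intro j hj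
    have := σ.injective (hj.trans hlast.symm)
    exact (Fin.castSucc_lt_last j).ne this
  have hne' : ∀ j : Fin D, σ.symm (Fin.castSucc j) ≠ Fin.last D := by
    intro j hj
    have h2 : Fin.castSucc j = Fin.last D := by
      rw [← hlast, ← hj, Equiv.apply_symm_apply]
    exact (Fin.castSucc_lt_last j).ne h2
  let τ : Equiv.Perm (Fin D) :=
    { toFun := fun j => (σ (Fin.castSucc j)).castPred (hne j)
      invFun := fun j => (σ.symm (Fin.castSucc j)).castPred (hne' j)
      left_inv := fun j => by
        apply Fin.castSucc_injective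
        simp
      right_inv := fun j => by
        apply Fin.castSucc_injective
        simp }
  have hτ : ∀ j, Fin.castSucc (τ j) = σ (Fin.castSucc j) := fun j => by
    change Fin.castSucc ((σ (Fin.castSucc j)).castPred (hne j)) = _
    exact Fin.castSucc_castPred _ _
  obtain ⟨g, hg1, hg2⟩ := h i i' τ (fun j hj => by
    apply Fin.castSucc_injective
    rw [hτ]
    exact hσ _ (by simpa using hj))
  refine ⟨g, hg1, fun j => ?_⟩
  refine Fin.lastCases ?_ (fun j => ?_) j
  · rw [hlast]
    beta_reduce
    rw [Fin.snoc_last, Fin.snoc_last]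
    rfl
  · rw [← hτ]
    beta_reduce
    rw [Fin.snoc_castSucc, Fin.snoc_castSucc, actSum_inl, hg2]

end H63.KN
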