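import Pool.Agent.H63.KN.JoinG
import Pool.Agent.H63.KN.PyrG
import Pool.Agent.H63.KN.BipG
import Pool.Agent.H47.KO.FreeGlue
import Pool.Agent.H47.KO.BipCl

/-! # KN.POps : the operations on `PreP` (paper D1 to D5; glue, see `H47.KO.PreOps` for the pattern)

`preP_of_pre`: `ι = G`, `e = eG act e0`, `aι = actL G`; `GoodP` from `Good`; `Hd` of type `0`: `im (eG act e0 g) = (im e0).image (act g)`, `act g` preserves simplex facets; `dist`, `core` as in `FreeF`; `HFull 0`: `σ = 1`, `g = i' * i⁻¹`. Flags: `card G = 2 ^ ((D + 1) / 2)`.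
`preP_zero_one`: `μ = 0` and `μ = 1` differ only in: `σ` fixes all `j ≥ 1`, so `σ = 1`; `0! = 1!`.
`preP_join`: `card (G × Perm (Fin m)) = card G * m!`, `card ι * 0! = card G`, so `card ι * m! = ..`; `fl_join`, `Nat.choose`: `(D + 1 + m)! = (D+1+m).choose m * m! * (D + 1)!`. `ss_join` with `goodP_cardV`.
`preP_pyr`: `fl_pyr`, `ss_pyr`, `goodP_cardV`. `preP_bip`: `card (G × Perm Bool) = card G * 2`, `card (ι × Bool) = card ι * 2`, `fl_bip` (with `cplx_bip`), `ss_bip`. -/

namespace H63.KN

open Finset H47.KO

private theorem POps_im {V G : Type} [DecidableEq V] [Group G] {D : ℕ} (act : G →* Equiv.Perm V)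
    (e0 : Fin D → V) (g : G) : im (eG act e0 g) = (im e0).image (act g) := by
  unfold im
  rw [image_image]
  rfl

theorem preP_of_pre {D k : ℕ} (h : Pre D k) : PreP D 0 k := by
  obtain ⟨V, G, _, _, _, _, _, 𝓕, act, r, κ, W, e0, hg, hf, hs, hfl⟩ := h
  have hcomp : ∀ g g' : G, (act g : V → V) ∘ (act g') = act (g * g') := by
    intro g g'
    funext v
    rw [map_mul]
    rfl
  refine ⟨V, G, G, inferInstance, inferInstance, inferInstance, inferInstance, inferInstance,
    inferInstance, ⟨1⟩, 𝓕, act, r, κ, W, eG act e0, actL G, Nat.zero_le D, ?_, ?_, ?_, ?_, hs, ?_⟩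
  · exact
      { four := hg.four
        cx := hg.cx
        inv := hg.inv
        inj := hg.inj
        deg := hg.deg
        cF := hg.cF
        cW := hg.cW
        κinj := hg.κinj
        κW := hg.κW
        core := hg.core
        core0 := hg.core0
        rκ := hg.rκ
        rW := hg.rW }
  · exact
      { inj := fun g => (act g).injective.comp hf.inj
        sx := by
          intro g
          rw [POps_im]
          obtain ⟨h1, h2, h3⟩ := hf.sx
          refine ⟨hg.inv g _ h1, ?_, ?_⟩
          · rw [card_image_of_injective _ (act g).injective, h2]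
          · intro f hf'
            obtain ⟨f0, hf0, rfl⟩ := mem_image.1 hf'
            obtain ⟨G0, hG0, hG0'⟩ := h3 f0 hf0
            refine ⟨G0.image (act g), hg.inv g _ hG0, ?_⟩
            rw [← image_inter _ _ (act g).injective, hG0', ← image_erase (act g).injective]
        dist := by
          intro g g' hgg
          rw [POps_im, POps_im] at hgg
          have h1 := congrArg (fun B => B.image (act g'⁻¹)) hgg
          simp only [image_image] at h1
          rw [hcomp, hcomp] at h1
          have h2 : (act (g'⁻¹ * g') : V → V) = id := by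
            funext v
            simp
          rw [h2, image_id] at h1
          have h5 := hf.free _ h1
          exact (inv_mul_eq_one.1 h5).symm
        core := core_free hf
        fact := by
          intro g g'
          rw [POps_im, POps_im, image_image, hcomp]
          rfl
        gact := by
          intro g g' j _
          change act g (act g' (e0 j)) = act (g * g') (e0 j)
          rw [map_mul]
          rfl }
  · intro g g' σ hσ
    refine ⟨g' * g⁻¹, by rw [actL_apply, inv_mul_cancel_right], fun j => ?_⟩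
    rw [hσ j (Nat.zero_le _)]
    change act (g' * g⁻¹) (act g (e0 j)) = act g' (e0 j)
    rw [map_mul, map_inv]
    simp
  · simp
  · rw [hfl, hg.cG]

theorem preP_zero_one {D k : ℕ} (hD : 1 ≤ D) (h : PreP D 0 k) : PreP D 1 k := by
  obtain ⟨V, G, ι, _, _, _, _, _, _, _, 𝓕, act, r, κ, W, e, aι, -, hg, hh, hfu, hc, hs, hfl⟩ := h
  refine ⟨V, G, ι, inferInstance, inferInstance, inferInstance, inferInstance, inferInstance,
    inferInstance, inferInstance, 𝓕, act, r, κ, W, e, aι, hD, hg, ?_, ?_, ?_, hs, hfl⟩
  · exact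
      { inj := hh.inj
        sx := hh.sx
        dist := hh.dist
        core := hh.core
        fact := hh.fact
        gact := fun g i j _ => hh.gact g i j (Nat.zero_le _) }
  · intro i i' σ hσ
    have h0 : ∀ j, σ j = j := by
      intro j
      by_cases hj : 1 ≤ j.val
      · exact hσ j hj
      · by_contra hne
        have h1 : 1 ≤ (σ j).val := by
          by_contra h2
          apply hne
          apply Fin.ext
          omega
        exact hne (σ.injective (hσ (σ j) h1))
    exact hfu i i' σ fun j _ => h0 j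
  · rw [← hc]
    rfl

theorem preP_join {D k : ℕ} (m : ℕ) (hm : 2 ≤ m) (h : PreP D 0 k) :
    PreP (D + m) m ((D + 1 + m).choose m * k) := by
  obtain ⟨V, G, ι, _, _, _, _, _, _, _, 𝓕, act, r, κ, W, e, aι, -, hg, hh, hfu, hc, hs, hfl⟩ := h
  have h1 : 1 ≤ D := by have := hg.four; omega
  have hcard : Fintype.card (G × Equiv.Perm (Fin m)) = Fintype.card G * m.factorial := by
    rw [Fintype.card_prod, Fintype.card_perm, Fintype.card_fin]
  refine ⟨V ⊕ Fin m, G × Equiv.Perm (Fin m), ι, inferInstance, inferInstance, inferInstance,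
    inferInstance, inferInstance, inferInstance, inferInstance, joinF 𝓕 m, actJoin act m, (r, 1),
    _, _, _, _, by omega, goodP_join hg m, hd_join hh m, hfull_join hfu m, ?_, ?_, ?_⟩
  · rw [hcard, ← hc]
    simp
  · exact fun x => ss_join hm (by have := goodP_cardV hg; omega) x
  · have h2 := fl_join h1 hg.cx m
    have h3 : (D + 1 + m).choose m * m.factorial * (D + 1).factorial = (D + 1 + m).factorial := by
      have := Nat.choose_mul_factorial_mul_factorial (n := D + 1 + m) (k := m) (by omega)
      rwa [Nat.add_sub_cancel] at this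
    rw [← h3, hfl] at h2
    rw [hcard]
    apply Nat.eq_of_mul_eq_mul_right (Nat.factorial_pos (D + 1))
    rw [h2]
    ring

theorem preP_pyr {D μ k : ℕ} (h : PreP D μ k) : PreP (D + 1) μ ((D + 2) * k) := by
  obtain ⟨V, G, ι, _, _, _, _, _, _, _, 𝓕, act, r, κ, W, e, aι, hμ, hg, hh, hfu, hc, hs, hfl⟩ := h
  have h1 : 1 ≤ D := by have := hg.four; omega
  refine ⟨V ⊕ Unit, G, ι, inferInstance, inferInstance, inferInstance, inferInstance,
    inferInstance, inferInstance, inferInstance, pyr 𝓕, actSum act 1, r, _, _, _, _, by omega,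
    goodP_pyr hg, hd_pyr hh hμ, hfull_pyr hfu hμ, hc, ?_, ?_⟩
  · exact ss_pyr h1 hg.cx (by have := goodP_cardV hg; omega) hg.cF
  · rw [fl_pyr h1 hg.cx, hfl]
    ring

theorem preP_bip {D μ k : ℕ} (h : PreP D μ k) : PreP (D + 1) μ ((D + 1) * k) := by
  obtain ⟨V, G, ι, _, _, _, _, _, _, _, 𝓕, act, r, κ, W, e, aι, hμ, hg, hh, hfu, hc, hs, hfl⟩ := h
  have h4 := hg.four
  have h1 : 1 ≤ D := by omega
  have hcard : Fintype.card (G × Equiv.Perm Bool) = Fintype.card G * 2 := by
    rw [Fintype.card_prod, Fintype.card_perm, Fintype.card_bool]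
    rfl
  refine ⟨V ⊕ Bool, G × Equiv.Perm Bool, ι × Bool, inferInstance, inferInstance, inferInstance,
    inferInstance, inferInstance, inferInstance, inferInstance, bip 𝓕, actBip act, (r, 1),
    _, _, _, _, by omega, goodP_bip hg, hd_bip hh hμ, hfull_bip hfu hμ, ?_, ?_, ?_⟩
  · rw [hcard, Fintype.card_prod, Fintype.card_bool, ← hc]
    ring
  · exact ss_bip (by omega) hg.deg hg.cF
  · rw [fl_bip h1 hg.cx (cplx_bip h1 hg.cx), hfl, hcard]
    ring

end H63.KN
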