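import Pool.Agent.H63.KN.SnDef

/-! # KN.SnA : one stacking: good, handle, super-simple vertices (compare `H47.KO.SnakeA`)

`nx1_inj`, `nx1_low`, `nx1_mem` (`im (nx1 D μ)` has `D` elements, so it is in `simp D`), `nx1_ne` (it contains `inr ()`, position `μ < D`). `sn_ok`: `glueOK_hd`, `simp_cplx`, `simp_F0`. `sn_good`: `goodP_glue`, `simp_deg`, `simp_card`, `Hd.core`, `eqGlue_hd` with `simp_symM`.
`sn_hd`, `sn_full`: `hd_cont`, `hfull_cont` with `simp_sx`. `sn_ss`: `x = inl w`: `ss_glue_inl` (`simp_deg`): `SS 𝓕 w` and `w` is no `e i j`; but by the field `ss` it is: contradiction. `x = inr (i, ())` is `phi e i (nx1 D μ j)` for `j.val = μ`. -/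

namespace H63.KN

open Finset H47.KO

theorem nx1_inj {D μ : ℕ} : Function.Injective (nx1 D μ) := by
  intro a b h
  unfold nx1 at h
  apply Fin.ext
  split_ifs at h with h1 h2 h3 h4 h5 h6 h7 h8
  all_goals first
    | exact congrArg Fin.val (Sum.inl.inj h)
    | (have h9 := congrArg Fin.val (Sum.inl.inj h); simp only at h9; omega)
    | omega

theorem nx1_sx {D μ : ℕ} (hD : 1 ≤ D) : IsSx D (simp D) (im (nx1 D μ)) := by
  have _ := hD
  apply simp_sx
  rw [simp, Finset.mem_filter]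
  refine ⟨Finset.mem_univ _, ?_⟩
  rw [im, Finset.card_image_of_injective _ nx1_inj, Finset.card_univ, Fintype.card_fin]

theorem nx1_ne {D μ : ℕ} (h : μ < D) : im (nx1 D μ) ≠ im (Sum.inl : Fin D → Fin D ⊕ Unit) := by
  intro h1
  have h2 : (Sum.inr () : Fin D ⊕ Unit) ∈ im (nx1 D μ) := by
    refine Finset.mem_image.2 ⟨⟨μ, h⟩, Finset.mem_univ _, ?_⟩
    simp [nx1]
  rw [h1] at h2
  obtain ⟨j, _, hj⟩ := Finset.mem_image.1 h2
  exact absurd hj (by simp)

theorem nx1_low {D μ : ℕ} (j : Fin D) (h : j.val < μ) : nx1 D μ j = Sum.inl j := by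
  simp [nx1, h]

variable {V G ι : Type} [Fintype V] [DecidableEq V] [Group G] [Fintype ι] [DecidableEq ι]
  {D μ t : ℕ} {𝓕 : Finset (Finset V)} {act : G →* Equiv.Perm V} {r : G} {κ : Fin 11 → V}
  {W : Finset V} {e : ι → Fin D → V} {aι : G →* Equiv.Perm ι}

theorem sn_ok (h : SnkP D μ t 𝓕 act r κ W e aι) : GlueOK D 𝓕 (simp D) e :=
  glueOK_hd h.good h.hd (simp_cplx D (by have := h.lt; omega)) (simp_F0 D)

theorem sn_good (h : SnkP D μ t 𝓕 act r κ W e aι) :
    GoodP D (glue 𝓕 (simp D) e) (actSum act (actProd aι 1)) r (fun i => Sum.inl (κ i))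
      (W.image Sum.inl) :=
  goodP_glue h.good (sn_ok h) (fun x => le_of_eq (simp_deg D x).symm)
    (by rw [simp_card]; have := h.lt; omega) h.hd.core aι 1 (eqGlue_hd h.hd (simp_symM D μ))

theorem sn_hd (h : SnkP D μ t 𝓕 act r κ W e aι) :
    Hd D μ (glue 𝓕 (simp D) e) (actSum act (actProd aι 1)) (fun i => Sum.inl (κ i))
      (W.image Sum.inl) (fun i j => phi e i (nx1 D μ j)) aι :=
  hd_cont (sn_ok h) h.hd nx1_inj (nx1_sx (by have := h.lt; omega)) (fun j hj => nx1_low j hj)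
    (nx1_ne h.lt)

theorem sn_full (h : SnkP D μ t 𝓕 act r κ W e aι) :
    HFull μ (actSum act (actProd aι (1 : G →* Equiv.Perm Unit)))
      (fun i j => phi e i (nx1 D μ j)) aι :=
  hfull_cont h.full nx1_inj (fun j hj => nx1_low j hj)

theorem sn_ss (h : SnkP D μ t 𝓕 act r κ W e aι) (v : V ⊕ (ι × Unit))
    (hv : SS D (glue 𝓕 (simp D) e) v) :
    1 ≤ t + 1 ∧ ∃ i, ∃ j : Fin D, j.val = μ ∧ v = phi e i (nx1 D μ j) := by
  refine ⟨by omega, ?_⟩
  rcases v with w | ⟨i, u⟩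
  · exfalso
    obtain ⟨h1, h2⟩ := (ss_glue_inl (sn_ok h) (by have := h.good.four; omega)
      (fun x => le_of_eq (simp_deg D x).symm) w).1 hv
    obtain ⟨_, i, j, _, hj⟩ := h.ss w h1
    exact h2 i j hj.symm
  · refine ⟨i, ⟨μ, h.lt⟩, rfl, ?_⟩
    simp [nx1, phi]

end H63.KN
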