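import Pool.Agent.H63.KN.SnA

/-! # KN.SnB : one stacking: degrees and flags (compare `H47.KO.SnakeB`)

`sn_deg_le`: `deg_glue_inl` with `simp_deg`: `deg' + 2 n = deg + D n`, `n` = number of pairs `(i', j')` with `e i' j' = v`; for `v = e i j` : `n ≥ 1`, `D ≥ 4`, so `deg' ≥ deg + (D - 2)`. `sn_deg_one`: if `e i j ∈ im (e i')` only for `i' = i` then `n = 1` (`e i` injective).
`sn_dg`: `j.val = μ`: the new vertex, `deg_glue_inr`, `simp_deg`: `D`. `j.val > μ`: `phi e i (nx1 D μ j) = inl (e i (j - 1))`, `fr`, `dg` of the old state, `sn_deg_one`. `sn_fr`: `j.val = μ`: `inr (i, ())` is in `im (fun j => phi e i' (nx1 D μ j))` only for `i' = i`; `j.val > μ`: if `inl (e i (j-1))` is in it then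
`e i (j - 1) ∈ im (e i')`, old `fr`. `sn_mv`: `nx1_low`, `sn_deg_le`, old `mv`, `(t + 1) * (D - 2) = t * (D - 2) + (D - 2)`. `sn_fl`: `fl_glue'`, `simp_fl`: `fl' + |ι| * (2 * D!) = fl + |ι| * (D + 1)!`. -/

namespace H63.KN

open Finset H47.KO

variable {V G ι : Type} [Fintype V] [DecidableEq V] [Group G] [Fintype ι] [DecidableEq ι]
  {D μ t : ℕ} {𝓕 : Finset (Finset V)} {act : G →* Equiv.Perm V} {r : G} {κ : Fin 11 → V}
  {W : Finset V} {e : ι → Fin D → V} {aι : G →* Equiv.Perm ι}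

theorem sn_deg_le (h : SnkP D μ t 𝓕 act r κ W e aι) (i : ι) (j : Fin D) :
    deg 𝓕 (e i j) + (D - 2) ≤ deg (glue 𝓕 (simp D) e) (Sum.inl (e i j)) := by
  have h1 := deg_glue_inl (sn_ok h) (e i j)
  have h4 := h.good.four
  have h2 : (i, j) ∈ (univ : Finset (ι × Fin D)).filter (fun p => e p.1 p.2 = e i j) := by
    simp
  have h3 := Finset.card_pos.2 ⟨_, h2⟩
  simp only [simp_deg, Finset.sum_const, smul_eq_mul] at h1
  obtain ⟨n, hn⟩ : ∃ n, n = ((univ : Finset (ι × Fin D)).filter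
    (fun p => e p.1 p.2 = e i j)).card := ⟨_, rfl⟩
  rw [← hn] at h1 h3
  obtain ⟨d, rfl⟩ : ∃ d, D = d + 2 := ⟨D - 2, by omega⟩
  have h5 : n * (d + 2) = n * 2 + n * d := by ring
  have h6 : d ≤ n * d := Nat.le_mul_of_pos_left d h3
  have h7 : d + 2 - 2 = d := by omega
  rw [h7]
  omega

theorem sn_deg_one (h : SnkP D μ t 𝓕 act r κ W e aι) (i : ι) (j : Fin D)
    (hfr : ∀ i', e i j ∈ im (e i') → i' = i) :
    deg (glue 𝓕 (simp D) e) (Sum.inl (e i j)) = deg 𝓕 (e i j) + (D - 2) := by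
  have h1 := deg_glue_inl (sn_ok h) (e i j)
  have h4 := h.good.four
  have h2 : (univ : Finset (ι × Fin D)).filter (fun p => e p.1 p.2 = e i j) = {(i, j)} := by
    ext ⟨i', j'⟩
    simp only [Finset.mem_filter, Finset.mem_univ, true_and, Finset.mem_singleton, Prod.mk.injEq]
    constructor
    · intro h3
      have h5 : i' = i := hfr i' (by rw [← h3]; exact Finset.mem_image_of_mem _ (Finset.mem_univ _))
      subst h5
      exact ⟨rfl, h.hd.inj _ h3⟩
    · rintro ⟨rfl, rfl⟩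
      rfl
  rw [h2, Finset.sum_singleton, Finset.sum_singleton, simp_deg] at h1
  omega

omit [Fintype V] [DecidableEq V] [Fintype ι] [DecidableEq ι] in
private theorem SnB_nx_eq (i : ι) {j : Fin D} (h : j.val = μ) :
    phi e i (nx1 D μ j) = (Sum.inr (i, ()) : V ⊕ (ι × Unit)) := by
  have h1 : nx1 D μ j = Sum.inr () := by
    unfold nx1
    rw [if_neg (by omega), if_pos h]
  rw [h1]
  rfl

omit [Fintype V] [DecidableEq V] [Fintype ι] [DecidableEq ι] in
private theorem SnB_nx_gt (i : ι) {j : Fin D} (h : μ < j.val) :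
    phi e i (nx1 D μ j) = (Sum.inl (e i ⟨j.val - 1, by omega⟩) : V ⊕ (ι × Unit)) := by
  have h1 : nx1 D μ j = Sum.inl ⟨j.val - 1, by omega⟩ := by
    unfold nx1
    rw [if_neg (by omega), if_neg (by omega)]
  rw [h1]
  rfl

theorem sn_dg (h : SnkP D μ t 𝓕 act r κ W e aι) (i : ι) (j : Fin D) (h1 : μ ≤ j.val)
    (h2 : j.val < μ + (t + 1)) :
    deg (glue 𝓕 (simp D) e) (phi e i (nx1 D μ j)) = D + (j.val - μ) * (D - 2) := by
  rcases Nat.eq_or_lt_of_le h1 with h3 | h3
  · rw [SnB_nx_eq i h3.symm, deg_glue_inr (sn_ok h), simp_deg, ← h3, Nat.sub_self, zero_mul,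
      add_zero]
  · rw [SnB_nx_gt i h3]
    have h4 := sn_deg_one h i ⟨j.val - 1, by omega⟩ (fun i' hi' =>
      h.fr i i' ⟨j.val - 1, by omega⟩ (by simp only; omega) (by simp only; omega) hi')
    have h5 := h.dg i ⟨j.val - 1, by omega⟩ (by simp only; omega) (by simp only; omega)
    rw [h4, h5]
    simp only
    have h6 : j.val - μ = (j.val - 1 - μ) + 1 := by omega
    rw [h6]
    ring

theorem sn_fr (h : SnkP D μ t 𝓕 act r κ W e aι) (i i' : ι) (j : Fin D) (h1 : μ ≤ j.val)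
    (h2 : j.val < μ + (t + 1))
    (hm : phi e i (nx1 D μ j) ∈ im (fun j => phi (W := Unit) e i' (nx1 D μ j))) : i' = i := by
  obtain ⟨j', hj'⟩ := (mem_im _ _).1 hm
  rcases Nat.eq_or_lt_of_le h1 with h3 | h3
  · rw [SnB_nx_eq i h3.symm] at hj'
    cases hx : nx1 D μ j' with
    | inl a =>
      rw [hx] at hj'
      cases hj'
    | inr a =>
      rw [hx] at hj'
      have h4 : (i', a) = (i, ()) := Sum.inr.inj hj'
      exact congrArg Prod.fst h4
  · rw [SnB_nx_gt i h3] at hj'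
    cases hx : nx1 D μ j' with
    | inl a =>
      rw [hx] at hj'
      have h4 : e i' a = e i ⟨j.val - 1, by omega⟩ := Sum.inl.inj hj'
      refine h.fr i i' ⟨j.val - 1, by omega⟩ (by simp only; omega) (by simp only; omega) ?_
      rw [← h4]
      exact (mem_im _ _).2 ⟨a, rfl⟩
    | inr a =>
      rw [hx] at hj'
      cases hj'

theorem sn_mv (h : SnkP D μ t 𝓕 act r κ W e aι) (i : ι) (j : Fin D) (h1 : j.val < μ) :
    D + (t + 1) * (D - 2) ≤ deg (glue 𝓕 (simp D) e) (phi e i (nx1 D μ j)) := by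
  rw [nx1_low j h1]
  have h2 := sn_deg_le h i j
  have h3 := h.mv i j h1
  have h4 : (t + 1) * (D - 2) = t * (D - 2) + (D - 2) := by ring
  have h5 : (phi e i (Sum.inl j) : V ⊕ (ι × Unit)) = Sum.inl (e i j) := rfl
  rw [h5]
  omega

theorem sn_fl (h : SnkP D μ t 𝓕 act r κ W e aι) :
    fl (CLat (glue 𝓕 (simp D) e)) =
      fl (CLat 𝓕) + Fintype.card ι * ((D - 1) * D.factorial) := by
  have h1 := fl_glue' (sn_ok h)
  have h4 := h.good.four
  rw [simp_fl D (le_trans (by norm_num) h4), Nat.factorial_succ] at h1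
  obtain ⟨d, rfl⟩ : ∃ d, D = d + 1 := ⟨D - 1, by omega⟩
  have h5 : Fintype.card ι * ((d + 1 + 1) * (d + 1).factorial) =
      Fintype.card ι * (2 * (d + 1).factorial) +
        Fintype.card ι * ((d + 1 - 1) * (d + 1).factorial) := by
    rw [Nat.add_sub_cancel]; ring
  omega

end H63.KN
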