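import Pool.Agent.H63.KN.SnB

/-! # KN.SnC : one stacking (glue, no sorry) -/

namespace H63.KN

open Finset H47.KO

variable {V G ι : Type} [Fintype V] [DecidableEq V] [Group G] [Fintype ι] [DecidableEq ι]
  {D μ t : ℕ} {𝓕 : Finset (Finset V)} {act : G →* Equiv.Perm V} {r : G} {κ : Fin 11 → V}
  {W : Finset V} {e : ι → Fin D → V} {aι : G →* Equiv.Perm ι}

theorem sn_step (h : SnkP D μ t 𝓕 act r κ W e aι) :
    SnkP D μ (t + 1) (glue 𝓕 (simp D) e) (actSum act (actProd aι 1)) r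
      (fun i => Sum.inl (κ i)) (W.image Sum.inl) (fun i j => phi e i (nx1 D μ j)) aι :=
  ⟨h.lt, sn_good h, sn_hd h, sn_full h, fun v hv => sn_ss h v hv, fun i j => sn_dg h i j,
    fun i i' j h1 h2 hm => sn_fr h i i' j h1 h2 hm, fun i j => sn_mv h i j⟩

end H63.KN
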