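import Pool.Agent.H63.KN.EqH
import Pool.Agent.H63.KN.GoodGl
import Pool.Agent.H63.KN.HdCont

/-! # KN.SnDef : the snake on a handle of type `μ`, definitions (no sorry) -/

namespace H63.KN

open Finset H47.KO

/-- the enumeration of the next facet of the stacked simplex: the new vertex at position `μ`,
the positions above shifted -/
def nx1 (D μ : ℕ) : Fin D → Fin D ⊕ Unit := fun j =>
  if j.val < μ then Sum.inl j else if j.val = μ then Sum.inr () else
    Sum.inl ⟨j.val - 1, by omega⟩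

/-- the state after `t` stackings -/
structure SnkP (D μ t : ℕ) {V G ι : Type} [Fintype V] [DecidableEq V] [Group G]
    (𝓕 : Finset (Finset V)) (act : G →* Equiv.Perm V) (r : G) (κ : Fin 11 → V) (W : Finset V)
    (e : ι → Fin D → V) (aι : G →* Equiv.Perm ι) : Prop where
  lt : μ < D
  good : GoodP D 𝓕 act r κ W
  hd : Hd D μ 𝓕 act κ W e aι
  full : HFull μ act e aι
  ss : ∀ v, SS D 𝓕 v → 1 ≤ t ∧ ∃ i, ∃ j : Fin D, j.val = μ ∧ v = e i j
  dg : ∀ i (j : Fin D), μ ≤ j.val → j.val < μ + t → deg 𝓕 (e i j) = D + (j.val - μ) * (D - 2)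
  fr : ∀ i i' (j : Fin D), μ ≤ j.val → j.val < μ + t → e i j ∈ im (e i') → i' = i
  mv : ∀ i (j : Fin D), j.val < μ → D + t * (D - 2) ≤ deg 𝓕 (e i j)

end H63.KN
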