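import Pool.Agent.H63.KN.SnC
import Pool.Agent.H47.KO.SnakeEnd

/-! # KN.SnEnd : after the snake all automorphisms come from the group (paper F; compare `H47.KO.SnakeEnd`)

State `SnkP D μ (D - μ)` and one more stacking. `𝓕' = glue 𝓕 (simp D) e`, `x i = inr (i, ())`. `σ` preserves `𝓕'` (so does `σ⁻¹`, `inv_pres`), so it preserves `deg` and `SS` (`H47.KO.deg_auto`, `ss_auto`). `x i0` is super-simple (`ss_glue_inr`, `simp_ss`), so `σ (x i0)` is, and by `sn_ss` it is `x i1`
(the new vertex at position `μ`). The facets of `𝓕'` containing `x i` are the `{x i} ∪ inl '' ((im (e i)).erase (e i j))`, `j : Fin D` (`mem_glue`; members of `simp D` which contain `inr ()`), their union minus `x i` is `inl '' im (e i)` (`D ≥ 2`). So `σ` maps `inl '' im (e i0)` onto `inl '' im (e i1)`.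
Degrees in `𝓕'` (`sn_deg_one` with `fr`, `t = D - μ`, all positions `μ ≤ j < D`): `deg' (inl (e i j)) = D + (j - μ + 1) * (D - 2)` for `μ ≤ j`, and `≥ D + (D - μ + 1) * (D - 2)` for `j < μ` (`sn_deg_le`, `mv`): so `σ (inl (e i0 j)) = inl (e i1 j)` for `μ ≤ j`, and for `j < μ` it is `inl (e i1 (τ j))` with
`τ j < μ`. `τ` (identity for `j ≥ μ`) is a permutation of `Fin D`; by `HFull` there is `g` with `aι g i0 = i1`, `act g (e i0 j) = e i1 (τ j)` for all `j`. `act' g = actSum act (actProd aι 1) g` agrees with `σ` on `x i0` and on `inl '' im (e i0)`, so `(act' g)⁻¹ * σ` preserves `𝓕'` and fixes pointwise the simplex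
facet `im (fun j => phi e i0 (nx1 D μ j))` (`sn_hd`): `fix_sx` gives `σ = act' g`. -/

namespace H63.KN

open Finset H47.KO

variable {V G ι : Type} [Fintype V] [DecidableEq V] [Group G] [Fintype ι] [DecidableEq ι]
  [Nonempty ι] {D μ : ℕ} {𝓕 : Finset (Finset V)} {act : G →* Equiv.Perm V} {r : G}
  {κ : Fin 11 → V} {W : Finset V} {e : ι → Fin D → V} {aι : G →* Equiv.Perm ι}

omit [Nonempty ι] in
private theorem SnEnd_deg_hi (h : SnkP D μ (D - μ) 𝓕 act r κ W e aι) (i : ι) (j : Fin D)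
    (hj : μ ≤ j.val) :
    deg (glue 𝓕 (simp D) e) (Sum.inl (e i j)) = D + (j.val - μ + 1) * (D - 2) := by
  have hl := h.lt
  rw [sn_deg_one h i j (fun i' hi' => h.fr i i' j hj (by omega) hi'), h.dg i j hj (by omega)]
  ring

omit [Nonempty ι] in
private theorem SnEnd_deg_lo (h : SnkP D μ (D - μ) 𝓕 act r κ W e aι) (i : ι) (j : Fin D)
    (hj : j.val < μ) :
    D + (D - μ + 1) * (D - 2) ≤ deg (glue 𝓕 (simp D) e) (Sum.inl (e i j)) := by
  have h1 := sn_deg_le h i j
  have h2 := h.mv i j hj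
  have h3 : (D - μ + 1) * (D - 2) = (D - μ) * (D - 2) + (D - 2) := by ring
  omega

theorem sn_exact (h : SnkP D μ (D - μ) 𝓕 act r κ W e aι) :
    Exact (glue 𝓕 (simp D) e) (actSum act (actProd aι (1 : G →* Equiv.Perm Unit))) := by
  intro σ hσ
  have hok := sn_ok h
  have hst := sn_step h
  have h4 : 4 ≤ D := h.good.four
  have hl := h.lt
  obtain ⟨i0⟩ := ‹Nonempty ι›
  have hx1 : SS D (glue 𝓕 (simp D) e) (Sum.inr (i0, ())) :=
    (ss_glue_inr hok i0 ()).2 (simp_ss D (Sum.inr ()))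
  have hx2 := ss_auto σ hσ _ hx1
  obtain ⟨-, i1, j, hj, hgj⟩ := hst.ss _ hx2
  have hnj : phi e i1 (nx1 D μ j) = (Sum.inr (i1, ()) : V ⊕ (ι × Unit)) := by
    have h1 : nx1 D μ j = Sum.inr () := by
      unfold nx1
      rw [if_neg (by omega), if_pos hj]
    rw [h1]
    rfl
  rw [hnj] at hgj
  -- the other vertices
  have hfe : ∀ j : Fin D, ∃ j2, σ (Sum.inl (e i0 j)) = Sum.inl (e i1 j2) := by
    intro j
    obtain ⟨j', hj'⟩ : ∃ j' : Fin D, j' ≠ j := by
      by_cases h0 : j.val = 0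
      · exact ⟨⟨1, by omega⟩, fun h => by rw [← h] at h0; simp at h0⟩
      · exact ⟨⟨0, by omega⟩, fun h => h0 (by rw [← h])⟩
    have hA : (univ.erase (Sum.inl j' : Fin D ⊕ Unit)) ∈ simp D := by
      unfold simp
      rw [Finset.mem_filter]
      refine ⟨Finset.mem_univ _, ?_⟩
      rw [Finset.card_erase_of_mem (Finset.mem_univ _), Finset.card_univ, Fintype.card_sum,
        Fintype.card_fin, Fintype.card_unit]
      rfl
    have hA1 : (univ.erase (Sum.inl j' : Fin D ⊕ Unit)) ≠ im Sum.inl := by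
      intro h0
      have h1 : (Sum.inr () : Fin D ⊕ Unit) ∈ univ.erase (Sum.inl j' : Fin D ⊕ Unit) := by
        simp
      rw [h0, mem_im] at h1
      obtain ⟨a, ha⟩ := h1
      cases ha
    have hB : (univ.erase (Sum.inl j' : Fin D ⊕ Unit)).image (phi e i0) ∈
        glue 𝓕 (simp D) e := mem_glue.2 (Or.inr ⟨i0, _, hA, hA1, rfl⟩)
    have hB2 := hσ _ hB
    have hx : (Sum.inr (i1, ()) : V ⊕ (ι × Unit)) ∈
        ((univ.erase (Sum.inl j' : Fin D ⊕ Unit)).image (phi e i0)).image σ := by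
      rw [← hgj]
      refine Finset.mem_image_of_mem σ ?_
      exact inr_mem_phi.2 ⟨rfl, by simp⟩
    have he : σ (Sum.inl (e i0 j)) ∈
        ((univ.erase (Sum.inl j' : Fin D ⊕ Unit)).image (phi e i0)).image σ := by
      refine Finset.mem_image_of_mem σ ?_
      refine inl_mem_phi.2 ⟨j, rfl, ?_⟩
      rw [Finset.mem_erase]
      exact ⟨fun h => hj' (Sum.inl_injective h).symm, Finset.mem_univ _⟩
    rcases mem_glue.1 hB2 with ⟨F, -, -, hF⟩ | ⟨i, A', -, -, hA'⟩
    · rw [hF] at hx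
      simp at hx
    · rw [hA'] at hx he
      obtain ⟨hi, -⟩ := inr_mem_phi.1 hx
      subst hi
      cases hc : σ (Sum.inl (e i0 j)) with
      | inr p =>
        exfalso
        obtain ⟨g', u⟩ := p
        rw [hc] at he
        obtain ⟨hg', -⟩ := inr_mem_phi.1 he
        subst hg'
        have h1 : σ (Sum.inl (e i0 j)) = σ (Sum.inr (i0, ())) := by
          rw [hc, hgj]
        exact absurd (σ.injective h1) (by simp)
      | inl v =>
        rw [hc] at he
        obtain ⟨j2, hj2, -⟩ := inl_mem_phi.1 he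
        exact ⟨j2, by rw [← hj2]⟩
  choose τ hτ using hfe
  have hτdeg : ∀ j, deg (glue 𝓕 (simp D) e) (Sum.inl (e i1 (τ j))) =
      deg (glue 𝓕 (simp D) e) (Sum.inl (e i0 j)) := by
    intro j
    rw [← hτ j]
    exact deg_auto σ hσ _
  have hτinj : Function.Injective τ := by
    intro a b hab
    have h1 : σ (Sum.inl (e i0 a)) = σ (Sum.inl (e i0 b)) := by
      rw [hτ a, hτ b, hab]
    exact h.hd.inj i0 (Sum.inl_injective (σ.injective h1))
  have hτfix : ∀ j : Fin D, μ ≤ j.val → τ j = j := by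
    intro j hj
    have h1 := hτdeg j
    rw [SnEnd_deg_hi h i0 j hj] at h1
    have hlt : (j.val - μ + 1) * (D - 2) < (D - μ + 1) * (D - 2) :=
      Nat.mul_lt_mul_of_pos_right (by omega) (by omega)
    by_cases h2 : μ ≤ (τ j).val
    · rw [SnEnd_deg_hi h i1 (τ j) h2] at h1
      have h5 := Nat.add_left_cancel h1
      have h6 := Nat.eq_of_mul_eq_mul_right (by omega) h5
      exact Fin.ext (by omega)
    · have h3 := SnEnd_deg_lo h i1 (τ j) (by omega)
      omega
  obtain ⟨g, hg1, hg2⟩ := h.full i0 i1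
    (Equiv.ofBijective τ (Finite.injective_iff_bijective.1 hτinj)) hτfix
  refine ⟨g, ?_⟩
  set act' := actSum act (actProd aι (1 : G →* Equiv.Perm Unit)) with hact'
  set σ' : Equiv.Perm (V ⊕ (ι × Unit)) := act' g⁻¹ * σ with hσ'
  have hpres : ∀ F ∈ glue 𝓕 (simp D) e, F.image σ' ∈ glue 𝓕 (simp D) e := by
    intro F hF
    have h1 : F.image σ' = (F.image σ).image (act' g⁻¹) := by
      rw [Finset.image_image]
      rfl
    rw [h1]
    exact hst.good.inv g⁻¹ _ (hσ F hF)
  have hinv : ∀ y y', act' g y = y' → act' g⁻¹ y' = y := by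
    intro y y' hy
    rw [← hy, ← Equiv.Perm.mul_apply, ← map_mul, inv_mul_cancel, map_one, Equiv.Perm.one_apply]
  have hfx : σ' (Sum.inr (i0, ())) = Sum.inr (i0, ()) := by
    rw [hσ', Equiv.Perm.mul_apply, hgj]
    apply hinv
    rw [hact', actSum_inr, actProd_apply, hg1]
  have hfj : ∀ j, σ' (Sum.inl (e i0 j)) = Sum.inl (e i0 j) := by
    intro j
    rw [hσ', Equiv.Perm.mul_apply, hτ]
    apply hinv
    rw [hact', actSum_inl, hg2]
    rfl
  have hone : σ' = 1 := by
    refine fix_sx (by omega) hst.good.cx σ' hpres _ (hst.hd.sx i0) ?_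
    intro v hv
    obtain ⟨j, rfl⟩ := (mem_im _ _).1 hv
    cases hx : nx1 D μ j with
    | inl a => exact hfj a
    | inr a => exact hfx
  have h8 : act' g * σ' = σ := by
    rw [hσ', ← mul_assoc, ← map_mul, mul_inv_cancel, map_one, one_mul]
  rw [← h8, hone, mul_one]

end H63.KN
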