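import Pool.Agent.H63.KN.Defs

/-! # KN.SymN : symmetry of gadgets in normal form; permutations of positions

`symM_of`: the permutation `Equiv.sumCongr σ (Equiv.refl W)` of `Fin D ⊕ W` is the identity outside the `inl j`, `j < μ`: field `sym`.
`exists_sigma`: `f (e j) ∈ (im e).image f = im e'`, so there is `σ j` with `f (e j) = e' (σ j)`; `σ` is injective (`e`, `f` injective), so bijective (`Finite.injective_iff_bijective`), `Equiv.ofBijective`; for `μ ≤ j`: `e' (σ j) = e' j`. -/

namespace H63.KN

open Finset H47.KO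

theorem symM_of {D μ f : ℕ} {W : Type} [Fintype W] [DecidableEq W]
    {𝓖 : Finset (Finset (Fin D ⊕ W))} {e1 : Fin D → Fin D ⊕ W} {R : Finset (Fin D ⊕ W)}
    (h : IsGadM D μ f 𝓖 (Sum.inl : Fin D → Fin D ⊕ W) e1 R) : SymM μ 𝓖 := by
  intro σ hσ A hA
  have h1 := h.sym (Equiv.sumCongr σ (Equiv.refl W)) (by
    intro u hu
    rcases u with j | w
    · have hj : μ ≤ j.val := by
        by_contra hlt
        exact hu j (not_le.1 hlt) rfl
      simp [hσ j hj]
    · simp) A hA
  have h2 : (⇑(Equiv.sumCongr σ (Equiv.refl W)) : Fin D ⊕ W → Fin D ⊕ W)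
      = Sum.map σ (id : W → W) := by
    funext u
    rcases u with j | w <;> simp
  rw [h2] at h1
  exact h1

theorem simp_symM (D μ : ℕ) : SymM μ (simp D) := by
  intro σ _ A hA
  unfold simp at hA ⊢
  rw [mem_filter] at hA ⊢
  refine ⟨mem_univ _, ?_⟩
  rw [card_image_of_injective]
  · exact hA.2
  · exact Function.Injective.sumMap σ.injective Function.injective_id

theorem exists_sigma {D : ℕ} (μ : ℕ) {V : Type} [DecidableEq V] (e e' : Fin D → V)
    (he : Function.Injective e) (he' : Function.Injective e') (f : Equiv.Perm V)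
    (h : (im e).image f = im e') (hg : ∀ j : Fin D, μ ≤ j.val → f (e j) = e' j) :
    ∃ σ : Equiv.Perm (Fin D), (∀ j : Fin D, μ ≤ j.val → σ j = j) ∧ ∀ j, f (e j) = e' (σ j) := by
  have h1 : ∀ j, ∃ i, e' i = f (e j) := by
    intro j
    have h2 : f (e j) ∈ im e' := by
      rw [← h]
      exact mem_image_of_mem f (mem_image_of_mem e (mem_univ j))
    unfold im at h2
    rw [mem_image] at h2
    obtain ⟨i, _, hi⟩ := h2
    exact ⟨i, hi⟩
  choose s hs using h1
  have hinj : Function.Injective s := by
    intro a b hab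
    apply he
    apply f.injective
    rw [← hs a, ← hs b, hab]
  have hbij := Finite.injective_iff_bijective.1 hinj
  refine ⟨Equiv.ofBijective s hbij, ?_, ?_⟩
  · intro j hj
    apply he'
    show e' (s j) = e' j
    rw [hs j, hg j hj]
  · intro j
    exact (hs j).symm

end H63.KN
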